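import Pool.Agent.Lib.MP_db622c_co.P5.Lam

/-!
# P5-Amp: the first component of the boards

`S2 a j = 1 ∨ S2 a j = -1` (`S2_sign`: from `quadraticChar_dichotomy`; `sd u = 1 ∨ sd u = -1`).
`amp_sign`: `φ (amp * w)` is `φ 1 = 0` if the signs at the two ends are opposite, `φ c = 1` otherwise
(`w ≠ 0`); `sg 0 = 1`, `sg 1 = -1` (`sg` is in the library, see `CB/Tens.lean`).
-/

namespace Pool.Agent.Lib.MP_db622c_co.P5

open Pool.Agent.Lib.MP_db622c_co Pool.Agent.Lib.MP_db622c_co.CB Pool.Agent.Lib.MP_db622c_co.P2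
open Pool.Agent.Lib.MP_db622c_co.P2.PData (T ch)

variable {F : Type} [Field F] [Fintype F] [DecidableEq F]

variable {K : Type} [Field K] [DecidableEq K] [CharP K 2] (D : TData F) (E : KData K)

theorem S2_sign (a j : Pt F) : S2 a j = 1 ∨ S2 a j = -1 := by
  have hsd : ∀ u : ZMod 2, sd u = 1 ∨ sd u = -1 := by
    intro u
    unfold sd
    by_cases h : u = 0
    · rw [if_pos h]; exact Or.inl rfl
    · rw [if_neg h]; exact Or.inr rfl
  obtain ⟨i, a⟩ := a
  obtain ⟨u, x⟩ := j
  have hneg : ∀ z : ℤ, z = 1 ∨ z = -1 → -z = 1 ∨ -z = -1 := by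
    rintro z (rfl | rfl)
    · exact Or.inr rfl
    · exact Or.inl (by norm_num)
  cases a with
  | none =>
    cases x with
    | none =>
      show (if i = 0 then (1 : ℤ) else - sd u) = 1 ∨ (if i = 0 then (1 : ℤ) else - sd u) = -1
      split_ifs
      · exact Or.inl rfl
      · exact hneg _ (hsd u)
    | some x =>
      show (if i = 0 then (1 : ℤ) else sd u) = 1 ∨ (if i = 0 then (1 : ℤ) else sd u) = -1
      split_ifs
      · exact Or.inl rfl
      · exact hsd u
  | some a =>
    cases x with
    | none =>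
      show (if i = 0 then sd u else (1 : ℤ)) = 1 ∨ (if i = 0 then sd u else (1 : ℤ)) = -1
      split_ifs
      · exact hsd u
      · exact Or.inl rfl
    | some x =>
      have hr : S2 (i, some a) (u, some x) =
          if x = a then (if i = 0 then sd u else -1)
          else (if i = 0 then quadraticChar F (x - a) else sd u * quadraticChar F (x - a)) := rfl
      rw [hr]
      split_ifs with h1 h2 h2
      · exact hsd u
      · exact Or.inr rfl
      · exact quadraticChar_dichotomy (sub_ne_zero.2 h1)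
      · rcases hsd u with h3 | h3
        · rw [h3, one_mul]; exact quadraticChar_dichotomy (sub_ne_zero.2 h1)
        · rw [h3, neg_one_mul]; exact hneg _ (quadraticChar_dichotomy (sub_ne_zero.2 h1))

theorem amp_ne (j k : Pt F) {w : K} (hw : w ≠ 0) : amp D E j k w ≠ 0 := by
  unfold amp
  refine div_ne_zero ?_ hw
  split_ifs
  · exact one_ne_zero
  · exact E.hc0

private theorem ampnum_symm (j k : Pt F) :
    (if S2 (D.L j k) k = - S2 (D.L j k) j then (1 : K) else E.c) =
      (if S2 (D.L k j) j = - S2 (D.L k j) k then (1 : K) else E.c) := by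
  rw [D.isLam_L.symm k j]
  by_cases h : S2 (D.L j k) k = - S2 (D.L j k) j
  · rw [if_pos h, if_pos (by rw [h, neg_neg])]
  · rw [if_neg h, if_neg (fun h' => h (by rw [h', neg_neg]))]

theorem amp_symm (j k : Pt F) (w : K) : amp D E j k w = amp D E k j w := by
  unfold amp
  rw [ampnum_symm]

theorem amp_inj (j k : Pt F) {w w' : K} (hw : w ≠ 0) (hw' : w' ≠ 0)
    (h : amp D E j k w = amp D E j k w') : w = w' := by
  unfold amp at h
  have hn : (if S2 (D.L j k) k = - S2 (D.L j k) j then (1 : K) else E.c) ≠ 0 := by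
    split_ifs
    · exact one_ne_zero
    · exact E.hc0
  rw [div_eq_div_iff hw hw'] at h
  exact (mul_left_cancel₀ hn h).symm

theorem amp_SP {j k j' k' : Pt F} {w w' : K} (hw : w ≠ 0) (hw' : w' ≠ 0) (hs : SP j k j' k')
    (h : amp D E j k w = amp D E j' k' w') : w = w' := by
  rcases hs with ⟨h1, h2⟩ | ⟨h1, h2⟩
  · rw [h1, h2] at h
    exact amp_inj D E j k hw hw' h
  · rw [h1, h2, amp_symm D E k j w'] at h
    exact amp_inj D E j k hw hw' h

theorem amp_diag (j : Pt F) (w : K) : amp D E j j w = E.c / w := by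
  unfold amp
  rw [if_neg]
  intro h
  rcases S2_sign (D.L j j) j with h1 | h1 <;> rw [h1] at h <;> norm_num at h

theorem amp_sign (j k : Pt F) {w : K} (hw : w ≠ 0) :
    sg (E.φ (amp D E j k w * w)) * S2 (D.L j k) k = - S2 (D.L j k) j := by
  have h1 : amp D E j k w * w = if S2 (D.L j k) k = - S2 (D.L j k) j then 1 else E.c := by
    unfold amp
    rw [div_mul_cancel₀ _ hw]
  rw [h1]
  by_cases h : S2 (D.L j k) k = - S2 (D.L j k) j
  · rw [if_pos h, E.φ1, show sg 0 = 1 from rfl, one_mul, h]
  · rw [if_neg h, E.φc, show sg 1 = -1 from rfl]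
    rcases S2_sign (D.L j k) k with h2 | h2 <;> rcases S2_sign (D.L j k) j with h3 | h3 <;>
      rw [h2, h3] at h <;> rw [h2, h3]
    · norm_num
    · exact absurd (by norm_num) h
    · exact absurd (by norm_num) h
    · norm_num

end Pool.Agent.Lib.MP_db622c_co.P5
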