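import Pool.Agent.Lib.MP_db622c_co.P5.Defs

/-!
# P5-Base: elementary facts (as in `P2.Base`)
-/

namespace Pool.Agent.Lib.MP_db622c_co.P5

open Pool.Agent.Lib.MP_db622c_co Pool.Agent.Lib.MP_db622c_co.CB Pool.Agent.Lib.MP_db622c_co.P2
open Pool.Agent.Lib.MP_db622c_co.P2.PData (T ch)

variable {F : Type} [Field F] [Fintype F] [DecidableEq F]

namespace GData

variable (D : GData F)

theorem s_ne (u : ZMod 2) : D.s u ≠ 0 := by
  intro h
  have h1 := D.h2 u
  rw [h, add_zero, map_one] at h1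
  norm_num at h1

theorem one_sub_ne (u : ZMod 2) : 1 - D.s u ≠ 0 := chi_ne_zero (Or.inl (D.h1 u))

theorem one_add_ne (u : ZMod 2) : 1 + D.s u ≠ 0 := chi_ne_zero (Or.inr (D.h2 u))

theorem sp_ne : D.s 1 + D.s 0 ≠ 0 := by
  apply chi_ne_zero
  rw [D.hp]; exact D.hη

theorem sm_ne : D.s 1 - D.s 0 ≠ 0 := by
  apply chi_ne_zero
  rw [D.hm]; exact D.hη

theorem wr_cases (m : F) : D.wr m = m ∨ D.wr m = -m := by
  unfold wr
  by_cases h : D.W m <;> simp [h]

theorem wr_ne {m : F} (h : m ≠ 0) : D.wr m ≠ 0 := by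
  rcases D.wr_cases m with h1 | h1 <;> rw [h1]
  · exact h
  · exact neg_ne_zero.2 h

theorem wr_neg {m : F} (h : m ≠ 0) : D.wr (-m) = D.wr m := by
  unfold wr
  rw [D.hW m h]
  cases D.W m <;> simp

theorem W_wr {m : F} (h : m ≠ 0) : D.W (D.wr m) = true := by
  unfold wr
  by_cases h1 : D.W m = true
  · rw [if_pos h1]; exact h1
  · rw [if_neg h1, D.hW m h]
    simpa using h1

theorem wr_eq_self {m : F} (h : D.W m = true) : D.wr m = m := by
  unfold wr; rw [if_pos h]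

theorem wr_wr {m : F} (h : m ≠ 0) : D.wr (D.wr m) = D.wr m := D.wr_eq_self (D.W_wr h)

theorem chi_wr (m : F) : quadraticChar F (D.wr m) = quadraticChar F m := by
  rcases D.wr_cases m with h1 | h1 <;> rw [h1]
  exact chi_neg D.hF m

theorem T_wr (m : F) : T (D.wr m) = T m := by
  unfold T; rw [D.chi_wr]

/-- `wr` determines an element up to sign -/
theorem wr_eq {m m' : F} (h : D.wr m = D.wr m') : m' = m ∨ m' = -m := by
  rcases D.wr_cases m with h1 | h1 <;> rcases D.wr_cases m' with h2 | h2 <;> rw [h1, h2] at h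
  · exact Or.inl h.symm
  · right; rw [h, neg_neg]
  · right; exact h.symm
  · left; exact (neg_injective h).symm

/-- the coefficient of the difference of a cross edge -/
theorem coef_ne {z : F} (hz : z ≠ 0) : D.s 1 + ch z * D.s 0 ≠ 0 ∧ D.s 1 - ch z * D.s 0 ≠ 0 := by
  rcases ch_cases hz with ⟨-, h, -⟩ | ⟨-, h, -⟩ <;> rw [h]
  · rw [one_mul]; exact ⟨D.sp_ne, D.sm_ne⟩
  · rw [neg_one_mul, sub_neg_eq_add, ← sub_eq_add_neg]; exact ⟨D.sm_ne, D.sp_ne⟩

theorem chi_coef {z : F} (hz : z ≠ 0) : quadraticChar F (D.s 1 + ch z * D.s 0) = D.η ∧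
    quadraticChar F (D.s 1 - ch z * D.s 0) = D.η := by
  rcases ch_cases hz with ⟨-, h, -⟩ | ⟨-, h, -⟩ <;> rw [h]
  · rw [one_mul]; exact ⟨D.hp, D.hm⟩
  · rw [neg_one_mul, sub_neg_eq_add, ← sub_eq_add_neg]; exact ⟨D.hm, D.hp⟩

theorem dl_zero : D.dl 0 = 0 := by
  unfold dl; rw [zero_div]

theorem η_sq : D.η * D.η = 1 := by
  rcases D.hη with h | h <;> rw [h] <;> norm_num

theorem η_sq' : (D.η : F) * (D.η : F) = 1 := by
  rcases D.hη with h | h <;> rw [h] <;> norm_num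

/-- `dl` inverts `z ↦ (s 1 + ch z * s 0) * z` -/
theorem dl_mul {z : F} (hz : z ≠ 0) : D.dl ((D.s 1 + ch z * D.s 0) * z) = z := by
  have h1 : (D.η : F) * ch ((D.s 1 + ch z * D.s 0) * z) = ch z := by
    unfold ch
    rw [map_mul]
    have := (D.chi_coef hz).1
    unfold ch at this
    rw [this]
    push_cast
    rw [← mul_assoc, D.η_sq', one_mul]
  unfold dl
  rw [h1, mul_div_cancel_left₀ _ (D.coef_ne hz).1]

/-- the parameter of a difference -/
theorem exists_dl {d : F} (hd : d ≠ 0) : ∃ z, z ≠ 0 ∧ d = (D.s 1 + ch z * D.s 0) * z ∧ D.dl d = z := by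
  rcases quadraticChar_dichotomy hd with hdc | hdc <;> rcases D.hη with hη | hη
  · refine ⟨d / (D.s 1 + D.s 0), div_ne_zero hd D.sp_ne, ?_, ?_⟩
    · have h1 : ch (d / (D.s 1 + D.s 0)) = 1 := by
        unfold ch; rw [chi_div, hdc, D.hp, hη]; norm_num
      rw [h1, one_mul, mul_div_cancel₀ _ D.sp_ne]
    · unfold dl ch; rw [hdc, hη]; norm_num
  · refine ⟨d / (D.s 1 - D.s 0), div_ne_zero hd D.sm_ne, ?_, ?_⟩
    · have h1 : ch (d / (D.s 1 - D.s 0)) = -1 := by
        unfold ch; rw [chi_div, hdc, D.hm, hη]; norm_num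
      rw [h1, neg_one_mul, ← sub_eq_add_neg, mul_div_cancel₀ _ D.sm_ne]
    · unfold dl ch; rw [hdc, hη]
      push_cast
      rw [mul_one, neg_one_mul, ← sub_eq_add_neg]
  · refine ⟨d / (D.s 1 - D.s 0), div_ne_zero hd D.sm_ne, ?_, ?_⟩
    · have h1 : ch (d / (D.s 1 - D.s 0)) = -1 := by
        unfold ch; rw [chi_div, hdc, D.hm, hη]; norm_num
      rw [h1, neg_one_mul, ← sub_eq_add_neg, mul_div_cancel₀ _ D.sm_ne]
    · unfold dl ch; rw [hdc, hη]
      push_cast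
      rw [one_mul, neg_one_mul, ← sub_eq_add_neg]
  · refine ⟨d / (D.s 1 + D.s 0), div_ne_zero hd D.sp_ne, ?_, ?_⟩
    · have h1 : ch (d / (D.s 1 + D.s 0)) = 1 := by
        unfold ch; rw [chi_div, hdc, D.hp, hη]; norm_num
      rw [h1, one_mul, mul_div_cancel₀ _ D.sp_ne]
    · unfold dl ch; rw [hdc, hη]; norm_num

end GData

end Pool.Agent.Lib.MP_db622c_co.P5
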