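import Pool.Agent.Lib.MP_db622c_co.P2.Sh
import Pool.Agent.Lib.MP_db622c_co.CB.Tens

/-!
# MP_db622c_co, board P5: complete balanced Howell rotations on `2 ^ e * (q + 1)` partnerships,
`q ≡ 1 (mod 4)` any prime power, `e ≥ 3`: definitions

Points: `K × Pt F`, `K` a field of characteristic two, `Pt F = ZMod 2 × Option F`.  The boards of
the pairs `(x, j), (x, k)` use the sign compatible one-factorizations `gg 0`, `gg 1` (half set `W`
resp. its complement, according to `φ x`), those of the other pairs the symmetric Latin square `L`,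
except that the pairs consisting of a finite point `(x, (u, some i))` and an infinite point
`(y, (v, none))` are treated by two orthogonal Latin squares on `K × ZMod 2`.
-/

namespace Pool.Agent.Lib.MP_db622c_co.P5

open Pool.Agent.Lib.MP_db622c_co Pool.Agent.Lib.MP_db622c_co.CB Pool.Agent.Lib.MP_db622c_co.P2
open Pool.Agent.Lib.MP_db622c_co.P2.PData (T ch)

/-- The parameters of the one-factorization `g`. -/
structure GData (F : Type) [Field F] [Fintype F] [DecidableEq F] where
  s : ZMod 2 → F
  W : F → Bool
  η : ℤ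
  hF : Fintype.card F % 4 = 1
  h1 : ∀ u, quadraticChar F (1 - s u) = 1
  h2 : ∀ u, quadraticChar F (1 + s u) = -1
  hη : η = 1 ∨ η = -1
  hp : quadraticChar F (s 1 + s 0) = η
  hm : quadraticChar F (s 1 - s 0) = η
  hW : ∀ m, m ≠ 0 → W (-m) = !(W m)

namespace GData

variable {F : Type} [Field F] [Fintype F] [DecidableEq F] (D : GData F)

/-- the representative of `{m, -m}` in `W` -/
def wr (m : F) : F := if D.W m then m else -m

/-- the parameter of the difference `d` of a cross edge: `d = (s 1 + ch z * s 0) * z`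
for `z = D.dl d` -/
def dl (d : F) : F := d / (D.s 1 + (D.η : F) * ch d * D.s 0)

/-- board class of the edge between `(u, x)` and `(u, y)` -/
def gs (u : ZMod 2) (x y : F) : Pt F :=
  (T (D.wr ((y - x) / (2 * D.s u))), some ((x + y) / 2 - D.wr ((y - x) / (2 * D.s u))))

/-- board class of the edge between `(0, x)` and `(1, y)` -/
def gc (x y : F) : Pt F :=
  if y = x then (1, none)
  else (T (D.dl (y - x)),
    some (x + ch (D.dl (y - x)) * D.s 0 * D.dl (y - x) + D.wr (D.dl (y - x))))

/-- the classes of the boards -/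
def g : Pt F → Pt F → Pt F
  | (_, none), (_, none) => (1, none)
  | (u, none), (v, some x) => (u + v + 1, some x)
  | (u, some x), (v, none) => (u + v + 1, some x)
  | (u, some x), (v, some y) =>
      if u = v then D.gs u x y else if u = 0 then D.gc x y else D.gc y x

/-- the data with the complementary half set -/
def neg : GData F where
  s := D.s
  W := fun m => !(D.W m)
  η := D.η
  hF := D.hF
  h1 := D.h1
  h2 := D.h2
  hη := D.hη
  hp := D.hp
  hm := D.hm
  hW := fun m hm => by rw [D.hW m hm]

/-- the two one-factorizations -/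
def gg (ε : ZMod 2) : Pt F → Pt F → Pt F := if ε = 0 then D.g else D.neg.g

end GData

/-- Is `e` in the half set `V (1 + s) ∪ V (1 - s)` (`V` restricted to the squares)? -/
def inHf {F : Type} [Field F] [Fintype F] [DecidableEq F] (s : F) (V : F → Bool) (e : F) : Bool :=
  if quadraticChar F e = 1 then V (e / (1 - s)) else V (e / (1 + s))

/-- All the parameters over `F`. -/
structure TData (F : Type) [Field F] [Fintype F] [DecidableEq F] extends GData F where
  z1 : F
  ν : F
  γ : F
  V : F → Bool
  hz1 : z1 ≠ 0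
  h00 : ∀ z, quadraticChar F z = 1 →
    s 0 * z - (if W z then z else -z) ≠ 2 * ch z1 * s 0 * z1
  h10 : ∀ z, quadraticChar F z = -1 →
    -(s 0 * z) - (if W z then z else -z) ≠ (ch z1 * s 0 - s 1) * z1
  hV : ∀ m, m ≠ 0 → V (-m) = !(V m)
  hν : quadraticChar F ν = -1
  hγ0 : γ ≠ 0
  hγ1 : γ - 1 ≠ 0
  hγν : γ + ν ≠ 0
  hγν1 : γ - 1 + ν ≠ 0
  l0 : ∀ e, e ≠ 0 → inHf (s 0) V e = true → (γ - 1) * e ≠ γ ∧ (γ - 1) * e ≠ γ - 1 + ν
  l1 : ∀ e, e ≠ 0 → inHf (s 0) V e = false → (γ + ν) * e ≠ γ ∧ (γ + ν) * e ≠ γ - 1 + ν

namespace TData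

variable {F : Type} [Field F] [Fintype F] [DecidableEq F] (D : TData F)

/-- `V` on the squares, transported to the nonsquares by `ν` -/
def U (m : F) : Bool := if quadraticChar F m = 1 then D.V m else D.V (m / D.ν)

/-- the representative of `{m, -m}` in `U` -/
def ur (m : F) : F := if D.U m then m else -m

/-- membership in the half set `H` -/
def inH (e : F) : Bool := inHf (D.s 0) D.V e

/-- class in the second one-factorization of the edge between `(u, x)` and `(u, y)` -/
def gls (u : ZMod 2) (x y : F) : Pt F :=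
  (u + T ((y - x) / (2 * D.s 0)), some ((x + y) / 2 - D.ur ((y - x) / (2 * D.s 0))))

/-- class in the second one-factorization of the edge between `(0, x)` and `(1, y)` -/
def glc (x y : F) : Pt F :=
  if y = x then (1, none)
  else if D.inH ((y - x) / (1 - D.ν)) then (0, some (x + (y - x) / (1 - D.ν)))
  else (1, some (x - D.ν * ((y - x) / (1 - D.ν))))

/-- the second one-factorization -/
def gl : Pt F → Pt F → Pt F
  | (_, none), (_, none) => (1, none)
  | (u, none), (v, some x) => (u + v + 1, some x)
  | (u, some x), (v, none) => (u + v + 1, some x)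
  | (u, some x), (v, some y) =>
      if u = v then D.gls u x y else if u = 0 then D.glc x y else D.glc y x

/-- the difference of the blocks -/
def d1 : F := 1 - D.ν

/-- the symmetric Latin square -/
noncomputable def L : Pt F → Pt F → Pt F := Lsw D.gl (sh (-D.d1))

/-- a sign -/
def sgn (ε : ZMod 2) : F := if ε = 0 then 1 else -1

/-- the difference of the removed edges at level zero -/
def d0 (ε : ZMod 2) : F := sgn ε * ((D.s 1 + ch D.z1 * D.s 0) * D.z1)

/-- the labels of the infinite edges at level zero -/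
def a0 (ε u : ZMod 2) : F :=
  sgn ε * (if u = 0 then 2 * ch D.z1 * D.s 0 * D.z1 else (ch D.z1 * D.s 0 - D.s 1) * D.z1)

/-- the labels of the infinite edges at the other levels -/
def al (u : ZMod 2) : F := if u = 0 then D.γ else D.γ - 1 + D.ν

/-- displacement of the round of a cross edge of difference `d` at level zero -/
def f0 (d : F) : F := 2 * (ch (D.dl d) * D.s 0 * D.dl d)

/-- rounds of the finite pairs at level zero -/
def hh0 : Pt F → Pt F → ZMod 2 × F
  | (u, some x), (v, some y) =>
      if u = v then (0, (x + y) / 2)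
      else (1, if u = 0 then x + D.f0 (y - x) else y + D.f0 (x - y))
  | _, _ => (0, 0)

/-- rounds of the finite pairs at the other levels -/
def hh : Pt F → Pt F → ZMod 2 × F
  | (u, some x), (v, some y) =>
      if u = v then (0, (x + y) / 2)
      else (1, if u = 0 then x + D.γ * ((y - x) / (1 - D.ν)) else y + D.γ * ((x - y) / (1 - D.ν)))
  | _, _ => (0, 0)

end TData

/-- The data over the field `K` of characteristic two. -/
structure KData (K : Type) [Field K] where
  φ : K →+ ZMod 2
  c : K
  Λ : K × ZMod 2 → K × ZMod 2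
  rK : K × ZMod 2 → K × ZMod 2 → K × ZMod 2
  hc0 : c ≠ 0
  hc1 : c ≠ 1
  φ1 : φ 1 = 0
  φc : φ c = 1
  Λ_add : ∀ a b, Λ (a + b) = Λ a + Λ b
  Λ_inj : ∀ a, Λ a = 0 → a = 0
  Λ_inj' : ∀ a, a + Λ a = 0 → a = 0
  Λ_one : Λ (1, 1) = (0, 1)
  r0 : ∀ x y, x ≠ y → rK x y ≠ 0
  rs : ∀ x y, rK x y = rK y x
  ri : ∀ x y y', y ≠ x → y' ≠ x → rK x y = rK x y' → y = y'
  rm : ∀ b, b ≠ 0 → ∀ x x', rK x (x + b) = rK x' (x' + b) → x' = x ∨ x' = x + b

section

variable {F : Type} [Field F] [Fintype F] [DecidableEq F] (D : TData F)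
variable {K : Type} [Field K] [DecidableEq K]

/-- the bijection of `K × ZMod 2` used for the boards of the infinite pairs -/
def bK (z : K × ZMod 2) : K × ZMod 2 :=
  if z.1 = 0 then (if z.2 = 0 then (0, 1) else (1, 0))
  else if z = (1, 1) then (0, 0) else (z.1⁻¹, 1 + z.2)

/-- the first component of the board -/
noncomputable def amp (E : KData K) (j k : Pt F) (w : K) : K :=
  (if S2 (D.L j k) k = - S2 (D.L j k) j then 1 else E.c) / w

/-- the board of a pair `(x, (u, some i))`, `(y, (v, none))` -/
def spb (x : K) (u : ZMod 2) (y : K) (v : ZMod 2) (i : F) : K × Pt F :=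
  ((bK ((x, u) + (y, v))).1, ((bK ((x, u) + (y, v))).2, some i))

/-- the board of a pair which is not of this kind -/
noncomputable def nsb (E : KData K) (x : K) (j : Pt F) (y : K) (k : Pt F) : K × Pt F :=
  if x = y then (0, D.gg (E.φ x) j k) else (amp D E j k (x + y), D.L j k)

/-- the boards -/
noncomputable def G (E : KData K) : K × Pt F → K × Pt F → K × Pt F
  | (x, (u, some i)), (y, (v, none)) => spb x u y v i
  | (x, (u, none)), (y, (v, some i)) => spb y v x u i
  | (x, (u, none)), (y, (v, none)) => nsb D E x (u, none) y (v, none)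
  | (x, (u, some i)), (y, (v, some i')) => nsb D E x (u, some i) y (v, some i')

/-- the round of a pair `(x, (u, some i))`, `(y, (v, none))` -/
def spr (E : KData K) (x : K) (u : ZMod 2) (y : K) (v : ZMod 2) (i : F) :
    (K × ZMod 2) ⊕ (K × (ZMod 2 × F)) :=
  if ((x, u) + E.Λ ((x, u) + (y, v))).2 = 0 then
    Sum.inr (((x, u) + E.Λ ((x, u) + (y, v))).1, (0, i))
  else
    Sum.inr (((x, u) + E.Λ ((x, u) + (y, v))).1, (1, i +
      (if ((x, u) + E.Λ ((x, u) + (y, v))).1 = x then D.a0 (E.φ x) u else D.al u)))

/-- the shift of the rounds of the pairs on side `1` -/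
def shf (E : KData K) (u v : ZMod 2) : K := if u = 1 ∧ v = 1 then E.c else 0

/-- the two finite points are not in a block -/
def NBf (E : KData K) (x : K) (j : Pt F) (y : K) (k : Pt F) : Prop :=
  if x = y then k ≠ sh (D.d0 (E.φ x)) j else k ≠ j ∧ k ≠ sh D.d1 j

open Classical in
/-- the round of a pair of finite points -/
noncomputable def fir (E : KData K) (t : Pt F → Pt F → K) (x : K) (j : Pt F) (y : K) (k : Pt F) :
    (K × ZMod 2) ⊕ (K × (ZMod 2 × F)) :=
  if NBf D E x j y k then
    Sum.inr (x + t j k * (x + y) + shf E j.1 k.1, if x = y then D.hh0 j k else D.hh j k)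
  else Sum.inl (E.rK (x, j.1) (y, k.1))

/-- the rounds -/
noncomputable def R (E : KData K) (t : Pt F → Pt F → K) :
    K × Pt F → K × Pt F → (K × ZMod 2) ⊕ (K × (ZMod 2 × F))
  | (x, (u, some i)), (y, (v, none)) => spr D E x u y v i
  | (x, (u, none)), (y, (v, some i)) => spr D E y v x u i
  | (x, (u, none)), (y, (v, none)) => Sum.inl (E.rK (x, u) (y, v))
  | (x, (u, some i)), (y, (v, some i')) => fir D E t x (u, some i) y (v, some i')

end

end Pool.Agent.Lib.MP_db622c_co.P5
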