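import Pool.Agent.Lib.MP_db622c_co.P5.KL
import Pool.Agent.Lib.MP_db622c_co.CB.Fin

/-!
# P5-KEx: existence of the data over `K`

`exists_func e he` gives `K`, `φ`, `c`; `mate_prod e he hK : Mate (K × ZMod 2)` gives `rK`.
`Λ`: let `ψ : (K × ZMod 2) ≃+ E` with a field `E` of characteristic two (`E = GaloisField 2 (e + 1)`, as
in the proof of `mate_prod` in `CB/Fin.lean`: both are `ZMod 2` vector spaces of dimension `e + 1`).
`lam = ψ (0, 1) / ψ (1, 1)`; `ψ` is injective, so `lam ≠ 0`, `lam ≠ 1`.  `Λ z = ψ⁻¹ (lam * ψ z)`: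
additive, `Λ z = 0` only for `z = 0`, `z + Λ z = ψ⁻¹ ((1 + lam) * ψ z)` and `1 + lam ≠ 0` in
characteristic two, `Λ (1, 1) = (0, 1)`.
-/

namespace Pool.Agent.Lib.MP_db622c_co.P5

open Pool.Agent.Lib.MP_db622c_co Pool.Agent.Lib.MP_db622c_co.CB Pool.Agent.Lib.MP_db622c_co.P2
open Pool.Agent.Lib.MP_db622c_co.P2.PData (T ch)

variable {F : Type} [Field F] [Fintype F] [DecidableEq F]

/-- multiplication in a field transported to an additive group -/
theorem exists_lin {B E : Type} [AddCommGroup B] [Field E] (h2 : ∀ x : E, x + x = 0)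
    (ψ : B ≃+ E) (a b : B) (ha : a ≠ 0) (hb : b ≠ 0) (hab : a ≠ b) :
    ∃ Λ : B → B, (∀ x y, Λ (x + y) = Λ x + Λ y) ∧ (∀ x, Λ x = 0 → x = 0) ∧
      (∀ x, x + Λ x = 0 → x = 0) ∧ Λ a = b := by
  have ha' : ψ a ≠ 0 := fun h => ha (ψ.map_eq_zero_iff.mp h)
  have hb' : ψ b ≠ 0 := fun h => hb (ψ.map_eq_zero_iff.mp h)
  have hlam0 : ψ b / ψ a ≠ 0 := div_ne_zero hb' ha'
  have hlam1 : 1 + ψ b / ψ a ≠ 0 := by
    intro h
    have h3 : ψ b / ψ a = 1 := by
      have h4 := h2 1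
      have h5 : ψ b / ψ a = (1 + ψ b / ψ a) - (1 + 1) + 1 := by ring
      rw [h, h4] at h5
      rw [h5]; ring
    rw [div_eq_one_iff_eq ha'] at h3
    exact hab (ψ.injective h3.symm)
  refine ⟨fun z => ψ.symm (ψ b / ψ a * ψ z), ?_, ?_, ?_, ?_⟩
  · intro x y
    show ψ.symm (ψ b / ψ a * ψ (x + y)) = ψ.symm (ψ b / ψ a * ψ x) + ψ.symm (ψ b / ψ a * ψ y)
    rw [map_add, mul_add, map_add]
  · intro x hx
    have h1 : ψ b / ψ a * ψ x = 0 := ψ.symm.map_eq_zero_iff.mp hx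
    rcases mul_eq_zero.mp h1 with h | h
    · exact absurd h hlam0
    · exact ψ.map_eq_zero_iff.mp h
  · intro x hx
    have h1 : ψ (x + ψ.symm (ψ b / ψ a * ψ x)) = 0 := by
      have h2 : x + ψ.symm (ψ b / ψ a * ψ x) = 0 := hx
      rw [h2, map_zero]
    rw [map_add, AddEquiv.apply_symm_apply] at h1
    have h3 : (1 + ψ b / ψ a) * ψ x = 0 := by rw [← h1]; ring
    rcases mul_eq_zero.mp h3 with h | h
    · exact absurd h hlam1
    · exact ψ.map_eq_zero_iff.mp h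
  · show ψ.symm (ψ b / ψ a * ψ a) = b
    rw [div_mul_cancel₀ _ ha', AddEquiv.symm_apply_apply]

theorem exists_kdata (e : ℕ) (he : 2 ≤ e) :
    ∃ (K : Type) (_ : Field K) (_ : Fintype K) (_ : CharP K 2),
      Fintype.card K = 2 ^ e ∧ Nonempty (KData K) := by
  obtain ⟨K, iF, iT, iC, φ, c, hK, hc0, hc1, hφ1, hφc⟩ := exists_func e he
  obtain ⟨r, h0, hs, hi, hm⟩ := mate_prod e he hK
  let : Algebra (ZMod 2) K := ZMod.algebra K 2
  have h1 : Module.finrank (ZMod 2) K = e := by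
    have h1 := Module.card_eq_pow_finrank (K := ZMod 2) (V := K)
    rw [hK, ZMod.card] at h1
    exact (Nat.pow_right_injective (le_refl 2) h1).symm
  have h2 : Module.finrank (ZMod 2) (K × ZMod 2) = e + 1 := by
    rw [Module.finrank_prod, h1, Module.finrank_self]
  have h3 : Module.finrank (ZMod 2) (GaloisField 2 (e + 1)) = e + 1 :=
    GaloisField.finrank 2 (by omega)
  have ψ : (K × ZMod 2) ≃ₗ[ZMod 2] GaloisField 2 (e + 1) :=
    LinearEquiv.ofFinrankEq _ _ (h2.trans h3.symm)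
  obtain ⟨Λ, l1, l2, l3, l4⟩ := exists_lin (B := K × ZMod 2) (E := GaloisField 2 (e + 1))
    (fun x => CharTwo.add_self_eq_zero x) ψ.toAddEquiv ((1 : K), (1 : ZMod 2)) ((0 : K), (1 : ZMod 2))
    (by
      intro h
      exact one_ne_zero (congrArg Prod.fst h))
    (by
      intro h
      exact one_ne_zero (congrArg Prod.snd h))
    (by
      intro h
      exact one_ne_zero (congrArg Prod.fst h))
  exact ⟨K, iF, iT, iC, hK, ⟨⟨φ, c, Λ, r, hc0, hc1, hφ1, hφc, l1, l2, l3, l4, h0, hs, hi, hm⟩⟩⟩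

end Pool.Agent.Lib.MP_db622c_co.P5
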