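import Pool.Agent.Lib.MP_db622c_co.P5.Base

/-!
# P5-KL: the bijection `bK` and the linear map `Λ`

`bK` sends `(0, 0)` to `(0, 1)`, `(0, 1)` to `(1, 0)`, `(1, 1)` to `(0, 0)` and every other `(w, υ)`
(so `w ≠ 0`) to `(w⁻¹, 1 + υ)`.
* `bK_inj`: case analysis (the values `(w⁻¹, 1 + υ)` have nonzero first component and are not
  `(1, 0)` as `(w, υ) ≠ (1, 1)`).
* `bK_phi`: `φ 0 = 0`, `φ 1 = 0`; case analysis on the second components.
* `bK_zero`: the first component is `0` exactly at `(0, 0)` (value `(0, 1)`) and `(1, 1)` (value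
  `(0, 0)`).
* `Λ_fst`: `(Λ z).1 = 0` iff `Λ z = 0` or `Λ z = (0, 1) = Λ (1, 1)`, i.e. `z = 0` or `z = (1, 1)`
  (`Λ_add`, `Λ_inj`, characteristic two: `Λ (z + (1, 1)) = 0`).
* `Λ_inj₁`: `X + Λ (X + Y) = X + Λ (X + Y')` implies `Y = Y'`; `Λ_inj₂`: `X + Λ (X + Y) =
  X' + Λ (X' + Y)` implies `(X + X') + Λ (X + X') = 0`, so `X = X'`.
-/

namespace Pool.Agent.Lib.MP_db622c_co.P5

open Pool.Agent.Lib.MP_db622c_co Pool.Agent.Lib.MP_db622c_co.CB Pool.Agent.Lib.MP_db622c_co.P2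
open Pool.Agent.Lib.MP_db622c_co.P2.PData (T ch)

variable {F : Type} [Field F] [Fintype F] [DecidableEq F]

variable {K : Type} [Field K] [DecidableEq K] [CharP K 2]

theorem pair_self (z : K × ZMod 2) : z + z = 0 := by
  have h1 : z.1 + z.1 = 0 := CharTwo.add_self_eq_zero z.1
  have h2 : z.2 + z.2 = 0 := CharTwo.add_self_eq_zero z.2
  exact Prod.ext h1 h2

theorem pair_eq {z w : K × ZMod 2} (h : z + w = 0) : z = w := by
  have h1 : z + w + w = w := by rw [h, zero_add]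
  rw [add_assoc, pair_self, add_zero] at h1
  exact h1

omit [CharP K 2] in
theorem bK_cases (z : K × ZMod 2) :
    (z = (0, 0) ∧ bK z = (0, 1)) ∨ (z = (0, 1) ∧ bK z = (1, 0)) ∨ (z = (1, 1) ∧ bK z = (0, 0)) ∨
      (z.1 ≠ 0 ∧ z ≠ (1, 1) ∧ bK z = (z.1⁻¹, 1 + z.2)) := by
  obtain ⟨w, u⟩ := z
  have key : ∀ a : ZMod 2, a = 0 ∨ a = 1 := by decide
  unfold bK
  by_cases h1 : w = 0
  · subst h1
    rcases key u with rfl | rfl
    · left; simp
    · right; left; simp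
  · by_cases h2 : (w, u) = (1, 1)
    · right; right; left
      refine ⟨h2, ?_⟩
      rw [if_neg h1, if_pos h2]
    · right; right; right
      refine ⟨h1, h2, ?_⟩
      rw [if_neg h1, if_neg h2]

omit [CharP K 2] in
theorem bK_inj {z z' : K × ZMod 2} (h : bK z = bK z') : z = z' := by
  have k10 : (1 : ZMod 2) ≠ 0 := by decide
  have K10 : (1 : K) ≠ 0 := one_ne_zero
  have e2 : ∀ a : ZMod 2, 0 = 1 + a → a = 1 := by decide
  have cancel : ∀ a b : ZMod 2, 1 + a = 1 + b → a = b := by decide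
  have n1 : ((0 : K), (1 : ZMod 2)) ≠ (1, 0) := fun h => K10 (Prod.mk.inj h).1.symm
  have n2 : ((0 : K), (1 : ZMod 2)) ≠ (0, 0) := fun h => k10 (Prod.mk.inj h).2
  have n3 : ((1 : K), (0 : ZMod 2)) ≠ (0, 0) := fun h => K10 (Prod.mk.inj h).1
  have n4 : ∀ w : K × ZMod 2, w.1 ≠ 0 → ∀ a b : ZMod 2, (0, b) ≠ (w.1⁻¹, a) :=
    fun w hw a b h => inv_ne_zero hw (Prod.mk.inj h).1.symm
  have n5 : ∀ w : K × ZMod 2, w ≠ (1, 1) → (1, 0) ≠ (w.1⁻¹, 1 + w.2) := by
    intro w hw h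
    obtain ⟨h1, h2⟩ := Prod.mk.inj h
    exact hw (Prod.ext (inv_eq_one.1 h1.symm) (e2 _ h2))
  rcases bK_cases z with ⟨hz, hb⟩ | ⟨hz, hb⟩ | ⟨hz, hb⟩ | ⟨hz, hz1, hb⟩ <;>
  rcases bK_cases z' with ⟨hz', hb'⟩ | ⟨hz', hb'⟩ | ⟨hz', hb'⟩ | ⟨hz', hz1', hb'⟩ <;>
  rw [hb, hb'] at h
  · exact hz.trans hz'.symm
  · exact absurd h n1
  · exact absurd h n2
  · exact absurd h (n4 _ hz' _ _)
  · exact absurd h.symm n1
  · exact hz.trans hz'.symm
  · exact absurd h n3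
  · exact absurd h (n5 _ hz1')
  · exact absurd h.symm n2
  · exact absurd h.symm n3
  · exact hz.trans hz'.symm
  · exact absurd h (n4 _ hz' _ _)
  · exact absurd h.symm (n4 _ hz _ _)
  · exact absurd h.symm (n5 _ hz1)
  · exact absurd h.symm (n4 _ hz _ _)
  · obtain ⟨h1, h2⟩ := Prod.mk.inj h
    exact Prod.ext (inv_injective h1) (cancel _ _ h2)

omit [CharP K 2] in
theorem bK_phi (E : KData K) (z : K × ZMod 2) :
    E.φ ((bK z).1 * z.1) = (1 + (bK z).2) * (1 + z.2) := by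
  obtain ⟨w, u⟩ := z
  have key : ∀ a : ZMod 2, a = 0 ∨ a = 1 := by decide
  have k11 : (1 : ZMod 2) + 1 = 0 := by decide
  have φ1 := E.φ1
  unfold bK
  by_cases h1 : w = 0
  · subst h1
    rcases key u with rfl | rfl
    · simp [k11]
    · simp [k11]
  · by_cases h2 : (w, u) = (1, 1)
    · simp only [Prod.mk.injEq] at h2
      obtain ⟨rfl, rfl⟩ := h2
      simp [k11]
    · rw [if_neg h1, if_neg h2]
      simp only
      rw [inv_mul_cancel₀ h1, φ1]
      rcases key u with rfl | rfl <;> decide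

omit [CharP K 2] in
theorem bK_zero {z : K × ZMod 2} (h : (bK z).1 = 0) :
    (z = 0 ∧ (bK z).2 = 1) ∨ (z = (1, 1) ∧ (bK z).2 = 0) := by
  obtain ⟨w, u⟩ := z
  have key : ∀ a : ZMod 2, a = 0 ∨ a = 1 := by decide
  unfold bK at h ⊢
  by_cases h1 : w = 0
  · subst h1
    rcases key u with rfl | rfl
    · left; simp
    · simp at h
  · by_cases h2 : (w, u) = (1, 1)
    · right
      refine ⟨h2, ?_⟩
      rw [if_neg h1, if_pos h2]
    · rw [if_neg h1, if_neg h2] at h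
      exact absurd h (inv_ne_zero h1)

theorem Λ_zero (E : KData K) : E.Λ 0 = 0 := by
  have h := E.Λ_add 0 0
  rw [add_zero] at h
  have h2 := pair_self (E.Λ 0)
  rw [← h] at h2
  exact h2

theorem Λ_fst (E : KData K) {z : K × ZMod 2} (h : (E.Λ z).1 = 0) : z = 0 ∨ z = (1, 1) := by
  have key : ∀ a : ZMod 2, a = 0 ∨ a = 1 := by decide
  rcases key (E.Λ z).2 with h2 | h2
  · left
    exact E.Λ_inj z (Prod.ext h h2)
  · right
    have h3 : E.Λ z = (0, 1) := Prod.ext h h2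
    apply pair_eq
    apply E.Λ_inj
    rw [E.Λ_add, h3, E.Λ_one]
    exact pair_self _

theorem Λ_inj₁ (E : KData K) {X Y Y' : K × ZMod 2} (h : X + E.Λ (X + Y) = X + E.Λ (X + Y')) :
    Y = Y' := by
  have h1 : E.Λ (X + Y) = E.Λ (X + Y') := add_left_cancel h
  have h2 : E.Λ ((X + Y) + (X + Y')) = 0 := by
    rw [E.Λ_add, h1]; exact pair_self _
  have h3 := pair_eq (E.Λ_inj _ h2)
  exact add_left_cancel h3

theorem Λ_inj₂ (E : KData K) {X X' Y : K × ZMod 2} (h : X + E.Λ (X + Y) = X' + E.Λ (X' + Y)) :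
    X = X' := by
  have h1 : (X + X') + E.Λ (X + X') = 0 := by
    have e1 : X + X' = (X + Y) + (X' + Y) := by
      have : (X + Y) + (X' + Y) = (X + X') + (Y + Y) := by abel
      rw [this, pair_self, add_zero]
    have e2 : E.Λ (X + X') = E.Λ (X + Y) + E.Λ (X' + Y) := by
      rw [← E.Λ_add, ← e1]
    rw [e2]
    have e3 : X + X' + (E.Λ (X + Y) + E.Λ (X' + Y))
        = (X + E.Λ (X + Y)) + (X' + E.Λ (X' + Y)) := by abel
    rw [e3, h]
    exact pair_self _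
  exact pair_eq (E.Λ_inj' _ h1)

end Pool.Agent.Lib.MP_db622c_co.P5
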