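import Pool.Agent.Lib.MP_db622c_co.P5.Amp
import Pool.Agent.Lib.MP_db622c_co.P5.KL
import Pool.Agent.Lib.MP_db622c_co.P5.Split

/-!
# P5-SpG: the boards are sign compatible

Cases of `G P Q`:
* finite `P = (x, (u, some i))`, infinite `Q = (y, (v, none))`: the board is `(κ, (τ, some i))`,
  `(κ, τ) = bK (z)`, `z = (x + y, u + v)`; by `tens_split` we need
  `sg (φ (κ * (x + y))) * S2 (τ, some i) (v, none) = - S2 (τ, some i) (u, some i)`.
  `S2 (0, some i) (v, none) = sd v`, `S2 (0, some i) (u, some i) = sd u`,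
  `S2 (1, some i) (v, none) = 1`, `S2 (1, some i) (u, some i) = -1`, and
  `φ (κ * (x + y)) = (1 + τ) * (1 + u + v)` (`bK_phi`): for `τ = 1` it is `0`; for `τ = 0` it is
  `1 + u + v`, and `sg (1 + u + v) * sd v = - sd u` (four cases).
  (For the other order use that the two points have opposite signs, symmetric.)
* otherwise `nsb`: `x = y`: the row is `(0, gg ε j k)`, `j ≠ k`, `φ 0 = 0`, `isSplit_g` for `D.toGData`
  or its `neg`; `x ≠ y`: `amp_sign` with `w = x + y` and `tens_split`.
-/

namespace Pool.Agent.Lib.MP_db622c_co.P5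

open Pool.Agent.Lib.MP_db622c_co Pool.Agent.Lib.MP_db622c_co.CB Pool.Agent.Lib.MP_db622c_co.P2
open Pool.Agent.Lib.MP_db622c_co.P2.PData (T ch)

variable {F : Type} [Field F] [Fintype F] [DecidableEq F]

variable {K : Type} [Field K] [DecidableEq K] [CharP K 2] (D : TData F) (E : KData K)

private theorem sp_key (τ u v : ZMod 2) (i : F) :
    sg ((1 + τ) * (1 + (u + v))) * S2 (τ, some i) (v, (none : Option F)) =
      - S2 (τ, some i) (u, some i) := by
  have key : ∀ a : ZMod 2, a = 0 ∨ a = 1 := by decide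
  have e1 : S2 (τ, some i) (v, (none : Option F)) = if τ = 0 then sd v else 1 := rfl
  have e2 : S2 (τ, some i) (u, some i) = if τ = 0 then sd u else -1 := by
    show (if i = i then (if τ = 0 then sd u else -1)
      else (if τ = 0 then quadraticChar F (i - i) else sd u * quadraticChar F (i - i))) = _
    rw [if_pos rfl]
  have s0 : sg 0 = 1 := rfl
  have s1 : sg 1 = -1 := rfl
  have d0 : sd 0 = 1 := rfl
  have d1 : sd 1 = -1 := rfl
  have k0 : (1 : ZMod 2) + 1 = 0 := by decide
  have k1 : (1 : ZMod 2) ≠ 0 := by decide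
  rw [e1, e2]
  rcases key τ with rfl | rfl
  · rw [if_pos rfl, if_pos rfl]
    rcases key u with rfl | rfl <;> rcases key v with rfl | rfl
    · rw [show ((1 : ZMod 2) + 0) * (1 + (0 + 0)) = 1 by decide, s1, d0]; norm_num
    · rw [show ((1 : ZMod 2) + 0) * (1 + (0 + 1)) = 0 by decide, s0, d0, d1]; norm_num
    · rw [show ((1 : ZMod 2) + 0) * (1 + (1 + 0)) = 0 by decide, s0, d0, d1]; norm_num
    · rw [show ((1 : ZMod 2) + 0) * (1 + (1 + 1)) = 1 by decide, s1, d1]; norm_num
  · rw [if_neg k1, if_neg k1, k0, zero_mul, s0]; norm_num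

private theorem neg_swap {a b : ℤ} (h : a = -b) : b = -a := by rw [h, neg_neg]

theorem spb_split (x y : K) (u v : ZMod 2) (i : F) :
    tens E.φ (S2 (F := F)) (spb x u y v i) (y, (v, none)) =
      - tens E.φ (S2 (F := F)) (spb x u y v i) (x, (u, some i)) := by
  unfold spb
  apply tens_split
  have h := bK_phi E ((x, u) + (y, v))
  have h' : E.φ ((bK ((x, u) + (y, v))).1 * (x + y)) =
      (1 + (bK ((x, u) + (y, v))).2) * (1 + (u + v)) := h
  rw [h']
  exact sp_key _ u v i

theorem nsb_split (x y : K) (j k : Pt F) (h : (x, j) ≠ (y, k)) :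
    tens E.φ (S2 (F := F)) (nsb D E x j y k) (y, k) =
      - tens E.φ (S2 (F := F)) (nsb D E x j y k) (x, j) := by
  unfold nsb
  by_cases hxy : x = y
  · subst hxy
    rw [if_pos rfl]
    have hjk : j ≠ k := fun h' => h (by rw [h'])
    apply tens_split
    rw [zero_mul, map_zero, show sg 0 = 1 from rfl, one_mul]
    unfold GData.gg
    by_cases h0 : E.φ x = 0
    · rw [if_pos h0]; exact D.toGData.isSplit_g j k hjk
    · rw [if_neg h0]; exact D.toGData.neg.isSplit_g j k hjk
  · rw [if_neg hxy]
    apply tens_split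
    apply amp_sign
    intro h0
    exact hxy (eq_of_add_eq_zero h0)

theorem isSplit_G : IsSplit (tens E.φ (S2 (F := F))) (G D E) := by
  rintro ⟨x, u, j⟩ ⟨y, v, k⟩ hne
  rcases j with _ | i <;> rcases k with _ | i'
  · exact nsb_split D E x y (u, none) (v, none) hne
  · exact neg_swap (spb_split E y x v u i')
  · exact spb_split E x y u v i
  · exact nsb_split D E x y (u, some i) (v, some i') hne

end Pool.Agent.Lib.MP_db622c_co.P5
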