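import Pool.Agent.Lib.MP_db622c_co.P5.VEx
import Pool.Agent.Lib.MP_db622c_co.P2.Par

/-!
# P5-TEx: existence of the data over `F`

`exists_par` (P2) gives `s0`, `s1`; `η = χ (s1 + s0)` (`= χ (s1 - s0)`, `± 1` as `s1 + s0 ≠ 0`; then
`s1 - s0 ≠ 0` too); `z1 = 1`; `ν` with `χ ν = -1` (`quadraticChar_exists_neg_one`,
`char_ne`); `W` from `exists_W`, `γ`, `V` from `exists_V` with `s = s0`.
`s u = if u = 0 then s0 else s1`.
-/

namespace Pool.Agent.Lib.MP_db622c_co.P5

open Pool.Agent.Lib.MP_db622c_co Pool.Agent.Lib.MP_db622c_co.CB Pool.Agent.Lib.MP_db622c_co.P2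
open Pool.Agent.Lib.MP_db622c_co.P2.PData (T ch)

variable {F : Type} [Field F] [Fintype F] [DecidableEq F]

theorem exists_tdata (hF : Fintype.card F % 4 = 1) (h18 : 18 < Fintype.card F) :
    Nonempty (TData F) := by
  obtain ⟨s0, s1, a1, a2, b1, b2, hχ, hne⟩ := exists_par (F := F) hF h18
  have hne' : s1 - s0 ≠ 0 := by
    intro h
    rw [h, quadraticChar_zero] at hχ
    rcases quadraticChar_dichotomy hne with h1 | h1 <;> rw [h1] at hχ <;> norm_num at hχ
  obtain ⟨ν, hν⟩ := quadraticChar_exists_neg_one (F := F) (char_ne hF)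
  obtain ⟨W, hW, w0, w1⟩ := exists_W (F := F) hF s0 s1 1 a1 a2 hne hne' one_ne_zero
  obtain ⟨γ, V, g0, g1, g2, g3, hV, l0, l1⟩ := exists_V (F := F) hF (by omega) s0 ν a1 a2 hν
  have hs : ∀ u : ZMod 2, u = 0 ∨ u = 1 := by decide
  exact ⟨{
    s := fun u => if u = 0 then s0 else s1
    W := W
    η := quadraticChar F (s1 + s0)
    hF := hF
    h1 := by
      intro u
      rcases hs u with rfl | rfl
      · simpa using a1
      · simpa using b1
    h2 := by
      intro u
      rcases hs u with rfl | rfl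
      · simpa using a2
      · simpa using b2
    hη := quadraticChar_dichotomy hne
    hp := by simp
    hm := by simpa using hχ.symm
    hW := hW
    z1 := 1
    ν := ν
    γ := γ
    V := V
    hz1 := one_ne_zero
    h00 := by simpa using w0
    h10 := by simpa using w1
    hV := hV
    hν := hν
    hγ0 := g0
    hγ1 := g1
    hγν := g2
    hγν1 := g3
    l0 := by simpa using l0
    l1 := by simpa using l1 }⟩

end Pool.Agent.Lib.MP_db622c_co.P5
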