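import Pool.Agent.Lib.MP_db622c_co.P5.Or
import Pool.Agent.Lib.MP_db622c_co.P5.SpG
import Pool.Agent.Lib.MP_db622c_co.P5.TEx
import Pool.Agent.Lib.MP_db622c_co.P5.KEx
import Pool.Agent.Lib.MP_db622c_co.P2.Fin

/-!
# P5-Fin: complete balanced Howell rotations on `2 ^ e * (q + 1)` partnerships, `e ≥ 3`
-/

namespace Pool.Agent.Lib.MP_db622c_co.P5

open Pool.Agent.Lib.MP_db622c_co Pool.Agent.Lib.MP_db622c_co.CB Pool.Agent.Lib.MP_db622c_co.P2

theorem hasPD_tk {F : Type} [Field F] [Fintype F] [DecidableEq F] (D : TData F) {K : Type}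
    [Field K] [Fintype K] [CharP K 2] (E : KData K) :
    HasPD (Fintype.card K * (2 * (Fintype.card F + 1))) := by
  classical
  obtain ⟨t, ta, tn⟩ : ∃ t : Pt F → Pt F → K, (∀ j k, j ≠ k → t k j = 1 + t j k) ∧
      ∀ j k, t j k ≠ 0 := by
    let e := Fintype.equivFin (Pt F)
    refine ⟨fun j k => if e j < e k then E.c else 1 + E.c, ?_, ?_⟩
    · intro j a hja
      show (if e a < e j then E.c else 1 + E.c) = 1 + (if e j < e a then E.c else 1 + E.c)
      have h1 : e j ≠ e a := fun hh => hja (e.injective hh)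
      rcases lt_or_gt_of_ne h1 with h2 | h2
      · rw [if_pos h2, if_neg (not_lt.2 h2.le)]
      · rw [if_pos h2, if_neg (not_lt.2 h2.le), CB.add_add_self]
    · intro j a
      show (if e j < e a then E.c else 1 + E.c) ≠ 0
      by_cases h1 : e j < e a
      · rw [if_pos h1]; exact E.hc0
      · rw [if_neg h1]
        intro h
        exact E.hc1 (eq_of_add_eq_zero h).symm
  refine ⟨K × Pt F, K × Pt F, (K × ZMod 2) ⊕ (K × (ZMod 2 × F)), inferInstance, ⟨Sum.inl 0⟩,
    inferInstance, inferInstance, inferInstance, tens E.φ (S2 (F := F)), G D E, R D E t, ?_, ?_, ?_,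
    isH_tens E.φ E.c E.φc (isH_S2 D.hF), isOF_G D E, isOF_R D E ta tn, isSplit_G D E,
    isOrth_GR D E ta⟩
  · rw [Fintype.card_prod, card_Pt]
  · rw [Fintype.card_prod, card_Pt]
  · rw [Fintype.card_sum, Fintype.card_prod, Fintype.card_prod, Fintype.card_prod, ZMod.card]
    ring

/-- all prime powers `q ≡ 1 (mod 4)` -/
theorem hasCBHR_one (q e : ℕ) (hq : IsPrimePow q) (h4 : q % 4 = 1) (he : 3 ≤ e) :
    HasCBHR (2 ^ e * (q + 1)) := by
  classical
  by_cases h18 : 18 < q
  · obtain ⟨p, n, hp, hn, rfl⟩ := (isPrimePow_nat_iff _).1 hq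
    have : Fact p.Prime := ⟨hp⟩
    let F := GaloisField p n
    let : Fintype F := Fintype.ofFinite _
    have hF : Fintype.card F = p ^ n := by
      rw [← Nat.card_eq_fintype_card]
      exact GaloisField.card p n (by omega)
    obtain ⟨D⟩ := exists_tdata (F := F) (by rw [hF]; exact h4) (by rw [hF]; exact h18)
    obtain ⟨K, _, _, _, hK, ⟨E⟩⟩ := exists_kdata (e - 1) (by omega)
    have h1 := hasPD_tk D E
    rw [hF, hK, ← mul_assoc, ← pow_succ, Nat.sub_add_cancel (by omega)] at h1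
    refine hasCBHR_of_hasPD _ (by positivity) ?_ h1
    obtain ⟨f, rfl⟩ : ∃ f, e = f + 2 := ⟨e - 2, by omega⟩
    rw [pow_add, show (2 : ℕ) ^ 2 = 4 by norm_num, mul_assoc, mul_comm, mul_assoc]
    exact Nat.mul_mod_right 4 _
  · have hq0 : q ≠ 1 := hq.ne_one
    have h : q = 5 ∨ q = 9 ∨ q = 13 ∨ q = 17 := by omega
    obtain ⟨f, rfl⟩ : ∃ f, e = f + 1 := ⟨e - 1, by omega⟩
    rcases h with rfl | rfl | rfl | rfl
    · have h1 := hasCBHR_paley_all 11 f (Nat.Prime.isPrimePow (by norm_num)) (by norm_num) (by omega)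
      rwa [show 2 ^ (f + 1) * (5 + 1) = 2 ^ f * (11 + 1) by rw [pow_succ]; ring]
    · have h1 := hasCBHR_paley_all 19 f (Nat.Prime.isPrimePow (by norm_num)) (by norm_num) (by omega)
      rwa [show 2 ^ (f + 1) * (9 + 1) = 2 ^ f * (19 + 1) by rw [pow_succ]; ring]
    · exact hasCBHR_prime 13 (by norm_num) (by norm_num) (by norm_num) _ (Or.inr he)
    · exact hasCBHR_prime 17 (by norm_num) (by norm_num) (by norm_num) _ (Or.inr he)

/-- all odd prime powers -/
theorem hasCBHR_odd_primePow (q e : ℕ) (hq : IsPrimePow q) (h2 : q % 2 = 1) (he : 3 ≤ e) :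
    HasCBHR (2 ^ e * (q + 1)) := by
  have h : q % 4 = 1 ∨ q % 4 = 3 := by omega
  rcases h with h | h
  · exact hasCBHR_one q e hq h he
  · exact hasCBHR_paley_all q e hq h (by omega)

end Pool.Agent.Lib.MP_db622c_co.P5
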