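import Pool.Agent.Lib.MP_db622c_co.P5.Base

/-!
# P5-GL: the second one-factorization

`s = D.s 0`, `χ (1 - s) = 1`, `χ (1 + s) = -1`, `χ ν = -1`, `χ (-1) = 1`.  For `e ≠ 0`
`inH (-e) = !(inH e)` (`χ (-e) = χ e`, `hV`).

Partner `pl c j` of the point `j` in the class `c`: `(1, none)`: `(u, x) ↔ (u + 1, x)`.  Class
`(τ, some a)`, point `(u, some x)`: if `x = a` it is `(u + τ + 1, none)`; the partner of `(u, none)` is
`(u + τ + 1, some a)`.  If `x ≠ a` put `r = if τ = u then 1 else ν` and `e = (x - a) / r ≠ 0`;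
* `inH e = true`: the partner is `(u, some (a + r * w'))`, `w' = e / (1 - s) * (1 + s)` if `χ e = 1`,
  `w' = e / (1 + s) * (1 - s)` if `χ e = -1`;
* `inH e = false`: the partner is `(u + 1, some (a + (if τ = u then ν else 1) * e))`.

Key fact: `pl (gl j k) j = k` for `j ≠ k` (it gives `inj`: `k = pl (gl j k) j = pl (gl j k') j = k'`;
model: `P5/OFg.lean`).
* same side: `m = (y - x) / (2 * s)`, `μ = ur m = ± m`, `a = (x + y) / 2 - μ`, `τ = u + T m`; `r = 1` iff
  `T m = 0` iff `χ m = 1` (`T m = 1` iff `χ m = -1`).  `w = μ / r` has `χ w = 1`, `V w = true` (`U μ = true`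
  since `U (-m) = !(U m)`), and `x - a = μ - s * m` is `μ * (1 - s)` if `μ = m`, `μ * (1 + s)` if
  `μ = -m`; `y - a = μ + s * m` is `μ * (1 + s)` resp. `μ * (1 - s)`.  So `e = (x - a) / r = w * (1 ∓ s)`,
  `χ e = ± 1`, `inH e = V w = true`, and the partner is `a + r * w * (1 ± s) = y`.
* cross edge `(0, x)`, `(1, y)`, `y ≠ x`, `e = (y - x) / (1 - ν) ≠ 0` (`1 - ν ≠ 0`: `χ ν = -1`), so
  `y = x + (1 - ν) * e`.  If `inH e`: class `(0, a)`, `a = x + e`; for `(0, x)`: `r = 1`,
  `x - a = -e`, `inH (-e) = false`, the partner is `(1, a - ν * e) = (1, y)`; for `(1, y)`: `r = ν`,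
  `(y - a) / ν = -e`, the partner is `(0, a - e) = (0, x)`.  If `inH e = false`: class `(1, a)`,
  `a = x - ν * e`; for `(0, x)`: `r = ν`, `(x - a) / ν = e`, the partner is `(1, a + e) = (1, y)`; for
  `(1, y)`: `r = 1`, `y - a = e`, the partner is `(0, a + ν * e) = (0, x)`.
* `y = x`: class `(1, none)`.  The pairs with infinite points are clear.
-/

namespace Pool.Agent.Lib.MP_db622c_co.P5

open Pool.Agent.Lib.MP_db622c_co Pool.Agent.Lib.MP_db622c_co.CB Pool.Agent.Lib.MP_db622c_co.P2
open Pool.Agent.Lib.MP_db622c_co.P2.PData (T ch)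

variable {F : Type} [Field F] [Fintype F] [DecidableEq F]

namespace TData

variable (D : TData F)

theorem nu_ne : D.ν ≠ 0 ∧ 1 - D.ν ≠ 0 := by
  have h1 := D.hν
  constructor
  · intro h; rw [h, quadraticChar_zero] at h1; norm_num at h1
  · intro h
    rw [← sub_eq_zero.1 h, map_one] at h1
    norm_num at h1

theorem inH_neg {e : F} (he : e ≠ 0) : D.inH (-e) = !(D.inH e) := by
  have h1 := D.toGData.one_sub_ne 0
  have h2 := D.toGData.one_add_ne 0
  unfold inH inHf
  rw [chi_neg D.hF, neg_div, neg_div, D.hV _ (div_ne_zero he h1), D.hV _ (div_ne_zero he h2)]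
  split_ifs <;> rfl

private theorem gl_U_neg {m : F} (hm : m ≠ 0) : D.U (-m) = !(D.U m) := by
  unfold U
  rw [chi_neg D.hF, neg_div, D.hV m hm, D.hV _ (div_ne_zero hm D.nu_ne.1)]
  split_ifs <;> rfl

private theorem gl_ur_cases (m : F) : D.ur m = m ∨ D.ur m = -m := by
  unfold ur
  by_cases h : D.U m <;> simp [h]

private theorem gl_ur_neg {m : F} (h : m ≠ 0) : D.ur (-m) = D.ur m := by
  unfold ur
  rw [D.gl_U_neg h]
  cases D.U m <;> simp

private theorem gl_U_ur {m : F} (h : m ≠ 0) : D.U (D.ur m) = true := by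
  unfold ur
  by_cases h1 : D.U m = true
  · rw [if_pos h1]; exact h1
  · rw [if_neg h1, D.gl_U_neg h]
    simpa using h1

private theorem gl_z2 (u : ZMod 2) : u = 0 ∨ u = 1 := by revert u; decide

private theorem gls_symm (u : ZMod 2) (x y : F) : D.gls u x y = D.gls u y x := by
  by_cases hxy : x = y
  · rw [hxy]
  · have h2 := two_ne D.hF
    have hs := D.toGData.s_ne 0
    have hm : (y - x) / (2 * D.s 0) ≠ 0 :=
      div_ne_zero (sub_ne_zero.2 (Ne.symm hxy)) (mul_ne_zero h2 hs)
    have h1 : (x - y) / (2 * D.s 0) = -((y - x) / (2 * D.s 0)) := by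
      rw [← neg_div, neg_sub]
    have h3 : T (-((y - x) / (2 * D.s 0))) = T ((y - x) / (2 * D.s 0)) := by
      unfold T; rw [chi_neg D.hF]
    unfold gls
    rw [h1, D.gl_ur_neg hm, add_comm x y, h3]

theorem gl_symm (j k : Pt F) : D.gl j k = D.gl k j := by
  obtain ⟨u, x⟩ := j
  obtain ⟨v, y⟩ := k
  rcases x with _ | x <;> rcases y with _ | y
  · rfl
  · simp only [gl]
    rw [add_comm v u]
  · simp only [gl]
    rw [add_comm v u]
  · simp only [gl]
    by_cases huv : u = v
    · subst huv
      simp only [if_true]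
      exact D.gls_symm u x y
    · have hvu : v ≠ u := fun h => huv h.symm
      simp only [if_neg huv, if_neg hvu]
      rcases gl_z2 u with hu | hu <;> rcases gl_z2 v with hv | hv
      · exact absurd (hu.trans hv.symm) huv
      · have h0 : ¬ ((1 : ZMod 2) = 0) := by decide
        rw [hu, hv]
        simp only [if_true, if_neg h0]
      · have h0 : ¬ ((1 : ZMod 2) = 0) := by decide
        rw [hu, hv]
        simp only [if_true, if_neg h0]
      · exact absurd (hu.trans hv.symm) huv

/-- the partner of `(u, some x)` in the class `(τ, some a)` -/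
private def pls (τ : ZMod 2) (a : F) (u : ZMod 2) (x : F) : Pt F :=
  if x = a then (u + τ + 1, none)
  else
    if D.inH ((x - a) / (if τ = u then 1 else D.ν)) = true then
      (u, some (a + (if τ = u then 1 else D.ν) *
        (if quadraticChar F ((x - a) / (if τ = u then 1 else D.ν)) = 1 then
          (x - a) / (if τ = u then 1 else D.ν) / (1 - D.s 0) * (1 + D.s 0)
        else (x - a) / (if τ = u then 1 else D.ν) / (1 + D.s 0) * (1 - D.s 0))))
    else
      (u + 1, some (a + (if τ = u then D.ν else 1) * ((x - a) / (if τ = u then 1 else D.ν))))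

/-- the partner of the second point in the class -/
private def pl : Pt F → Pt F → Pt F
  | (_, none), (u, x) => (u + 1, x)
  | (τ, some a), (u, none) => (u + τ + 1, some a)
  | (τ, some a), (u, some x) => D.pls τ a u x

private theorem pl_some (τ : ZMod 2) (a : F) (u : ZMod 2) (x : F) :
    D.pl (τ, some a) (u, some x) = D.pls τ a u x := rfl

private theorem pl_in {τ u : ZMod 2} {a x e r : F} (hr : (if τ = u then 1 else D.ν) = r)
    (hr0 : r ≠ 0) (he : e ≠ 0) (hx : x - a = r * e) (hin : D.inH e = true) :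
    D.pl (τ, some a) (u, some x) = (u, some (a + r * (if quadraticChar F e = 1 then
      e / (1 - D.s 0) * (1 + D.s 0) else e / (1 + D.s 0) * (1 - D.s 0)))) := by
  have hxa : x ≠ a := by
    intro h
    rw [h, sub_self] at hx
    exact mul_ne_zero hr0 he hx.symm
  have hq : (x - a) / r = e := by
    rw [hx, mul_div_cancel_left₀ _ hr0]
  rw [pl_some]
  unfold pls
  rw [if_neg hxa, hr, hq, if_pos hin]

private theorem pl_out {τ u : ZMod 2} {a x e r r' : F} (hr : (if τ = u then 1 else D.ν) = r)
    (hr' : (if τ = u then D.ν else 1) = r')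
    (hr0 : r ≠ 0) (he : e ≠ 0) (hx : x - a = r * e) (hin : D.inH e = false) :
    D.pl (τ, some a) (u, some x) = (u + 1, some (a + r' * e)) := by
  have hxa : x ≠ a := by
    intro h
    rw [h, sub_self] at hx
    exact mul_ne_zero hr0 he hx.symm
  have hq : (x - a) / r = e := by
    rw [hx, mul_div_cancel_left₀ _ hr0]
  rw [pl_some]
  unfold pls
  rw [if_neg hxa, hr, hr', hq, if_neg (by rw [hin]; decide)]

private theorem pl_gls (u : ZMod 2) {x y : F} (hxy : x ≠ y) :
    D.pl (D.gls u x y) (u, some x) = (u, some y) := by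
  have h2 := two_ne D.hF
  have hs := D.toGData.s_ne 0
  have hos := D.toGData.one_sub_ne 0
  have hoa := D.toGData.one_add_ne 0
  have hc1 := D.h1 0
  have hc2 := D.h2 0
  have hν0 := D.nu_ne.1
  have hm0 : (y - x) / (2 * D.s 0) ≠ 0 :=
    div_ne_zero (sub_ne_zero.2 (Ne.symm hxy)) (mul_ne_zero h2 hs)
  obtain ⟨m0, hm0d⟩ : ∃ m0, m0 = (y - x) / (2 * D.s 0) := ⟨_, rfl⟩
  have hyx : y - x = 2 * D.s 0 * m0 := by
    rw [hm0d]; field_simp
  unfold gls
  rw [← hm0d]
  rw [← hm0d] at hm0
  have hy : y = x + 2 * D.s 0 * m0 := by rw [← hyx]; ring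
  have hhalf : (x + y) / 2 = x + D.s 0 * m0 := by
    rw [hy]; field_simp; ring
  -- the factor
  obtain ⟨r, hr, hr0, w, hw, hχw, hVw⟩ : ∃ r : F, (if u + T m0 = u then 1 else D.ν) = r ∧ r ≠ 0 ∧
      ∃ w : F, D.ur m0 = r * w ∧ quadraticChar F w = 1 ∧ D.V w = true := by
    have hχu : quadraticChar F (D.ur m0) = quadraticChar F m0 := by
      rcases D.gl_ur_cases m0 with h | h <;> rw [h]
      exact chi_neg D.hF m0
    have hU := D.gl_U_ur hm0
    rcases ch_cases hm0 with ⟨h1, -, h3⟩ | ⟨h1, -, h3⟩
    · refine ⟨1, ?_, one_ne_zero, D.ur m0, (one_mul _).symm, by rw [hχu, h1], ?_⟩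
      · rw [h3, add_zero, if_pos rfl]
      · unfold U at hU
        rw [hχu, h1, if_pos rfl] at hU
        exact hU
    · refine ⟨D.ν, ?_, hν0, D.ur m0 / D.ν, (mul_div_cancel₀ _ hν0).symm, ?_, ?_⟩
      · rw [h3, if_neg]
        rcases gl_z2 u with h | h <;> rw [h] <;> decide
      · rw [chi_div, hχu, h1, D.hν]; norm_num
      · unfold U at hU
        rw [hχu, h1, if_neg (by norm_num)] at hU
        exact hU
  have hw0 : w ≠ 0 := chi_ne_zero (Or.inl hχw)
  rcases D.gl_ur_cases m0 with h | h
  · have hrw : m0 = r * w := by rw [← h]; exact hw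
    have hx : x - ((x + y) / 2 - D.ur m0) = r * (w * (1 - D.s 0)) := by
      rw [hhalf, hw, hrw]; ring
    have hχe : quadraticChar F (w * (1 - D.s 0)) = 1 := by rw [map_mul, hχw, hc1]; norm_num
    have hin : D.inH (w * (1 - D.s 0)) = true := by
      unfold inH inHf
      rw [hχe, if_pos rfl, mul_div_cancel_right₀ _ hos]; exact hVw
    rw [D.pl_in hr hr0 (mul_ne_zero hw0 hos) hx hin, if_pos hχe, mul_div_cancel_right₀ _ hos]
    congr 2
    rw [hhalf, hw, hy, hrw]; ring
  · have hrw : m0 = -(r * w) := by rw [← hw, h, neg_neg]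
    have hx : x - ((x + y) / 2 - D.ur m0) = r * (w * (1 + D.s 0)) := by
      rw [hhalf, hw, hrw]; ring
    have hχe : quadraticChar F (w * (1 + D.s 0)) = -1 := by rw [map_mul, hχw, hc2]; norm_num
    have hne : ¬ (quadraticChar F (w * (1 + D.s 0)) = 1) := by rw [hχe]; norm_num
    have hin : D.inH (w * (1 + D.s 0)) = true := by
      unfold inH inHf
      rw [if_neg hne, mul_div_cancel_right₀ _ hoa]; exact hVw
    rw [D.pl_in hr hr0 (mul_ne_zero hw0 hoa) hx hin, if_neg hne, mul_div_cancel_right₀ _ hoa]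
    congr 2
    rw [hhalf, hw, hy, hrw]; ring

private theorem pl_glc {x y : F} :
    D.pl (D.glc x y) (0, some x) = (1, some y) ∧ D.pl (D.glc x y) (1, some y) = (0, some x) := by
  have hν0 := D.nu_ne.1
  have hν1 := D.nu_ne.2
  have e01 : (0 : ZMod 2) + 1 = 1 := by decide
  have e11 : (1 : ZMod 2) + 1 = 0 := by decide
  have n01 : ¬ ((0 : ZMod 2) = 1) := by decide
  have n10 : ¬ ((1 : ZMod 2) = 0) := by decide
  unfold glc
  by_cases hyx : y = x
  · rw [if_pos hyx, hyx]
    constructor
    · rfl
    · rfl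
  · rw [if_neg hyx]
    obtain ⟨e, he⟩ : ∃ e, e = (y - x) / (1 - D.ν) := ⟨_, rfl⟩
    have he0 : e ≠ 0 := by rw [he]; exact div_ne_zero (sub_ne_zero.2 hyx) hν1
    have hy : y = x + (1 - D.ν) * e := by rw [he]; field_simp; ring
    rw [← he]
    by_cases hin : D.inH e = true
    · rw [if_pos hin]
      have hin' : D.inH (-e) = false := by rw [D.inH_neg he0, hin]; rfl
      constructor
      · rw [D.pl_out (if_pos rfl) (if_pos rfl) one_ne_zero (neg_ne_zero.2 he0)
          (show x - (x + e) = 1 * (-e) by ring) hin', e01]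
        congr 2
        rw [hy]; ring
      · rw [D.pl_out (if_neg n01) (if_neg n01) hν0 (neg_ne_zero.2 he0)
          (show y - (x + e) = D.ν * (-e) by rw [hy]; ring) hin', e11]
        congr 2
        ring
    · rw [if_neg hin]
      have hin' : D.inH e = false := by simpa using hin
      constructor
      · rw [D.pl_out (if_neg n10) (if_neg n10) hν0 he0
          (show x - (x - D.ν * e) = D.ν * e by ring) hin', e01]
        congr 2
        rw [hy]; ring
      · rw [D.pl_out (if_pos rfl) (if_pos rfl) one_ne_zero he0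
          (show y - (x - D.ν * e) = 1 * e by rw [hy]; ring) hin', e11]
        congr 2
        ring

private theorem pl_gl (j k : Pt F) (hjk : j ≠ k) : D.pl (D.gl j k) j = k := by
  obtain ⟨u, x⟩ := j
  obtain ⟨v, y⟩ := k
  have hz2 : ∀ u v : ZMod 2, u + (u + v + 1) + 1 = v := by decide
  rcases x with _ | x <;> rcases y with _ | y
  · have huv : u ≠ v := fun h => hjk (by rw [h])
    have h1 : ∀ u v : ZMod 2, u ≠ v → u + 1 = v := by decide
    show ((u + 1, none) : Pt F) = (v, none)
    rw [h1 u v huv]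
  · show ((u + (u + v + 1) + 1, some y) : Pt F) = (v, some y)
    rw [hz2]
  · show D.pl (u + v + 1, some x) (u, some x) = (v, none)
    rw [pl_some]
    unfold pls
    rw [if_pos rfl, hz2]
  · by_cases huv : u = v
    · subst huv
      have hxy : x ≠ y := fun h => hjk (by rw [h])
      have h1 : D.gl (u, some x) (u, some y) = D.gls u x y := by
        simp only [gl, if_true]
      rw [h1]
      exact D.pl_gls u hxy
    · have h10 : ¬ ((1 : ZMod 2) = 0) := by decide
      have h01 : ¬ ((0 : ZMod 2) = 1) := by decide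
      rcases gl_z2 u with hu | hu <;> rcases gl_z2 v with hv | hv
      · exact absurd (hu.trans hv.symm) huv
      · subst hu; subst hv
        have h1 : D.gl (0, some x) (1, some y) = D.glc x y := by
          simp only [gl, if_neg h01, if_true]
        rw [h1]
        exact D.pl_glc.1
      · subst hu; subst hv
        have h1 : D.gl (1, some x) (0, some y) = D.glc y x := by
          simp only [gl, if_neg h10]
        rw [h1]
        exact D.pl_glc.2
      · exact absurd (hu.trans hv.symm) huv

private theorem gl_ne (j k : Pt F) (hjk : j ≠ k) : D.gl j k ≠ 0 := by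
  have h10 : (1 : ZMod 2) ≠ 0 := by decide
  have key : ∀ p : Pt F, (p.2 = none → p.1 = 1) → p ≠ 0 := by
    intro p hp h
    rw [h] at hp
    exact h10 (hp rfl).symm
  obtain ⟨u, x⟩ := j
  obtain ⟨v, y⟩ := k
  apply key
  rcases x with _ | x <;> rcases y with _ | y
  · intro _; rfl
  · intro h; exact absurd h (by simp [gl])
  · intro h; exact absurd h (by simp [gl])
  · simp only [gl]
    split_ifs with h1 h2
    · intro h; exact absurd h (by simp [gls])
    · unfold glc
      split_ifs with h3
      · intro _; rfl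
      · intro h; exact absurd h (by simp)
      · intro h; exact absurd h (by simp)
    · unfold glc
      split_ifs with h3
      · intro _; rfl
      · intro h; exact absurd h (by simp)
      · intro h; exact absurd h (by simp)

theorem isOF_gl : IsOF D.gl := by
  refine ⟨fun j k h => D.gl_ne j k h, D.gl_symm, ?_⟩
  intro j k k' hk hk' h
  have h1 := D.pl_gl j k (Ne.symm hk)
  have h2 := D.pl_gl j k' (Ne.symm hk')
  rw [← h1, ← h2, h]

end TData

end Pool.Agent.Lib.MP_db622c_co.P5
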