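import Pool.Agent.Lib.MP_db622c_co.P5.Amp
import Pool.Agent.Lib.MP_db622c_co.P5.KL

/-!
# P5-GOF: the boards form a one-factorization

The zero of `K × Pt F` is `(0, (0, none))`.
* `ne`: special pairs (finite, infinite): second component `(_, some i)`; `nsb`, `x = y`: `gg ε j k ≠ 0`
  (`isOF_gg`, `j ≠ k`); `x ≠ y`: `amp ≠ 0`.
* `symm`: `spb` is used with the finite point first; `nsb`: `gg` symmetric, `amp_symm`,
  `isLam_L.symm`, `x + y = y + x`.
* `inj`: `P` fixed, `Q, Q' ≠ P`, `G P Q = G P Q'`.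
  `nsb`, `nsb` (all three points finite or all infinite): the first component is `0` iff `x = y`
  (`amp_ne`), so both are of the same kind; `isOF_gg.inj` resp. `isLam_L.inj`, then `amp_inj`.
  `P = (x, (u, some i))` finite, `Q` finite, `Q'` infinite: `G P Q' = (κ, (τ, some i))`, and
  `G P Q = (_, gg ε (u, some i) k)` or `(_, L (u, some i) k)`, `k` finite; but
  `gg ε (u, some i) (v, none) = (τ, some i)` for `v = u + τ + 1` (`gg_sn`; `L_sn` for `L`), so by
  `isOF_gg.inj` (`k ≠ (u, some i)`) resp. `isLam_L.inj`, `k = (v, none)`, contradiction.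
  `P` finite, `Q`, `Q'` infinite: `bK_inj` and cancel: `(x, u) + (y, v) = (x, u) + (y', v')`.
  `P = (x, (u, none))` infinite, `Q`, `Q'` finite: the same `i`, `bK_inj`, cancel.
  `P`, `Q` infinite, `Q'` finite: second component `none` (`gg_nn`, `L_nn`) versus `some i`.
-/

namespace Pool.Agent.Lib.MP_db622c_co.P5

open Pool.Agent.Lib.MP_db622c_co Pool.Agent.Lib.MP_db622c_co.CB Pool.Agent.Lib.MP_db622c_co.P2
open Pool.Agent.Lib.MP_db622c_co.P2.PData (T ch)

variable {F : Type} [Field F] [Fintype F] [DecidableEq F]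

variable {K : Type} [Field K] [DecidableEq K] [CharP K 2] (D : TData F) (E : KData K)

private theorem xy_ne {x y : K} (h : x ≠ y) : x + y ≠ 0 := fun hc => h (eq_of_add_eq_zero hc)

private theorem nsb_eq (x : K) (j k : Pt F) : nsb D E x j x k = (0, D.gg (E.φ x) j k) := by
  unfold nsb; rw [if_pos rfl]

private theorem nsb_neq {x y : K} (h : x ≠ y) (j k : Pt F) :
    nsb D E x j y k = (amp D E j k (x + y), D.L j k) := by
  unfold nsb; rw [if_neg h]

theorem nsb_symm (x y : K) (j k : Pt F) : nsb D E x j y k = nsb D E y k x j := by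
  by_cases h : x = y
  · subst h
    rw [nsb_eq, nsb_eq, (D.isOF_gg _).symm]
  · rw [nsb_neq D E h, nsb_neq D E (Ne.symm h), amp_symm, add_comm x y, D.isLam_L.symm]

theorem nsb_inj (x y y' : K) (j k k' : Pt F) (h : (y, k) ≠ (x, j)) (h' : (y', k') ≠ (x, j))
    (he : nsb D E x j y k = nsb D E x j y' k') : y = y' ∧ k = k' := by
  by_cases h1 : x = y
  · subst h1
    by_cases h2 : x = y'
    · subst h2
      rw [nsb_eq, nsb_eq] at he
      refine ⟨rfl, (D.isOF_gg (E.φ x)).inj j k k' ?_ ?_ (Prod.mk.inj he).2⟩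
      · rintro rfl; exact h rfl
      · rintro rfl; exact h' rfl
    · rw [nsb_eq, nsb_neq D E h2] at he
      exact absurd (Prod.mk.inj he).1.symm (amp_ne D E j k' (xy_ne h2))
  · by_cases h2 : x = y'
    · subst h2
      rw [nsb_eq, nsb_neq D E h1] at he
      exact absurd (Prod.mk.inj he).1 (amp_ne D E j k (xy_ne h1))
    · rw [nsb_neq D E h1, nsb_neq D E h2] at he
      have h3 : k = k' := D.isLam_L.inj j k k' (Prod.mk.inj he).2
      subst h3
      have h4 := amp_inj D E j k (xy_ne h1) (xy_ne h2) (Prod.mk.inj he).1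
      exact ⟨add_left_cancel h4, rfl⟩

private theorem z2_aux (u τ : ZMod 2) : u + (u + τ + 1) + 1 = τ := by
  revert u τ; decide

theorem nsb_spec (x y : K) (u v τ : ZMod 2) (i i' : F)
    (h : (y, ((v, some i') : Pt F)) ≠ (x, (u, some i))) :
    (nsb D E x (u, some i) y (v, some i')).2 ≠ (τ, some i) := by
  intro hc
  by_cases h1 : x = y
  · subst h1
    rw [nsb_eq] at hc
    have h2 : D.gg (E.φ x) (u, some i) (u + τ + 1, none) = (τ, some i) := by
      rw [D.gg_sn, z2_aux]
    have h3 := (D.isOF_gg (E.φ x)).inj (u, some i) (v, some i') (u + τ + 1, none)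
      (by intro h4; exact h (by rw [h4])) (by simp) (hc.trans h2.symm)
    simp at h3
  · rw [nsb_neq D E h1] at hc
    have h2 : D.L (u, some i) (u + τ + 1, none) = (τ, some i) := by
      rw [D.L_sn, z2_aux]
    have h3 := D.isLam_L.inj (u, some i) (v, some i') (u + τ + 1, none) (hc.trans h2.symm)
    simp at h3

theorem nsb_none (x y : K) (u v : ZMod 2) : (nsb D E x (u, none) y (v, none)).2.2 = none := by
  by_cases h1 : x = y
  · subst h1
    rw [nsb_eq, D.gg_nn]
  · rw [nsb_neq D E h1]
    exact D.L_nn u v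

private theorem nsb_ne (x y : K) (j k : Pt F) (h : (x, j) ≠ (y, k)) :
    nsb D E x j y k ≠ ((0 : K), (0 : Pt F)) := by
  intro hc
  by_cases h1 : x = y
  · subst h1
    rw [nsb_eq] at hc
    refine (D.isOF_gg (E.φ x)).ne j k ?_ (Prod.mk.inj hc).2
    rintro rfl
    exact h rfl
  · rw [nsb_neq D E h1] at hc
    exact amp_ne D E j k (xy_ne h1) (Prod.mk.inj hc).1

private theorem spb_ne (x : K) (u : ZMod 2) (y : K) (v : ZMod 2) (i : F) :
    spb x u y v i ≠ ((0 : K), (0 : Pt F)) := by
  intro hc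
  have h1 := congrArg (fun z : K × Pt F => z.2.2) hc
  simp only [spb] at h1
  exact absurd h1 (by intro h2; exact Option.some_ne_none _ h2)

private theorem spb_inj {x y : K} {u v : ZMod 2} {i : F} {x' y' : K} {u' v' : ZMod 2} {i' : F}
    (h : spb x u y v i = spb x' u' y' v' i') :
    ((x, u) + (y, v) : K × ZMod 2) = (x', u') + (y', v') ∧ i = i' := by
  unfold spb at h
  obtain ⟨h1, h2⟩ := Prod.mk.inj h
  obtain ⟨h3, h4⟩ := Prod.mk.inj h2
  exact ⟨bK_inj (Prod.ext h1 h3), Option.some.inj h4⟩

theorem isOF_G : @IsOF (K × Pt F) (K × Pt F) inferInstance (G D E) := by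
  refine ⟨?_, ?_, ?_⟩
  · rintro ⟨x, u, s⟩ ⟨y, v, t⟩ h
    rcases s with _ | i <;> rcases t with _ | i'
    · exact nsb_ne D E x y (u, none) (v, none) h
    · exact spb_ne y v x u i'
    · exact spb_ne x u y v i
    · exact nsb_ne D E x y (u, some i) (v, some i') h
  · rintro ⟨x, u, s⟩ ⟨y, v, t⟩
    rcases s with _ | i <;> rcases t with _ | i'
    · exact nsb_symm D E x y (u, none) (v, none)
    · rfl
    · rfl
    · exact nsb_symm D E x y (u, some i) (v, some i')
  · rintro ⟨x, u, s⟩ ⟨y, v, t⟩ ⟨y', v', t'⟩ hy hy' h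
    rcases s with _ | i <;> rcases t with _ | a <;> rcases t' with _ | a'
    · obtain ⟨h1, h2⟩ := nsb_inj D E x y y' (u, none) (v, none) (v', none) hy hy' h
      rw [h1, h2]
    · have h1 : nsb D E x (u, none) y (v, none) = spb y' v' x u a' := h
      have h2 := nsb_none D E x y u v
      rw [h1] at h2
      exact absurd h2 (by intro h3; exact Option.some_ne_none _ h3)
    · have h1 : spb y v x u a = nsb D E x (u, none) y' (v', none) := h
      have h2 := nsb_none D E x y' u v'
      rw [← h1] at h2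
      exact absurd h2 (by intro h3; exact Option.some_ne_none _ h3)
    · have h1 : spb y v x u a = spb y' v' x u a' := h
      obtain ⟨h2, h3⟩ := spb_inj h1
      have h4 : ((y, v) : K × ZMod 2) = (y', v') := add_right_cancel h2
      obtain ⟨h5, h6⟩ := Prod.mk.inj h4
      rw [h3, h5, h6]
    · have h1 : spb x u y v i = spb x u y' v' i := h
      obtain ⟨h2, -⟩ := spb_inj h1
      have h4 : ((y, v) : K × ZMod 2) = (y', v') := add_left_cancel h2
      obtain ⟨h5, h6⟩ := Prod.mk.inj h4
      rw [h5, h6]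
    · have h1 : spb x u y v i = nsb D E x (u, some i) y' (v', some a') := h
      exact absurd (congrArg Prod.snd h1.symm) (nsb_spec D E x y' u v' _ i a' hy')
    · have h1 : nsb D E x (u, some i) y (v, some a) = spb x u y' v' i := h
      exact absurd (congrArg Prod.snd h1) (nsb_spec D E x y u v _ i a hy)
    · obtain ⟨h1, h2⟩ := nsb_inj D E x y y' (u, some i) (v, some a) (v', some a') hy hy' h
      rw [h1, h2]

end Pool.Agent.Lib.MP_db622c_co.P5
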