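import Pool.Agent.Lib.MP_db622c_co.P5.Base

/-!
# P5-Gam: the parameter `γ`

Consider the polynomials in `γ` (over `F`, write `κ = 1 + s`, `κ' = 1 - s`, so `κ + κ' = 2`,
`κ - κ' = 2 * s`; `κ, κ', s, ν, 1 - ν, 1 + ν, 2` are nonzero: `χ ν = -1`, `χ (-1) = 1`):
`γ`, `γ - 1`, `γ + ν`, `γ - 1 + ν`,
`2 * γ + (ν - 1)`, `2 * γ + (ν - 1) * κ`, `2 * γ + (ν - 1) * κ'`,
`(γ + ν) * κ - (γ - 1) * κ'`, `(γ + ν) * κ' - (γ - 1) * κ` (leading coefficients `± 2 * s`),
`γ * (γ + ν) * κ - (γ - 1 + ν) * (γ - 1) * κ'`, the same with `κ`, `κ'` exchanged,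
`(γ - 1 + ν) * (γ + ν) * κ - γ * (γ - 1) * κ'`, the same with `κ`, `κ'` exchanged (leading
coefficients `± 2 * s`).
Their product is a nonzero polynomial of degree at most `9 + 8 = 17 < card F`, so there is a `γ` at
which all are nonzero (`Polynomial.card_roots'`, or `exists_eval_ne_zero_of_natDegree_lt_card`).
For `a = κ` or `κ'`, `b = κ` or `κ'` the four claims follow: if `a ≠ b` they are among these; if
`a = b`: `γ * a + (γ - 1 + ν) * a = (2 * γ + (ν - 1)) * a`; `(γ + ν) * a - (γ - 1) * a = (1 + ν) * a`;
`γ * (γ + ν) * a - (γ - 1 + ν) * (γ - 1) * a = (2 * γ + (ν - 1)) * a`;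
`(γ - 1 + ν) * (γ + ν) * a - γ * (γ - 1) * a = ν * (2 * γ + (ν - 1)) * a`.
(The first claim for `a ≠ b`: `γ * κ + (γ - 1 + ν) * κ' = 2 * γ + (ν - 1) * κ'`.)
-/

namespace Pool.Agent.Lib.MP_db622c_co.P5

open Pool.Agent.Lib.MP_db622c_co Pool.Agent.Lib.MP_db622c_co.CB Pool.Agent.Lib.MP_db622c_co.P2
open Pool.Agent.Lib.MP_db622c_co.P2.PData (T ch)

variable {F : Type} [Field F] [Fintype F] [DecidableEq F]

omit [Fintype F] [DecidableEq F] in
private theorem lin_ne {a b : F} (h : a ≠ 0) :
    (Polynomial.C a * Polynomial.X + Polynomial.C b : Polynomial F) ≠ 0 := by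
  intro h0
  have := congrArg (fun q => Polynomial.coeff q 1) h0
  simp at this
  exact h this

omit [Fintype F] [DecidableEq F] in
private theorem quad_ne {a b c : F} (h : a ≠ 0) :
    (Polynomial.C a * Polynomial.X ^ 2 + Polynomial.C b * Polynomial.X + Polynomial.C c :
      Polynomial F) ≠ 0 := by
  intro h0
  have := congrArg (fun q => Polynomial.coeff q 2) h0
  simp at this
  exact h this

omit [Fintype F] [DecidableEq F] in
private theorem lin_deg (a b : F) :
    (Polynomial.C a * Polynomial.X + Polynomial.C b : Polynomial F).natDegree ≤ 1 :=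
  Polynomial.natDegree_linear_le

omit [Fintype F] [DecidableEq F] in
private theorem quad_deg (a b c : F) :
    (Polynomial.C a * Polynomial.X ^ 2 + Polynomial.C b * Polynomial.X + Polynomial.C c :
      Polynomial F).natDegree ≤ 2 :=
  Polynomial.natDegree_quadratic_le

/-- linear and quadratic functions with nonzero leading coefficients have a common non-root -/
private theorem common_nonroot (L : List (F × F)) (Q : List (F × F × F))
    (hL : ∀ p ∈ L, p.1 ≠ 0) (hQ : ∀ p ∈ Q, p.1 ≠ 0)
    (hc : L.length + 2 * Q.length < Fintype.card F) :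
    ∃ γ : F, (∀ p ∈ L, p.1 * γ + p.2 ≠ 0) ∧
      ∀ p ∈ Q, p.1 * γ ^ 2 + p.2.1 * γ + p.2.2 ≠ 0 := by
  classical
  set fL : F × F → Polynomial F := fun p => Polynomial.C p.1 * Polynomial.X + Polynomial.C p.2
    with hfL
  set fQ : F × F × F → Polynomial F := fun p => Polynomial.C p.1 * Polynomial.X ^ 2 +
    Polynomial.C p.2.1 * Polynomial.X + Polynomial.C p.2.2 with hfQ
  have h1 : (L.map fL).prod ≠ 0 := by
    rw [Ne, List.prod_eq_zero_iff, List.mem_map]
    rintro ⟨p, hp, h0⟩
    exact lin_ne (hL p hp) h0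
  have h2 : (Q.map fQ).prod ≠ 0 := by
    rw [Ne, List.prod_eq_zero_iff, List.mem_map]
    rintro ⟨p, hp, h0⟩
    exact quad_ne (hQ p hp) h0
  have d1 : ∀ L : List (F × F), ((L.map fL).prod).natDegree ≤ L.length := by
    intro L
    induction L with
    | nil => simp
    | cons p t ih =>
      rw [List.map_cons, List.prod_cons, List.length_cons]
      refine Polynomial.natDegree_mul_le.trans ?_
      have := lin_deg p.1 p.2
      have h3 : (fL p).natDegree ≤ 1 := this
      omega
  have d2 : ∀ Q : List (F × F × F), ((Q.map fQ).prod).natDegree ≤ 2 * Q.length := by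
    intro Q
    induction Q with
    | nil => simp
    | cons p t ih =>
      rw [List.map_cons, List.prod_cons, List.length_cons]
      refine Polynomial.natDegree_mul_le.trans ?_
      have h3 : (fQ p).natDegree ≤ 2 := quad_deg p.1 p.2.1 p.2.2
      omega
  have hdeg : ((L.map fL).prod * (Q.map fQ).prod).natDegree < Fintype.card F := by
    refine lt_of_le_of_lt Polynomial.natDegree_mul_le ?_
    have := d1 L
    have := d2 Q
    omega
  have hroot : ∃ γ : F, Polynomial.eval γ ((L.map fL).prod * (Q.map fQ).prod) ≠ 0 := by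
    by_contra hcon
    push Not at hcon
    have h4 : (Finset.univ : Finset F) ⊆
        ((L.map fL).prod * (Q.map fQ).prod).roots.toFinset := by
      intro x _
      rw [Multiset.mem_toFinset, Polynomial.mem_roots (mul_ne_zero h1 h2)]
      exact hcon x
    have h5 := Finset.card_le_card h4
    have h6 := Multiset.toFinset_card_le ((L.map fL).prod * (Q.map fQ).prod).roots
    have h7 := Polynomial.card_roots' ((L.map fL).prod * (Q.map fQ).prod)
    rw [Finset.card_univ] at h5
    omega
  obtain ⟨γ, hγ⟩ := hroot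
  rw [Polynomial.eval_mul] at hγ
  have g1 := left_ne_zero_of_mul hγ
  have g2 := right_ne_zero_of_mul hγ
  refine ⟨γ, ?_, ?_⟩
  · intro p hp h0
    apply g1
    rw [Polynomial.eval_list_prod, List.prod_eq_zero_iff, List.mem_map]
    refine ⟨fL p, List.mem_map_of_mem hp, ?_⟩
    simp only [hfL, Polynomial.eval_add, Polynomial.eval_mul, Polynomial.eval_C,
      Polynomial.eval_X]
    exact h0
  · intro p hp h0
    apply g2
    rw [Polynomial.eval_list_prod, List.prod_eq_zero_iff, List.mem_map]
    refine ⟨fQ p, List.mem_map_of_mem hp, ?_⟩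
    simp only [hfQ, Polynomial.eval_add, Polynomial.eval_mul, Polynomial.eval_C,
      Polynomial.eval_X, Polynomial.eval_pow]
    exact h0

theorem exists_gamma (hF : Fintype.card F % 4 = 1) (h17 : 17 < Fintype.card F) (s ν : F)
    (h1 : quadraticChar F (1 - s) = 1) (h2 : quadraticChar F (1 + s) = -1)
    (hν : quadraticChar F ν = -1) :
    ∃ γ : F, γ ≠ 0 ∧ γ - 1 ≠ 0 ∧ γ + ν ≠ 0 ∧ γ - 1 + ν ≠ 0 ∧
      ∀ a b : F, (a = 1 + s ∨ a = 1 - s) → (b = 1 + s ∨ b = 1 - s) →
        γ * a + (γ - 1 + ν) * b ≠ 0 ∧
        (γ + ν) * a - (γ - 1) * b ≠ 0 ∧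
        γ * (γ + ν) * a - (γ - 1 + ν) * (γ - 1) * b ≠ 0 ∧
        (γ - 1 + ν) * (γ + ν) * a - γ * (γ - 1) * b ≠ 0 := by
  have two : (2 : F) ≠ 0 := by
    apply Ring.two_ne_zero
    intro h
    rw [FiniteField.even_card_iff_char_two] at h
    omega
  have hs : s ≠ 0 := by
    rintro rfl
    rw [sub_zero] at h1
    rw [add_zero, h1] at h2
    exact absurd h2 (by decide)
  have hk : (1 + s : F) ≠ 0 := by
    intro h
    rw [h] at h2
    simp at h2
  have hk' : (1 - s : F) ≠ 0 := by
    intro h
    rw [h] at h1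
    simp at h1
  have hν0 : ν ≠ 0 := by
    rintro rfl
    simp at hν
  have hν1 : (1 + ν : F) ≠ 0 := by
    intro h
    have h3 : ν = -1 := by linear_combination h
    rw [h3, quadraticChar_neg_one_iff_not_isSquare] at hν
    rw [FiniteField.isSquare_neg_one_iff] at hν
    omega
  obtain ⟨γ, gL, gQ⟩ := common_nonroot
    [((1 : F), (0 : F)), (1, -1), (1, ν), (1, -1 + ν), (2, ν - 1), (2, (ν - 1) * (1 + s)),
      (2, (ν - 1) * (1 - s)), (2 * s, ν * (1 + s) + (1 - s)), (-(2 * s), ν * (1 - s) + (1 + s))]
    [((2 * s : F), ν * (1 + s) - (ν - 2) * (1 - s), -((1 - ν) * (1 - s))),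
      (-(2 * s), ν * (1 - s) - (ν - 2) * (1 + s), -((1 - ν) * (1 + s))),
      (2 * s, (2 * ν - 1) * (1 + s) + (1 - s), ν * (ν - 1) * (1 + s)),
      (-(2 * s), (2 * ν - 1) * (1 - s) + (1 + s), ν * (ν - 1) * (1 - s))]
    (by
      have h2s : 2 * s ≠ 0 := mul_ne_zero two hs
      intro p hp
      simp only [List.mem_cons, List.not_mem_nil, or_false] at hp
      rcases hp with rfl | rfl | rfl | rfl | rfl | rfl | rfl | rfl | rfl
      · exact one_ne_zero
      · exact one_ne_zero
      · exact one_ne_zero
      · exact one_ne_zero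
      · exact two
      · exact two
      · exact two
      · exact h2s
      · exact neg_ne_zero.2 h2s)
    (by
      have h2s : 2 * s ≠ 0 := mul_ne_zero two hs
      intro p hp
      simp only [List.mem_cons, List.not_mem_nil, or_false] at hp
      rcases hp with rfl | rfl | rfl | rfl
      · exact h2s
      · exact neg_ne_zero.2 h2s
      · exact h2s
      · exact neg_ne_zero.2 h2s)
    (by simpa using h17)
  simp only [List.mem_cons, List.not_mem_nil, or_false, forall_eq_or_imp, forall_eq] at gL gQ
  obtain ⟨l1, l2, l3, l4, l5, l6, l7, l8, l9⟩ := gL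
  obtain ⟨q1, q2, q3, q4⟩ := gQ
  refine ⟨γ, ?_, ?_, ?_, ?_, ?_⟩
  · intro h
    exact l1 (by linear_combination h)
  · intro h
    exact l2 (by linear_combination h)
  · intro h
    exact l3 (by linear_combination h)
  · intro h
    exact l4 (by linear_combination h)
  · rintro a b (rfl | rfl) (rfl | rfl)
    · refine ⟨?_, ?_, ?_, ?_⟩
      · intro h
        refine l5 (mul_left_cancel₀ hk ?_)
        linear_combination h
      · intro h
        refine mul_ne_zero hν1 hk ?_
        linear_combination h
      · intro h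
        refine l5 (mul_left_cancel₀ hk ?_)
        linear_combination h
      · intro h
        refine l5 (mul_left_cancel₀ (mul_ne_zero hν0 hk) ?_)
        linear_combination h
    · refine ⟨?_, ?_, ?_, ?_⟩
      · intro h
        exact l7 (by linear_combination h)
      · intro h
        exact l8 (by linear_combination h)
      · intro h
        exact q1 (by linear_combination h)
      · intro h
        exact q3 (by linear_combination h)
    · refine ⟨?_, ?_, ?_, ?_⟩
      · intro h
        exact l6 (by linear_combination h)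
      · intro h
        exact l9 (by linear_combination h)
      · intro h
        exact q2 (by linear_combination h)
      · intro h
        exact q4 (by linear_combination h)
    · refine ⟨?_, ?_, ?_, ?_⟩
      · intro h
        refine l5 (mul_left_cancel₀ hk' ?_)
        linear_combination h
      · intro h
        refine mul_ne_zero hν1 hk' ?_
        linear_combination h
      · intro h
        refine l5 (mul_left_cancel₀ hk' ?_)
        linear_combination h
      · intro h
        refine l5 (mul_left_cancel₀ (mul_ne_zero hν0 hk') ?_)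
        linear_combination h

end Pool.Agent.Lib.MP_db622c_co.P5
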