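import Pool.Agent.Lib.MP_db622c_co.P5.Base

/-!
# P5-HH: the rounds of the finite pairs

* `symm`: clear.
* `inj`: same side pairs: `(x + y) / 2` determines `y`; cross pairs have first component `1`.  `hh`: from
  `(0, x)`: `x + γ * e`, `e = (y - x) / (1 - ν)`, `γ ≠ 0`; from `(1, y)` with `(0, x)`:
  `x + γ * e = y + (γ - 1 + ν) * e` (as `y = x + (1 - ν) * e`), `γ - 1 + ν ≠ 0`.
  `hh0`: `d = y - x = (s 1 + ch z * s 0) * z`, `z = dl d` (`exists_dl`; `dl 0 = 0` if `d = 0`),
  `f0 d = 2 * ch z * s 0 * z`, `f0 d - d = (ch z * s 0 - s 1) * z`.  Both are injective in `z`: if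
  `ch z = ch z'` clear (`2 * s 0 ≠ 0`, `coef_ne`); if `ch z = - ch z'`, both nonzero: for `f0`,
  `z = - z'`, but `χ (-z') = χ z'`; for `f0 d - d`, `χ` of the left side is `η * χ z` (`chi_coef`,
  `chi_neg`), of the right side `η * χ z'`, different.
* `lab`: same side: `(x + y) / 2 ≠ x` as `y ≠ x`.  Cross: `hh`: `x + γ * e = x + γ` iff `e = 1` iff
  `y - x = d1`, i.e. `(1, some y) = sh d1 (0, some x)`; on side `1` likewise
  (`y + (γ - 1 + ν) * e = y + (γ - 1 + ν)` iff `e = 1`).  `hh0`: `f0 d = a0 ε 0` implies `d = d0 ε`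
  by the injectivity, since `a0 ε 0 = f0 (d0 ε)` and `a0 ε 1 = f0 (d0 ε) - d0 ε`
  (`dl (d0 0) = z1`, `dl (d0 1) = -z1` by `dl_mul`, `ch (-z1) = ch z1`).
-/

namespace Pool.Agent.Lib.MP_db622c_co.P5

open Pool.Agent.Lib.MP_db622c_co Pool.Agent.Lib.MP_db622c_co.CB Pool.Agent.Lib.MP_db622c_co.P2
open Pool.Agent.Lib.MP_db622c_co.P2.PData (T ch)

variable {F : Type} [Field F] [Fintype F] [DecidableEq F]

namespace TData

variable (D : TData F)

theorem hhz_add {u v : ZMod 2} : (if u = v then (0 : ZMod 2) else 1) = u + v := by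
  revert u v; decide

theorem hhz_ne {u v : ZMod 2} (h : u ≠ v) : (u = 0 ∧ v = 1) ∨ (u = 1 ∧ v = 0) := by
  revert u v; decide

include D in
theorem two_ne' : (2 : F) ≠ 0 := two_ne D.hF

theorem one_sub_nu : 1 - D.ν ≠ 0 := by
  intro h
  have h1 : D.ν = 1 := (sub_eq_zero.1 h).symm
  have h2 := D.hν
  rw [h1, map_one] at h2
  norm_num at h2

theorem hh_symm (j k : Pt F) : D.hh j k = D.hh k j := by
  obtain ⟨u, x⟩ := j
  obtain ⟨v, y⟩ := k
  cases x with
  | none => cases y <;> rfl
  | some x =>
    cases y with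
    | none => rfl
    | some y =>
      by_cases h : u = v
      · subst h
        simp only [hh, if_true, add_comm x y]
      · have h' : v ≠ u := fun e => h e.symm
        simp only [hh, if_neg h, if_neg h']
        rcases hhz_ne h with ⟨h1, h2⟩ | ⟨h1, h2⟩ <;> rw [h1, h2] <;> simp

theorem hh0_symm (j k : Pt F) : D.hh0 j k = D.hh0 k j := by
  obtain ⟨u, x⟩ := j
  obtain ⟨v, y⟩ := k
  cases x with
  | none => cases y <;> rfl
  | some x =>
    cases y with
    | none => rfl
    | some y =>
      by_cases h : u = v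
      · subst h
        simp only [hh0, if_true, add_comm x y]
      · have h' : v ≠ u := fun e => h e.symm
        simp only [hh0, if_neg h, if_neg h']
        rcases hhz_ne h with ⟨h1, h2⟩ | ⟨h1, h2⟩ <;> rw [h1, h2] <;> simp

/-- `hh0`, `hh` have first component `0` on the same side, `1` on different sides -/
theorem hh_fst (u v : ZMod 2) (x y : F) : (D.hh (u, some x) (v, some y)).1 = u + v := by
  rw [← hhz_add]
  by_cases h : u = v <;> simp [hh, h]

theorem hh0_fst (u v : ZMod 2) (x y : F) : (D.hh0 (u, some x) (v, some y)).1 = u + v := by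
  rw [← hhz_add]
  by_cases h : u = v <;> simp [hh0, h]

theorem hh_inj (u v v' : ZMod 2) (x y y' : F)
    (h : D.hh (u, some x) (v, some y) = D.hh (u, some x) (v', some y')) : v = v' ∧ y = y' := by
  have h1 := congrArg Prod.fst h
  rw [hh_fst, hh_fst] at h1
  have h2 : v = v' := add_left_cancel h1
  subst h2
  refine ⟨rfl, ?_⟩
  have h3 := D.one_sub_nu
  have h4 := D.two_ne'
  by_cases h5 : u = v
  · simp only [hh, if_pos h5, Prod.mk.injEq, true_and] at h
    rw [div_left_inj' h4] at h
    exact add_left_cancel h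
  · simp only [hh, if_neg h5, Prod.mk.injEq, true_and] at h
    rcases hhz_ne h5 with ⟨h6, h7⟩ | ⟨h6, h7⟩
    · rw [if_pos h6, if_pos h6] at h
      have h8 := mul_left_cancel₀ D.hγ0 (add_left_cancel h)
      rw [div_left_inj' h3] at h8
      exact sub_left_injective h8
    · have h9 : ¬ u = 0 := by rw [h6]; decide
      rw [if_neg h9, if_neg h9] at h
      have h10 : (y - y') * (D.γ - 1 + D.ν) = 0 := by
        field_simp at h
        linear_combination -h
      rcases mul_eq_zero.1 h10 with h11 | h11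
      · exact sub_eq_zero.1 h11
      · exact absurd h11 D.hγν1

/-- the value at the parameter -/
theorem f0_zero : D.f0 0 = 0 := by
  unfold f0
  rw [D.dl_zero, mul_zero, mul_zero]

theorem f0_eq {z : F} (hz : z ≠ 0) :
    D.f0 ((D.s 1 + ch z * D.s 0) * z) = 2 * (ch z * D.s 0 * z) := by
  unfold f0
  rw [D.dl_mul hz]

theorem f0_sub {z : F} (hz : z ≠ 0) :
    D.f0 ((D.s 1 + ch z * D.s 0) * z) - (D.s 1 + ch z * D.s 0) * z = (ch z * D.s 0 - D.s 1) * z := by
  rw [D.f0_eq hz]
  ring

theorem chz_ne {z : F} (hz : z ≠ 0) : ch z ≠ 0 := by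
  rcases ch_cases hz with ⟨-, h, -⟩ | ⟨-, h, -⟩ <;> rw [h]
  · exact one_ne_zero
  · exact neg_ne_zero.2 one_ne_zero

theorem f0_inj {d d' : F} (h : D.f0 d = D.f0 d') : d = d' := by
  have hs := D.s_ne 0
  have h2 := D.two_ne'
  have key : ∀ z : F, z ≠ 0 → 2 * (ch z * D.s 0 * z) ≠ 0 := by
    intro z hz
    exact mul_ne_zero h2 (mul_ne_zero (mul_ne_zero (chz_ne hz) hs) hz)
  by_cases hd : d = 0
  · by_cases hd' : d' = 0
    · rw [hd, hd']
    · obtain ⟨z, hz, hdz, -⟩ := D.exists_dl hd'
      rw [hd, f0_zero, hdz, D.f0_eq hz] at h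
      exact absurd h.symm (key z hz)
  · obtain ⟨z, hz, hdz, -⟩ := D.exists_dl hd
    by_cases hd' : d' = 0
    · rw [hd', f0_zero, hdz, D.f0_eq hz] at h
      exact absurd h (key z hz)
    · obtain ⟨z', hz', hdz', -⟩ := D.exists_dl hd'
      rw [hdz, hdz', D.f0_eq hz, D.f0_eq hz'] at h
      have h3 := mul_left_cancel₀ h2 h
      rcases ch_cases hz with ⟨c1, c2, -⟩ | ⟨c1, c2, -⟩ <;>
        rcases ch_cases hz' with ⟨e1, e2, -⟩ | ⟨e1, e2, -⟩
      · rw [c2, e2] at h3
        have h4 : z = z' := mul_left_cancel₀ hs (by linear_combination h3)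
        rw [hdz, hdz', h4]
      · rw [c2, e2] at h3
        have h4 : z = -z' := mul_left_cancel₀ hs (by linear_combination h3)
        rw [h4, chi_neg D.hF, e1] at c1
        norm_num at c1
      · rw [c2, e2] at h3
        have h4 : z = -z' := mul_left_cancel₀ hs (by linear_combination -h3)
        rw [h4, chi_neg D.hF, e1] at c1
        norm_num at c1
      · rw [c2, e2] at h3
        have h4 : z = z' := mul_left_cancel₀ hs (by linear_combination -h3)
        rw [hdz, hdz', h4]

theorem g0_inj {d d' : F} (h : D.f0 d - d = D.f0 d' - d') : d = d' := by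
  have hc : ∀ z : F, z ≠ 0 → ch z * D.s 0 - D.s 1 ≠ 0 := by
    intro z hz h1
    exact (D.coef_ne hz).2 (by linear_combination -h1)
  have hχ : ∀ z : F, z ≠ 0 → quadraticChar F (ch z * D.s 0 - D.s 1) = D.η := by
    intro z hz
    have h1 : ch z * D.s 0 - D.s 1 = -(D.s 1 - ch z * D.s 0) := by ring
    rw [h1, chi_neg D.hF]
    exact (D.chi_coef hz).2
  by_cases hd : d = 0
  · by_cases hd' : d' = 0
    · rw [hd, hd']
    · obtain ⟨z, hz, hdz, -⟩ := D.exists_dl hd'
      rw [hd, f0_zero, hdz, D.f0_sub hz, sub_zero] at h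
      exact absurd h.symm (mul_ne_zero (hc z hz) hz)
  · obtain ⟨z, hz, hdz, -⟩ := D.exists_dl hd
    by_cases hd' : d' = 0
    · rw [hd', f0_zero, hdz, D.f0_sub hz, sub_zero] at h
      exact absurd h (mul_ne_zero (hc z hz) hz)
    · obtain ⟨z', hz', hdz', -⟩ := D.exists_dl hd'
      rw [hdz, hdz', D.f0_sub hz, D.f0_sub hz'] at h
      have h3 := congrArg (quadraticChar F) h
      rw [map_mul, map_mul, hχ z hz, hχ z' hz'] at h3
      have h4 : quadraticChar F z = quadraticChar F z' := by
        rcases D.hη with h5 | h5 <;> rw [h5] at h3 <;> linarith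
      have h5 : ch z = ch z' := by
        unfold ch
        rw [h4]
      rw [h5] at h
      have h6 := mul_left_cancel₀ (hc z' hz') h
      rw [hdz, hdz', h6]

theorem hh0_inj (u v v' : ZMod 2) (x y y' : F)
    (h : D.hh0 (u, some x) (v, some y) = D.hh0 (u, some x) (v', some y')) : v = v' ∧ y = y' := by
  have h1 := congrArg Prod.fst h
  rw [hh0_fst, hh0_fst] at h1
  have h2 : v = v' := add_left_cancel h1
  subst h2
  refine ⟨rfl, ?_⟩
  have h4 := D.two_ne'
  by_cases h5 : u = v
  · simp only [hh0, if_pos h5, Prod.mk.injEq, true_and] at h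
    rw [div_left_inj' h4] at h
    exact add_left_cancel h
  · simp only [hh0, if_neg h5, Prod.mk.injEq, true_and] at h
    rcases hhz_ne h5 with ⟨h6, h7⟩ | ⟨h6, h7⟩
    · rw [if_pos h6, if_pos h6] at h
      exact sub_left_injective (D.f0_inj (add_left_cancel h))
    · have h9 : ¬ u = 0 := by rw [h6]; decide
      rw [if_neg h9, if_neg h9] at h
      have h10 : x - y = x - y' := D.g0_inj (by linear_combination h)
      exact sub_right_injective h10

theorem hh_lab (u v : ZMod 2) (x y : F) (h1 : ((v, some y) : Pt F) ≠ (u, some x))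
    (h2 : ((v, some y) : Pt F) ≠ sh D.d1 (u, some x)) :
    D.hh (u, some x) (v, some y) ≠ (0, x) ∧ D.hh (u, some x) (v, some y) ≠ (1, x + D.al u) := by
  have h3 := D.one_sub_nu
  have h4 := D.two_ne'
  by_cases h5 : u = v
  · subst h5
    simp only [hh, if_true]
    constructor
    · intro h
      have h6 := congrArg Prod.snd h
      dsimp only at h6
      rw [div_eq_iff h4] at h6
      have h7 : y = x := by linear_combination h6
      exact h1 (by rw [h7])
    · intro h
      have h6 : (0 : ZMod 2) = 1 := congrArg Prod.fst h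
      exact absurd h6 (by decide)
  · simp only [hh, if_neg h5]
    refine ⟨fun h => ?_, fun h => ?_⟩
    · have h6 : (1 : ZMod 2) = 0 := congrArg Prod.fst h
      exact absurd h6 (by decide)
    have h6 := congrArg Prod.snd h
    dsimp only at h6
    rcases hhz_ne h5 with ⟨h7, h8⟩ | ⟨h7, h8⟩
    · subst h7 h8
      rw [if_pos rfl] at h6
      unfold al at h6
      rw [if_pos rfl] at h6
      have h9 : D.γ * ((y - x) / (1 - D.ν)) = D.γ * 1 := by
        rw [mul_one]
        exact add_left_cancel h6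
      have h10 := mul_left_cancel₀ D.hγ0 h9
      rw [div_eq_one_iff_eq h3] at h10
      have h11 : y = x + D.d1 := by
        unfold d1
        linear_combination h10
      apply h2
      rw [h11]
      simp [sh]
    · subst h7 h8
      have h9 : ¬ (1 : ZMod 2) = 0 := by decide
      rw [if_neg h9] at h6
      unfold al at h6
      rw [if_neg h9] at h6
      have h10 : (D.γ - 1 + D.ν) * ((x - y) / (1 - D.ν) - 1) = 0 := by
        field_simp
        field_simp at h6
        linear_combination h6
      rcases mul_eq_zero.1 h10 with h11 | h11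
      · exact D.hγν1 h11
      · have h12 := sub_eq_zero.1 h11
        rw [div_eq_one_iff_eq h3] at h12
        have h13 : y = x - D.d1 := by
          unfold d1
          linear_combination -h12
        apply h2
        rw [h13]
        have h14 : (1 : ZMod 2) + 1 = 0 := by decide
        simp only [sh, h14, if_neg h9]

theorem sgn_cases (ε : ZMod 2) : (sgn ε : F) = 1 ∨ (sgn ε : F) = -1 := by
  unfold sgn
  by_cases h : ε = 0 <;> simp [h]

include D in
theorem ch_neg' (z : F) : ch (-z) = ch z := by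
  unfold ch
  rw [chi_neg D.hF]

theorem f0_d0 (ε : ZMod 2) : D.f0 (D.d0 ε) = D.a0 ε 0 := by
  unfold d0 a0
  rw [if_pos rfl]
  rcases sgn_cases (F := F) ε with h | h <;> rw [h]
  · rw [one_mul, one_mul, D.f0_eq D.hz1]
    ring
  · have h1 : -1 * ((D.s 1 + ch D.z1 * D.s 0) * D.z1) =
        (D.s 1 + ch (-D.z1) * D.s 0) * (-D.z1) := by
      rw [D.ch_neg']
      ring
    rw [h1, D.f0_eq (neg_ne_zero.2 D.hz1), D.ch_neg']
    ring

theorem f0_d0' (ε : ZMod 2) : D.f0 (D.d0 ε) - D.d0 ε = D.a0 ε 1 := by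
  rw [f0_d0]
  unfold d0 a0
  rw [if_pos rfl, if_neg (show ¬ (1 : ZMod 2) = 0 by decide)]
  ring

theorem hh0_lab (ε u v : ZMod 2) (x y : F) (h1 : ((v, some y) : Pt F) ≠ (u, some x))
    (h2 : ((v, some y) : Pt F) ≠ sh (D.d0 ε) (u, some x)) :
    D.hh0 (u, some x) (v, some y) ≠ (0, x) ∧ D.hh0 (u, some x) (v, some y) ≠ (1, x + D.a0 ε u) := by
  have h4 := D.two_ne'
  by_cases h5 : u = v
  · subst h5
    simp only [hh0, if_true]
    constructor
    · intro h
      have h6 := congrArg Prod.snd h
      dsimp only at h6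
      rw [div_eq_iff h4] at h6
      have h7 : y = x := by linear_combination h6
      exact h1 (by rw [h7])
    · intro h
      have h6 : (0 : ZMod 2) = 1 := congrArg Prod.fst h
      exact absurd h6 (by decide)
  · simp only [hh0, if_neg h5]
    refine ⟨fun h => ?_, fun h => ?_⟩
    · have h6 : (1 : ZMod 2) = 0 := congrArg Prod.fst h
      exact absurd h6 (by decide)
    have h6 := congrArg Prod.snd h
    dsimp only at h6
    rcases hhz_ne h5 with ⟨h7, h8⟩ | ⟨h7, h8⟩
    · subst h7 h8
      rw [if_pos rfl] at h6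
      have h7 := add_left_cancel h6
      rw [← D.f0_d0 ε] at h7
      have h8 := D.f0_inj h7
      apply h2
      have h9 : y = x + D.d0 ε := by linear_combination h8
      rw [h9]
      simp [sh]
    · subst h7 h8
      have h9 : ¬ (1 : ZMod 2) = 0 := by decide
      rw [if_neg h9, ← D.f0_d0' ε] at h6
      have h10 : x - y = D.d0 ε := D.g0_inj (by linear_combination h6)
      apply h2
      have h13 : y = x - D.d0 ε := by linear_combination -h10
      rw [h13]
      have h14 : (1 : ZMod 2) + 1 = 0 := by decide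
      simp only [sh, h14, if_neg h9]

end TData

end Pool.Agent.Lib.MP_db622c_co.P5
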