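import Pool.Agent.Lib.MP_db622c_co.P5.Base

/-!
# P5-Half: half sets with prescribed values, and the half set `W`

`exists_half`: let `ι : F → ℕ` be injective (`Fintype.equivFin`).  `V m = false` if `m ∈ R`, `true` if
`-m ∈ R`, otherwise `decide (ι m < ι (-m))` (`m ≠ -m` for `m ≠ 0`, the characteristic is not two).
`exists_W`: `A = 2 * ch z1 * s 0 * z1 ≠ 0`, `B = (ch z1 * s 0 - s 1) * z1 ≠ 0`.
`r = -A / (1 - s 0)` if `χ A = 1`, `r = -A / (1 + s 0)` if `χ A = -1`; so `χ r = 1`.
`r' = -B / (1 + s 0)` if `χ B = 1`, `r' = -B / (1 - s 0)` if `χ B = -1`; so `χ r' = -1`.  Take `W` from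
`exists_half` for `R = {r, r'}` (`r' ≠ ± r` by `χ`).
First claim, `χ z = 1`: if `W z = true` and `s 0 * z - z = A`, then `z = -A / (1 - s 0)`, `χ A = 1`
(as `χ z = 1`), so `z = r`, `W z = false`, contradiction; if `W z = false` and `s 0 * z + z = A`,
then `-z = -A / (1 + s 0)`, `χ A = -1`, `-z = r`, `W (-z) = false`, but `W (-z) = !(W z)`,
contradiction.
Second claim, `χ z = -1`: if `W z = true` and `-(s 0 * z) - z = B`, then `z = -B / (1 + s 0)`,
`χ B = 1`, `z = r'`, contradiction; if `W z = false` and `-(s 0 * z) + z = B`, then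
`-z = -B / (1 - s 0)`, `χ B = -1`, `-z = r'`, contradiction.
-/

namespace Pool.Agent.Lib.MP_db622c_co.P5

open Pool.Agent.Lib.MP_db622c_co Pool.Agent.Lib.MP_db622c_co.CB Pool.Agent.Lib.MP_db622c_co.P2
open Pool.Agent.Lib.MP_db622c_co.P2.PData (T ch)

variable {F : Type} [Field F] [Fintype F] [DecidableEq F]

theorem exists_half (hF : Fintype.card F % 4 = 1) (R : Finset F) (h0 : ∀ r ∈ R, r ≠ 0)
    (hR : ∀ r ∈ R, ∀ r' ∈ R, r' ≠ -r) :
    ∃ V : F → Bool, (∀ m, m ≠ 0 → V (-m) = !(V m)) ∧ ∀ r ∈ R, V r = false := by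
  classical
  have _ := h0
  have h2 : (2 : F) ≠ 0 := two_ne hF
  refine ⟨fun m => if m ∈ R then false else if -m ∈ R then true
    else decide (Fintype.equivFin F m < Fintype.equivFin F (-m)), ?_, ?_⟩
  · intro m hm
    have hne : m ≠ -m := by
      intro h
      have h3 : (2 : F) * m = 0 := by linear_combination h
      rcases mul_eq_zero.1 h3 with h4 | h4
      · exact h2 h4
      · exact hm h4
    have hne' : Fintype.equivFin F m ≠ Fintype.equivFin F (-m) := fun h =>
      hne ((Fintype.equivFin F).injective h)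
    by_cases h1 : m ∈ R
    · have h3 : -m ∉ R := fun h => hR m h1 (-m) h rfl
      simp [h1, h3]
    · by_cases h3 : -m ∈ R
      · simp [h1, h3]
      · simp only [h1, h3, if_false, neg_neg]
        rcases lt_or_gt_of_ne hne' with h4 | h4
        · have h5 : ¬ (Fintype.equivFin F (-m) < Fintype.equivFin F m) := not_lt.2 h4.le
          rw [decide_eq_false h5, decide_eq_true h4]; rfl
        · have h5 : ¬ (Fintype.equivFin F m < Fintype.equivFin F (-m)) := not_lt.2 (le_of_lt h4)
          rw [decide_eq_false h5, decide_eq_true h4]; rfl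
  · intro r hr
    simp [hr]

theorem exists_W (hF : Fintype.card F % 4 = 1) (s0 s1 z1 : F)
    (h0 : quadraticChar F (1 - s0) = 1) (h0' : quadraticChar F (1 + s0) = -1)
    (hp : s1 + s0 ≠ 0) (hm : s1 - s0 ≠ 0) (hz : z1 ≠ 0) :
    ∃ W : F → Bool, (∀ m, m ≠ 0 → W (-m) = !(W m)) ∧
      (∀ z, quadraticChar F z = 1 → s0 * z - (if W z then z else -z) ≠ 2 * ch z1 * s0 * z1) ∧
      (∀ z, quadraticChar F z = -1 →
        -(s0 * z) - (if W z then z else -z) ≠ (ch z1 * s0 - s1) * z1) := by
  classical
  have h2 : (2 : F) ≠ 0 := two_ne hF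
  have hs0 : s0 ≠ 0 := by
    intro h
    rw [h, add_zero, map_one] at h0'
    norm_num at h0'
  have ha : 1 - s0 ≠ 0 := chi_ne_zero (Or.inl h0)
  have ha' : 1 + s0 ≠ 0 := chi_ne_zero (Or.inr h0')
  have hA : 2 * ch z1 * s0 * z1 ≠ 0 := by
    have hc : ch z1 ≠ 0 := by
      rcases ch_cases hz with ⟨-, h, -⟩ | ⟨-, h, -⟩ <;> rw [h]
      · exact one_ne_zero
      · exact neg_ne_zero.2 one_ne_zero
    exact mul_ne_zero (mul_ne_zero (mul_ne_zero h2 hc) hs0) hz
  have hB : (ch z1 * s0 - s1) * z1 ≠ 0 := by
    refine mul_ne_zero ?_ hz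
    rcases ch_cases hz with ⟨-, h, -⟩ | ⟨-, h, -⟩ <;> rw [h]
    · intro h3; exact hm (by linear_combination -h3)
    · intro h3; exact hp (by linear_combination -h3)
  generalize 2 * ch z1 * s0 * z1 = A at hA ⊢
  generalize (ch z1 * s0 - s1) * z1 = B at hB ⊢
  -- the point `r`
  obtain ⟨r, hr, hr1, hr2⟩ : ∃ r : F, quadraticChar F r = 1 ∧
      (quadraticChar F A = 1 → r * (1 - s0) = -A) ∧
      (quadraticChar F A = -1 → r * (1 + s0) = -A) := by
    rcases quadraticChar_dichotomy hA with h | h
    · refine ⟨-A / (1 - s0), ?_, fun _ => div_mul_cancel₀ _ ha, fun h' => ?_⟩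
      · rw [chi_div, chi_neg hF, h, h0]; norm_num
      · rw [h] at h'; norm_num at h'
    · refine ⟨-A / (1 + s0), ?_, fun h' => ?_, fun _ => div_mul_cancel₀ _ ha'⟩
      · rw [chi_div, chi_neg hF, h, h0']; norm_num
      · rw [h] at h'; norm_num at h'
  obtain ⟨r', hr', hr1', hr2'⟩ : ∃ r : F, quadraticChar F r = -1 ∧
      (quadraticChar F B = 1 → r * (1 + s0) = -B) ∧
      (quadraticChar F B = -1 → r * (1 - s0) = -B) := by
    rcases quadraticChar_dichotomy hB with h | h
    · refine ⟨-B / (1 + s0), ?_, fun _ => div_mul_cancel₀ _ ha', fun h' => ?_⟩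
      · rw [chi_div, chi_neg hF, h, h0']; norm_num
      · rw [h] at h'; norm_num at h'
    · refine ⟨-B / (1 - s0), ?_, fun h' => ?_, fun _ => div_mul_cancel₀ _ ha⟩
      · rw [chi_div, chi_neg hF, h, h0]; norm_num
      · rw [h] at h'; norm_num at h'
  have hrn : r ≠ 0 := chi_ne_zero (Or.inl hr)
  have hrn' : r' ≠ 0 := chi_ne_zero (Or.inr hr')
  have key : ∀ x : F, x ≠ 0 → x ≠ -x := by
    intro x hx h
    have h3 : (2 : F) * x = 0 := by linear_combination h
    rcases mul_eq_zero.1 h3 with h4 | h4
    · exact h2 h4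
    · exact hx h4
  have hrr : r' ≠ -r := by
    intro h
    rw [h, chi_neg hF, hr] at hr'
    norm_num at hr'
  have hrr' : r ≠ -r' := by
    intro h
    rw [h, chi_neg hF, hr'] at hr
    norm_num at hr
  obtain ⟨W, hW, hWR⟩ := exists_half hF ({r, r'} : Finset F)
    (by
      intro x hx
      rw [Finset.mem_insert, Finset.mem_singleton] at hx
      rcases hx with rfl | rfl
      · exact hrn
      · exact hrn')
    (by
      intro x hx y hy
      rw [Finset.mem_insert, Finset.mem_singleton] at hx hy
      rcases hx with rfl | rfl <;> rcases hy with rfl | rfl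
      · exact key _ hrn
      · exact hrr
      · exact hrr'
      · exact key _ hrn')
  have hWr : W r = false := hWR r (by simp)
  have hWr' : W r' = false := hWR r' (by simp)
  refine ⟨W, hW, ?_, ?_⟩
  · intro z hz1 h
    have hzn : z ≠ 0 := chi_ne_zero (Or.inl hz1)
    cases hw : W z with
    | true =>
      rw [hw, if_pos rfl] at h
      have h3 : quadraticChar F A = 1 := by
        rw [← h, show s0 * z - z = -(z * (1 - s0)) by ring, chi_neg hF, map_mul, hz1, h0]
        norm_num
      have h4 : (z - r) * (1 - s0) = 0 := by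
        linear_combination -h - hr1 h3
      have h5 : z = r := by
        rcases mul_eq_zero.1 h4 with h6 | h6
        · exact sub_eq_zero.1 h6
        · exact absurd h6 ha
      rw [h5, hWr] at hw
      exact Bool.false_ne_true hw
    | false =>
      rw [hw, if_neg Bool.false_ne_true] at h
      have h3 : quadraticChar F A = -1 := by
        rw [← h, show s0 * z - -z = z * (1 + s0) by ring, map_mul, hz1, h0']
        norm_num
      have h4 : (-z - r) * (1 + s0) = 0 := by
        linear_combination -h - hr2 h3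
      have h5 : -z = r := by
        rcases mul_eq_zero.1 h4 with h6 | h6
        · exact sub_eq_zero.1 h6
        · exact absurd h6 ha'
      have h7 := hW z hzn
      rw [h5, hWr, hw] at h7
      exact Bool.false_ne_true h7
  · intro z hz1 h
    have hzn : z ≠ 0 := chi_ne_zero (Or.inr hz1)
    cases hw : W z with
    | true =>
      rw [hw, if_pos rfl] at h
      have h3 : quadraticChar F B = 1 := by
        rw [← h, show -(s0 * z) - z = -(z * (1 + s0)) by ring, chi_neg hF, map_mul, hz1, h0']
        norm_num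
      have h4 : (z - r') * (1 + s0) = 0 := by
        linear_combination -h - hr1' h3
      have h5 : z = r' := by
        rcases mul_eq_zero.1 h4 with h6 | h6
        · exact sub_eq_zero.1 h6
        · exact absurd h6 ha'
      rw [h5, hWr'] at hw
      exact Bool.false_ne_true hw
    | false =>
      rw [hw, if_neg Bool.false_ne_true] at h
      have h3 : quadraticChar F B = -1 := by
        rw [← h, show -(s0 * z) - -z = z * (1 - s0) by ring, map_mul, hz1, h0]
        norm_num
      have h4 : (-z - r') * (1 - s0) = 0 := by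
        linear_combination -h - hr2' h3
      have h5 : -z = r' := by
        rcases mul_eq_zero.1 h4 with h6 | h6
        · exact sub_eq_zero.1 h6
        · exact absurd h6 ha
      have h7 := hW z hzn
      rw [h5, hWr', hw] at h7
      exact Bool.false_ne_true h7

end Pool.Agent.Lib.MP_db622c_co.P5
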