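import Pool.Agent.Lib.MP_db622c_co.P5.OFg

/-!
# P5-Sh: the perfect matchings `sh` and the one-factorizations `gg` (as in `P2.Sh`)
-/

namespace Pool.Agent.Lib.MP_db622c_co.P5

open Pool.Agent.Lib.MP_db622c_co Pool.Agent.Lib.MP_db622c_co.CB Pool.Agent.Lib.MP_db622c_co.P2
open Pool.Agent.Lib.MP_db622c_co.P2.PData (T ch)

variable {F : Type} [Field F] [Fintype F] [DecidableEq F]

namespace GData

variable (D : GData F)

/-- the difference of the matching with parameter `z` -/
def shdf (z : F) : F := (D.s 1 + ch z * D.s 0) * z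

theorem shdf_ne {z : F} (hz : z ≠ 0) : D.shdf z ≠ 0 := mul_ne_zero (D.coef_ne hz).1 hz

theorem gc_sh {z : F} (hz : z ≠ 0) (x : F) :
    D.gc x (x + D.shdf z) = (T z, some (x + ch z * D.s 0 * z + D.wr z)) := by
  have h1 : x + D.shdf z ≠ x := by
    intro h
    exact D.shdf_ne hz (by simpa using h)
  unfold gc
  rw [if_neg h1, add_sub_cancel_left]
  have h2 : D.dl (D.shdf z) = z := D.dl_mul hz
  rw [h2]

theorem g_sh_none (d : F) (u : ZMod 2) : D.g (u, none) (sh d (u, none)) = (1, none) := rfl

theorem g_sh_some {z : F} (hz : z ≠ 0) (u : ZMod 2) (x : F) :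
    D.g (u, some x) (sh (D.shdf z) (u, some x)) =
      (T z, some (shbp (D.shdf z) u x + ch z * D.s 0 * z + D.wr z)) := by
  rcases shz_cases u with h | h
  · subst h
    have e1 : sh (D.shdf z) ((0 : ZMod 2), some x) = ((0 : ZMod 2) + 1, some (x + D.shdf z)) := by
      simp only [sh, if_true]
    have e2 : shbp (D.shdf z) 0 x = x := by simp only [shbp, if_true]
    have h1 : ¬ ((0 : ZMod 2) = 0 + 1) := by decide
    rw [e1, e2, ← D.gc_sh hz x]
    simp only [g, if_neg h1, if_true]
  · subst h
    have h2 : ¬ ((1 : ZMod 2) = 0) := by decide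
    have e1 : sh (D.shdf z) ((1 : ZMod 2), some x) = ((1 : ZMod 2) + 1, some (x - D.shdf z)) := by
      simp only [sh, if_neg h2]
    have e2 : shbp (D.shdf z) 1 x = x - D.shdf z := by simp only [shbp, if_neg h2]
    have h1 : ¬ ((1 : ZMod 2) = 1 + 1) := by decide
    rw [e1, e2, ← D.gc_sh hz (x - D.shdf z), sub_add_cancel]
    simp only [g, if_neg h1, if_neg h2]

theorem isRB_df {z : F} (hz : z ≠ 0) : IsRB D.g (sh (D.shdf z)) := by
  refine ⟨sh_inv _, sh_ne _, ?_⟩
  rintro ⟨u, x⟩ ⟨v, y⟩ h
  cases x with
  | none =>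
    cases y with
    | none =>
      by_cases hv : v = u
      · left; rw [hv]
      · right
        rw [shz_other hv]
        rfl
    | some y =>
      exfalso
      rw [D.g_sh_none, D.g_sh_some hz] at h
      have := congrArg Prod.snd h
      simp at this
  | some x =>
    cases y with
    | none =>
      exfalso
      rw [D.g_sh_none, D.g_sh_some hz] at h
      have := congrArg Prod.snd h
      simp at this
    | some y =>
      rw [D.g_sh_some hz, D.g_sh_some hz] at h
      have h1 := Option.some.inj (congrArg Prod.snd h)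
      have h2 : shbp (D.shdf z) u x = shbp (D.shdf z) v y := by
        have h3 := add_right_cancel h1
        exact add_right_cancel h3
      have n10 : ¬ ((1 : ZMod 2) = 0) := by decide
      have e11 : (1 : ZMod 2) + 1 = 0 := by decide
      rcases shz_cases u with hu | hu <;> rcases shz_cases v with hv | hv <;> subst hu <;> subst hv
      · left
        simp only [shbp, if_true] at h2
        rw [h2]
      · right
        simp only [shbp, if_true, if_neg n10] at h2
        simp only [sh, if_true, zero_add]
        rw [h2, sub_add_cancel]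
      · right
        simp only [shbp, if_true, if_neg n10] at h2
        simp only [sh, if_neg n10, e11]
        rw [h2]
      · left
        simp only [shbp, if_neg n10] at h2
        rw [sub_left_injective h2]

theorem isOF_gg (ε : ZMod 2) : IsOF (D.gg ε) := by
  unfold gg
  by_cases h : ε = 0
  · rw [if_pos h]; exact D.isOF_g
  · rw [if_neg h]; exact D.neg.isOF_g

end GData

theorem ch_neg' (hF : Fintype.card F % 4 = 1) (x : F) : ch (-x) = ch x := by
  unfold ch
  rw [chi_neg hF]

theorem T_neg' (hF : Fintype.card F % 4 = 1) (x : F) : T (-x) = T x := by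
  unfold T
  rw [chi_neg hF]

namespace TData

variable (D : TData F)

theorem isRB_gg (ε : ZMod 2) : IsRB (D.gg ε) (sh (D.d0 ε)) := by
  have h0 : D.d0 0 = D.toGData.shdf D.z1 := by
    unfold d0 sgn GData.shdf
    rw [if_pos rfl, one_mul]
  have h1 : D.d0 1 = D.toGData.neg.shdf (-D.z1) := by
    unfold d0 sgn GData.shdf
    rw [if_neg (by decide), ch_neg' D.hF]
    show -1 * ((D.s 1 + ch D.z1 * D.s 0) * D.z1) = (D.s 1 + ch D.z1 * D.s 0) * -D.z1
    ring
  unfold GData.gg
  by_cases h : ε = 0
  · rw [if_pos h, h, h0]; exact D.toGData.isRB_df D.hz1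
  · have h' : ε = 1 := by revert h; revert ε; decide
    rw [if_neg h, h', h1]; exact D.toGData.neg.isRB_df (neg_ne_zero.2 D.hz1)

/-- the special values -/
theorem gg_sn (ε u v : ZMod 2) (i : F) : D.gg ε (u, some i) (v, none) = (u + v + 1, some i) := by
  unfold GData.gg
  split_ifs <;> rfl

theorem gg_ns (ε u v : ZMod 2) (i : F) : D.gg ε (u, none) (v, some i) = (u + v + 1, some i) := by
  unfold GData.gg
  split_ifs <;> rfl

theorem gg_nn (ε u v : ZMod 2) : D.gg ε (u, none) (v, none) = (1, none) := by
  unfold GData.gg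
  split_ifs <;> rfl

end TData

end Pool.Agent.Lib.MP_db622c_co.P5
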