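import Pool.Agent.Lib.MP_db622c_co.P5.GL
import Pool.Agent.Lib.MP_db622c_co.P5.Sh

/-!
# P5-Lam: the symmetric Latin square `L`

Class of the edge `(0, x), (1, x + (1 - ν) * e)`, `e ≠ 0`: `(0, some (x + e))` if `inH e`,
`(1, some (x - ν * e))` otherwise; class of `(u, none), (u + 1, none)`: `(1, none)`.  So `isRB_shl` is as
`GData.isRB_df` in `P5/Sh.lean`.

`isLam_L`: `isLam_Lsw D.isOF_gl` (in `CB/LamOf.lean`) with `μ = sh D.d1` (`D.d1 = (1 - ν) * 1`),
`ν = sh (-D.d1)` (`-D.d1 = (1 - ν) * (-1)`), `side = Prod.fst`, `p0 = (0, none)`, as `isLam_sh` in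
`P2/Sh.lean`: by `inH_neg` exactly one of `inH 1`, `inH (-1)` is true, so the classes of the edges of
`μ` at finite points are the `(τ, some a)`, all `a`, with one value of `τ`, those of `ν` the
`(1 - τ, some a)`.

`L_sn`, `L_ns`: `Lsw_off` (the two points are different, and `sh` keeps infinite points infinite).
`L_nn`: values `(1, none)`, `(0, none) = 0`.  `L_fin`: `Lsw_diag`, `Lsw_sw`, `Lsw_off`.
-/

namespace Pool.Agent.Lib.MP_db622c_co.P5

open Pool.Agent.Lib.MP_db622c_co Pool.Agent.Lib.MP_db622c_co.CB Pool.Agent.Lib.MP_db622c_co.P2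
open Pool.Agent.Lib.MP_db622c_co.P2.PData (T ch)

variable {F : Type} [Field F] [Fintype F] [DecidableEq F]

namespace TData

variable (D : TData F)

/-- the class of the edge of difference `(1 - ν) * e` whose end on side `0` is `x` -/
def lce (e x : F) : Pt F := if D.inH e then (0, some (x + e)) else (1, some (x - D.ν * e))

theorem lce_snd_ne (e x : F) : (D.lce e x).2 ≠ none := by
  unfold lce
  split_ifs <;> simp

theorem lce_inj {e x y : F} (h : D.lce e x = D.lce e y) : x = y := by
  unfold lce at h
  split_ifs at h
  · exact add_right_cancel (Option.some.inj (congrArg Prod.snd h))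
  · exact sub_left_injective (Option.some.inj (congrArg Prod.snd h))

theorem glc_sh {e : F} (he : e ≠ 0) (x : F) : D.glc x (x + (1 - D.ν) * e) = D.lce e x := by
  have hn : (1 - D.ν) ≠ 0 := D.nu_ne.2
  have h1 : x + (1 - D.ν) * e ≠ x := by
    intro h
    exact mul_ne_zero hn he (by simpa using h)
  unfold glc lce
  rw [if_neg h1, add_sub_cancel_left, mul_div_cancel_left₀ _ hn]

theorem gl_sh_none (d : F) (u : ZMod 2) : D.gl (u, none) (sh d (u, none)) = (1, none) := rfl

theorem gl_sh_some {e : F} (he : e ≠ 0) (u : ZMod 2) (x : F) :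
    D.gl (u, some x) (sh ((1 - D.ν) * e) (u, some x)) =
      D.lce e (shbp ((1 - D.ν) * e) u x) := by
  rcases shz_cases u with h | h
  · subst h
    have e1 : sh ((1 - D.ν) * e) ((0 : ZMod 2), some x) =
        ((0 : ZMod 2) + 1, some (x + (1 - D.ν) * e)) := by
      simp only [sh, if_true]
    have e2 : shbp ((1 - D.ν) * e) 0 x = x := by simp only [shbp, if_true]
    have h1 : ¬ ((0 : ZMod 2) = 0 + 1) := by decide
    rw [e1, e2, ← D.glc_sh he x]
    simp only [gl, if_neg h1, if_true]
  · subst h
    have h2 : ¬ ((1 : ZMod 2) = 0) := by decide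
    have e1 : sh ((1 - D.ν) * e) ((1 : ZMod 2), some x) =
        ((1 : ZMod 2) + 1, some (x - (1 - D.ν) * e)) := by
      simp only [sh, if_neg h2]
    have e2 : shbp ((1 - D.ν) * e) 1 x = x - (1 - D.ν) * e := by simp only [shbp, if_neg h2]
    have h1 : ¬ ((1 : ZMod 2) = 1 + 1) := by decide
    rw [e1, e2, ← D.glc_sh he (x - (1 - D.ν) * e), sub_add_cancel]
    simp only [gl, if_neg h1, if_neg h2]

theorem isRB_shl (e : F) (he : e ≠ 0) : IsRB D.gl (sh ((1 - D.ν) * e)) := by
  refine ⟨sh_inv _, sh_ne _, ?_⟩
  rintro ⟨u, x⟩ ⟨v, y⟩ h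
  cases x with
  | none =>
    cases y with
    | none =>
      by_cases hv : v = u
      · left; rw [hv]
      · right
        rw [shz_other hv]
        rfl
    | some y =>
      exfalso
      rw [D.gl_sh_none, D.gl_sh_some he] at h
      exact D.lce_snd_ne _ _ (congrArg Prod.snd h).symm
  | some x =>
    cases y with
    | none =>
      exfalso
      rw [D.gl_sh_none, D.gl_sh_some he] at h
      exact D.lce_snd_ne _ _ (congrArg Prod.snd h)
    | some y =>
      rw [D.gl_sh_some he, D.gl_sh_some he] at h
      have h2 : shbp ((1 - D.ν) * e) u x = shbp ((1 - D.ν) * e) v y := D.lce_inj h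
      have n10 : ¬ ((1 : ZMod 2) = 0) := by decide
      have e11 : (1 : ZMod 2) + 1 = 0 := by decide
      rcases shz_cases u with hu | hu <;> rcases shz_cases v with hv | hv <;> subst hu <;> subst hv
      · left
        simp only [shbp, if_true] at h2
        rw [h2]
      · right
        simp only [shbp, if_true, if_neg n10] at h2
        simp only [sh, if_true, zero_add]
        rw [h2, sub_add_cancel]
      · right
        simp only [shbp, if_true, if_neg n10] at h2
        simp only [sh, if_neg n10, e11]
        rw [h2]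
      · left
        simp only [shbp, if_neg n10] at h2
        rw [sub_left_injective h2]

theorem isRB_d1 : IsRB D.gl (sh D.d1) := by
  have h := D.isRB_shl 1 one_ne_zero
  rwa [mul_one] at h

theorem isRB_d2 : IsRB D.gl (sh (-D.d1)) := by
  have h := D.isRB_shl (-1) (neg_ne_zero.2 one_ne_zero)
  rwa [mul_neg_one] at h

theorem isLam_L : IsLam D.L (sh D.d1) Prod.fst := by
  have e1 : D.d1 = (1 - D.ν) * 1 := by rw [mul_one]; rfl
  have e2 : -D.d1 = (1 - D.ν) * (-1) := by rw [mul_neg_one]; rfl
  have n1 : (1 : F) ≠ 0 := one_ne_zero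
  have n2 : (-1 : F) ≠ 0 := neg_ne_zero.2 one_ne_zero
  have hH : D.inH (-1) = !(D.inH 1) := D.inH_neg n1
  unfold L
  refine isLam_Lsw D.isOF_gl D.isRB_d1 D.isRB_d2 (sh_fst _) (sh_fst _) (0, none) rfl ?_ ?_
  · rintro ⟨u, x⟩ ⟨v, y⟩ h
    cases y with
    | none =>
      rcases shz_cases v with hv | hv <;> subst hv
      · left; rfl
      · right; rfl
    | some y =>
      exfalso
      rw [e2, e1] at h
      cases x with
      | none =>
        rw [D.gl_sh_none, D.gl_sh_some n1] at h
        exact D.lce_snd_ne _ _ (congrArg Prod.snd h).symm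
      | some x =>
        rw [D.gl_sh_some n2, D.gl_sh_some n1] at h
        have h1 := congrArg Prod.fst h
        unfold lce at h1
        rw [hH] at h1
        have n01 : ¬ ((0 : ZMod 2) = 1) := by decide
        have n10 : ¬ ((1 : ZMod 2) = 0) := by decide
        cases hb : D.inH 1 with
        | true =>
          rw [hb] at h1
          simp at h1
        | false =>
          rw [hb] at h1
          simp at h1
  · rintro ⟨τ, a⟩ hc
    cases a with
    | none =>
      rcases shz_cases τ with h | h <;> subst h
      · exact absurd rfl hc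
      · left
        exact ⟨(0, none), rfl⟩
    | some a =>
      rw [e2, e1]
      cases hb : D.inH 1 with
      | true =>
        rcases shz_cases τ with h | h <;> subst h
        · right
          refine ⟨(0, some (a - 1)), ?_⟩
          rw [D.gl_sh_some n1]
          simp only [shbp, if_true, lce, hb, sub_add_cancel]
        · left
          refine ⟨(0, some (a - D.ν)), ?_⟩
          rw [D.gl_sh_some n2]
          simp only [shbp, if_true, lce, hH, hb, Bool.not_true, Bool.false_eq_true, if_false]
          congr 2
          ring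
      | false =>
        rcases shz_cases τ with h | h <;> subst h
        · left
          refine ⟨(0, some (a + 1)), ?_⟩
          rw [D.gl_sh_some n2]
          simp only [shbp, if_true, lce, hH, hb, Bool.not_false]
          congr 2
          ring
        · right
          refine ⟨(0, some (a + D.ν)), ?_⟩
          rw [D.gl_sh_some n1]
          simp only [shbp, if_true, lce, hb, Bool.false_eq_true, if_false]
          congr 2
          ring

theorem L_sn (u v : ZMod 2) (i : F) : D.L (u, some i) (v, none) = (u + v + 1, some i) := by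
  unfold L
  rw [Lsw_off]
  · rfl
  · intro h
    have := congrArg Prod.snd h
    simp at this
  · intro h
    have h2 := congrArg Prod.snd h
    simp [sh] at h2

theorem L_ns (u v : ZMod 2) (i : F) : D.L (u, none) (v, some i) = (u + v + 1, some i) := by
  unfold L
  rw [Lsw_off]
  · rfl
  · intro h
    have := congrArg Prod.snd h
    simp at this
  · intro h
    have h2 := congrArg Prod.snd h
    simp [sh] at h2

theorem L_nn (u v : ZMod 2) : (D.L (u, none) (v, none)).2 = none := by
  unfold L
  by_cases hv : v = u
  · subst hv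
    rw [Lsw_diag, D.gl_sh_none]
  · have h1 : ((v, none) : Pt F) = sh (-D.d1) (u, none) := by
      rw [shz_other hv]
      rfl
    rw [h1, Lsw_sw D.isRB_d2]
    rfl

/-- the values at the pairs which are not in a block -/
theorem L_fin (j k : Pt F) (hk : k ≠ j) : D.L j k = 0 ∧ k = sh (-D.d1) j ∨ D.L j k = D.gl j k := by
  unfold L
  by_cases h : k = sh (-D.d1) j
  · left
    refine ⟨?_, h⟩
    rw [h, Lsw_sw D.isRB_d2]
  · right
    exact Lsw_off hk h

end TData

end Pool.Agent.Lib.MP_db622c_co.P5
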