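import Mathlib

/-!
# P5-Nov: infinitely many primes `p ≡ 1 (mod 4)` for which none of the numbers
`2 ^ i * (p + 1) - 1`, `1 ≤ i ≤ e`, is a prime power
-/

namespace Pool.Agent.Lib.MP_db622c_co.P5

/-- `r` divides `x` exactly once and `x > r`: `x` is not a prime power -/
theorem not_primePow_of_once (x r : ℕ) (hr : r.Prime) (hx : r < x) (h0 : r ∣ x)
    (h1 : ¬ r * r ∣ x) : ¬ IsPrimePow x := by
  intro hpow
  obtain ⟨s, c, hs, hc, hsc⟩ := (isPrimePow_nat_iff _).1 hpow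
  have hd : r ∣ s ^ c := by rw [hsc]; exact h0
  have hrs : r = s := (Nat.prime_dvd_prime_iff_eq hr hs).1 (hr.dvd_of_dvd_pow hd)
  subst hrs
  have hc2 : 2 ≤ c := by
    by_contra hc2
    have h : c = 1 := by omega
    rw [h, pow_one] at hsc
    omega
  apply h1
  obtain ⟨d, rfl⟩ : ∃ d, c = d + 2 := ⟨c - 2, by omega⟩
  rw [← hsc, pow_add, sq]
  exact Dvd.intro_left _ rfl

/-- one congruence: for an odd prime `r > 2 ^ i` there is `a`, prime to `r`, with
`2 ^ i * (a + 1) ≡ 1 + r` modulo `r ^ 2` -/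
theorem exists_res (r i : ℕ) (hr : r.Prime) (h2 : 2 ^ i < r) (hi : 1 ≤ i) :
    ∃ a : ℕ, Nat.Coprime a (r * r) ∧ 2 ^ i * (a + 1) ≡ 1 + r [MOD r * r] := by
  have hr2 : r ≠ 2 := by
    have : 2 ^ 1 ≤ 2 ^ i := Nat.pow_le_pow_right (by norm_num) hi
    omega
  have hodd : Odd r := hr.odd_of_ne_two hr2
  have hco : Nat.Coprime (2 ^ i) (r * r) := by
    have h : Nat.Coprime 2 r := (Nat.coprime_primes Nat.prime_two hr).2 (Ne.symm hr2)
    exact Nat.Coprime.pow_left i (Nat.Coprime.mul_right h h)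
  have hrr : 1 < r * r := by nlinarith [hr.two_le]
  obtain ⟨b, hb⟩ := Nat.exists_mul_mod_eq_one_of_coprime hco hrr
  have hb' : 2 ^ i * b ≡ 1 [MOD r * r] := by
    unfold Nat.ModEq
    rw [hb.2, Nat.mod_eq_of_lt hrr]
  set c : ℕ := b * (1 + r) + (r * r - 1) with hc
  have hc1 : c + 1 ≡ b * (1 + r) [MOD r * r] := by
    have h : c + 1 = b * (1 + r) + r * r := by omega
    rw [h]
    exact Nat.add_modEq_right
  have hc2 : 2 ^ i * (c + 1) ≡ 1 + r [MOD r * r] := by
    calc 2 ^ i * (c + 1) ≡ 2 ^ i * (b * (1 + r)) [MOD r * r] := hc1.mul_left _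
      _ = 2 ^ i * b * (1 + r) := by ring
      _ ≡ 1 * (1 + r) [MOD r * r] := hb'.mul_right _
      _ = 1 + r := by ring
  refine ⟨c, ?_, hc2⟩
  have hcr : Nat.Coprime c r := by
    rw [Nat.coprime_comm, hr.coprime_iff_not_dvd]
    intro hd
    have h1 : 2 ^ i * (c + 1) ≡ 1 + r [MOD r] := hc2.of_mul_right r
    have h3 : 2 ^ i * (c + 1) ≡ 2 ^ i [MOD r] := by
      have h4 : c + 1 ≡ 0 + 1 [MOD r] := ((Nat.modEq_zero_iff_dvd).2 hd).add_right 1
      have h5 := h4.mul_left (2 ^ i)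
      simpa using h5
    have h4 : 2 ^ i ≡ 1 [MOD r] := by
      have h5 : 1 + r ≡ 1 [MOD r] := Nat.add_modEq_right
      exact h3.symm.trans (h1.trans h5)
    have h5 : 2 ^ i = 1 := Nat.ModEq.eq_of_lt_of_lt h4 h2 hr.one_lt
    have : 2 ^ 1 ≤ 2 ^ i := Nat.pow_le_pow_right (by norm_num) hi
    omega
  exact Nat.Coprime.mul_right hcr hcr

theorem exists_mod (e E : ℕ) (he : e ≤ E) : ∃ M a : ℕ, 0 < M ∧ Nat.Coprime a M ∧ 4 ∣ M ∧
    a % 4 = 1 ∧ (∀ r : ℕ, r.Prime → r ∣ M → r = 2 ∨ r < Nat.nth Nat.Prime (2 ^ E + (e + 1))) ∧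
    ∀ i, 1 ≤ i → i ≤ e → ∃ r : ℕ, r.Prime ∧ r * r ∣ M ∧ 2 ^ i * (a + 1) ≡ 1 + r [MOD r * r] := by
  induction e with
  | zero =>
    refine ⟨4, 1, by norm_num, by norm_num, dvd_refl 4, by norm_num, ?_, ?_⟩
    · intro r hr hd
      left
      have h : r ∣ 2 ^ 2 := by simpa using hd
      exact (Nat.prime_dvd_prime_iff_eq hr Nat.prime_two).1 (hr.dvd_of_dvd_pow h)
    · intro i h1 h2; omega
  | succ e ih =>
    obtain ⟨M, a, hM, ha, h4, ha4, hlt, hres⟩ := ih (by omega)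
    set r := Nat.nth Nat.Prime (2 ^ E + (e + 1)) with hrdef
    have hr : r.Prime := Nat.prime_nth_prime _
    have hge : 2 ^ E + (e + 1) + 2 ≤ r := Nat.add_two_le_nth_prime _
    have hE : 2 ^ (e + 1) ≤ 2 ^ E := Nat.pow_le_pow_right (by norm_num) he
    obtain ⟨b, hb, hb'⟩ := exists_res r (e + 1) hr (by omega) (by omega)
    have hrM : ¬ r ∣ M := by
      intro hd
      have h2 : 2 ^ 1 ≤ 2 ^ (e + 1) := Nat.pow_le_pow_right (by norm_num) (by omega)
      rcases hlt r hr hd with h | h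
      · omega
      · exact lt_irrefl _ h
    have hcoM : Nat.Coprime M (r * r) := by
      have h : Nat.Coprime M r := ((hr.coprime_iff_not_dvd).2 hrM).symm
      exact Nat.Coprime.mul_right h h
    obtain ⟨c, hcM, hcr⟩ := Nat.chineseRemainder hcoM a b
    refine ⟨M * (r * r), c, Nat.mul_pos hM (Nat.mul_pos hr.pos hr.pos), ?_, ?_, ?_, ?_, ?_⟩
    · apply Nat.Coprime.mul_right
      · have h := hcM.gcd_eq
        unfold Nat.Coprime at ha ⊢
        rw [h, ha]
      · have h := hcr.gcd_eq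
        unfold Nat.Coprime at hb ⊢
        rw [h, hb]
    · exact h4.mul_right _
    · have h := hcM.of_dvd h4
      unfold Nat.ModEq at h
      omega
    · intro s hs hd
      have hmono : Nat.nth Nat.Prime (2 ^ E + (e + 1)) < Nat.nth Nat.Prime (2 ^ E + (e + 1 + 1)) :=
        Nat.nth_strictMono Nat.infinite_setOfPred_prime (by omega)
      rcases (hs.dvd_mul).1 hd with h | h
      · rcases hlt s hs h with h' | h'
        · exact Or.inl h'
        · exact Or.inr (lt_trans h' hmono)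
      · right
        have hsr : s = r := by
          rcases (hs.dvd_mul).1 h with h' | h' <;> exact (Nat.prime_dvd_prime_iff_eq hs hr).1 h'
        rw [hsr]
        exact hmono
    · intro i h1 h2
      by_cases hi : i = e + 1
      · subst hi
        refine ⟨r, hr, dvd_mul_left _ _, ?_⟩
        exact ((hcr.add_right 1).mul_left _).trans hb'
      · obtain ⟨s, hs, hsM, hs'⟩ := hres i h1 (by omega)
        refine ⟨s, hs, hsM.mul_right _, ?_⟩
        exact (((hcM.of_dvd hsM).add_right 1).mul_left _).trans hs'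

/-- For every `e` there are infinitely many primes `p ≡ 1 (mod 4)` such that none of the numbers
`2 ^ i * (p + 1) - 1`, `1 ≤ i ≤ e`, is a prime power. -/
theorem exists_prime_outside (e N : ℕ) : ∃ p : ℕ, N < p ∧ p.Prime ∧ p % 4 = 1 ∧
    ∀ i, 1 ≤ i → i ≤ e → ¬ IsPrimePow (2 ^ i * (p + 1) - 1) := by
  obtain ⟨M, a, hM, ha, h4, ha4, -, hres⟩ := exists_mod e e le_rfl
  have : NeZero M := ⟨hM.ne'⟩
  obtain ⟨p, hp, hpp, hm⟩ := Nat.forall_exists_prime_gt_and_modEq (max N M) hM.ne' ha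
  have hN : N < p := lt_of_le_of_lt (le_max_left _ _) hp
  have hMp : M < p := lt_of_le_of_lt (le_max_right _ _) hp
  have hp4 : p % 4 = 1 := by
    have h := hm.of_dvd h4
    unfold Nat.ModEq at h
    omega
  refine ⟨p, hN, hpp, hp4, ?_⟩
  intro i h1 h2
  obtain ⟨r, hr, hrM, hr'⟩ := hres i h1 h2
  have h5 : 2 ^ i * (p + 1) ≡ 1 + r [MOD r * r] :=
    (((hm.of_dvd hrM).add_right 1).mul_left _).trans hr'
  have hrr : r * r ≤ M := Nat.le_of_dvd hM hrM
  have hr2 := hr.two_le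
  have hbig : M < 2 ^ i * (p + 1) := by
    have : 1 ≤ 2 ^ i := Nat.one_le_two_pow
    nlinarith
  have hrlt : 1 + r < 2 ^ i * (p + 1) := by nlinarith
  have h6 : r * r ∣ 2 ^ i * (p + 1) - (1 + r) := (Nat.modEq_iff_dvd' hrlt.le).1 h5.symm
  obtain ⟨k, hk⟩ := h6
  have h7 : 2 ^ i * (p + 1) - 1 = r * r * k + r := by omega
  rw [h7]
  apply not_primePow_of_once _ r hr
  · have : 0 < k := by
      rcases Nat.eq_zero_or_pos k with h | h
      · subst h; omega
      · exact h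
    have h8 : 0 < r * r * k := Nat.mul_pos (Nat.mul_pos hr.pos hr.pos) this
    omega
  · exact ⟨r * k + 1, by ring⟩
  · intro hd
    have h9 : r * r ∣ r := (Nat.dvd_add_right (Dvd.intro k rfl)).1 hd
    have h10 := Nat.le_of_dvd hr.pos h9
    nlinarith

end Pool.Agent.Lib.MP_db622c_co.P5
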