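import Pool.Agent.Lib.MP_db622c_co.P5.Sh
import Pool.Agent.Lib.MP_db622c_co.P5.HH

/-!
# P5-O0: `gg ε` is orthogonal to `hh0`

`gg 0 = D.g` (half set `W`), `gg 1 = D.neg.g`; `D.neg.wr m = - D.wr m` for `m ≠ 0` (and for `m = 0`
both are `0`), `D.neg.dl = D.dl`.  Let `wε = D.wr` for `ε = 0`, `wε = - D.wr` for `ε = 1`.
Values of `gg ε` at finite pairs:
* same side `(u, x), (u, y)`: `m = (y - x) / (2 * s u)`: `(T m, some ((x + y) / 2 - wε m))`
  (`T_wr`), so with `i = (x + y) / 2 - wε m`, `hh0 = (0, i + wε m)`;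
* cross `(0, x), (1, y)`, `x ≠ y`, `z = dl (y - x) ≠ 0`, `y - x = (s 1 + ch z * s 0) * z`
  (`exists_dl`): `(T z, some i)`, `i = x + ch z * s 0 * z + wε z`, and
  `hh0 = (1, x + 2 * (ch z * s 0 * z)) = (1, i + (ch z * s 0 * z - wε z))`;
* cross `x = y`: `(1, none)`, `hh0 = (1, x)` (`f0 0 = 0`).

`g_orth`: same side pairs on the same side `u`: `T m = T m'`, `i = i'`, `wε m = wε m'`, so
`m' = ± m` (`wr_eq`) and `{x, y} = {x', y'}` (`x, y = i + wε m ∓ s u * m`).  Cross pairs: `T z = T z'`,
so `ch z = ch z'`, and `ch z * s 0 * z - wε z` determines `z`: it is `z * (ch z * s 0 - 1)` or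
`z * (ch z * s 0 + 1)`; with `χ z = χ z'` the first has `χ` equal to
(`ch z = 1`: `χ (s 0 - 1) = χ (1 - s 0) = 1`; `ch z = -1`: `χ (- s 0 - 1) = χ (1 + s 0) = -1`) and
the second (`ch z = 1`: `χ (1 + s 0) = -1`; `ch z = -1`: `χ (1 - s 0) = 1`) times `χ z`, so the same
case holds for `z`, `z'`, and `z = z'`; then `x = x'`, `y = y'`.
`g_cross`: side `0`: label `wε m`, side `1` with the other half set: label `- wε m'` with
`T m = T m'`; both nonzero; `wr m = - wr m'` is impossible since `W (wr m) = true`,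
`W (- wr m') = false` (`hW`, `W_wr`).
`g_lab`: `(0, i)`: `wε m ≠ 0`.  `τ = 1`: `χ z = -1`, label `-(s 0 * z) - wε z`, to be compared with
`a0 ε 1 = ± (ch z1 * s 0 - s 1) * z1`: for `ε = 0` the field `h10`; for `ε = 1` apply `h10` to `-z`
(`wr (-z) = wr z`).  `τ = 0`: likewise with `h00`.
-/

namespace Pool.Agent.Lib.MP_db622c_co.P5

open Pool.Agent.Lib.MP_db622c_co Pool.Agent.Lib.MP_db622c_co.CB Pool.Agent.Lib.MP_db622c_co.P2
open Pool.Agent.Lib.MP_db622c_co.P2.PData (T ch)

variable {F : Type} [Field F] [Fintype F] [DecidableEq F]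

theorem o0_z2 (u : ZMod 2) : u = 0 ∨ u = 1 := by revert u; decide

namespace GData

variable (G : GData F)

/-- `f0` of the underlying data -/
def o0f (d : F) : F := 2 * (ch (G.dl d) * G.s 0 * G.dl d)

theorem o0_f_zero : G.o0f 0 = 0 := by
  unfold o0f
  rw [G.dl_zero]
  ring

theorem o0_chs {z : F} (hz : z ≠ 0) :
    quadraticChar F (ch z * G.s 0 - 1) = - quadraticChar F (ch z * G.s 0 + 1) ∧
      ch z * G.s 0 - 1 ≠ 0 ∧ ch z * G.s 0 + 1 ≠ 0 := by
  have h1 := G.h1 0
  have h2 := G.h2 0
  have k1 := G.one_sub_ne 0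
  have k2 := G.one_add_ne 0
  rcases ch_cases hz with ⟨-, h, -⟩ | ⟨-, h, -⟩ <;> rw [h]
  · have e1 : (1 : F) * G.s 0 - 1 = -(1 - G.s 0) := by ring
    have e2 : (1 : F) * G.s 0 + 1 = 1 + G.s 0 := by ring
    rw [e1, e2, chi_neg G.hF, h1, h2]
    exact ⟨by norm_num, neg_ne_zero.2 k1, k2⟩
  · have e1 : (-1 : F) * G.s 0 - 1 = -(1 + G.s 0) := by ring
    have e2 : (-1 : F) * G.s 0 + 1 = 1 - G.s 0 := by ring
    rw [e1, e2, chi_neg G.hF, h1, h2]
    exact ⟨rfl, neg_ne_zero.2 k2, k1⟩

/-- the value `ch z * s 0 * z - wr z` determines `z` on each class -/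
theorem o0_key {z z' : F} (hz : z ≠ 0) (hz' : z' ≠ 0) (hT : T z = T z')
    (h : ch z * G.s 0 * z - G.wr z = ch z' * G.s 0 * z' - G.wr z') : z = z' := by
  have hchi : quadraticChar F z = quadraticChar F z' := (T_eq_iff hz hz').1 hT
  have hch : ch z' = ch z := by unfold ch; rw [hchi]
  obtain ⟨k1, k2, k3⟩ := G.o0_chs hz
  rw [hch] at h
  have hne : quadraticChar F z' ≠ 0 := by
    rcases quadraticChar_dichotomy hz' with h0 | h0 <;> rw [h0] <;> norm_num
  have hk3 : quadraticChar F (ch z * G.s 0 + 1) ≠ 0 := by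
    rcases quadraticChar_dichotomy k3 with h0 | h0 <;> rw [h0] <;> norm_num
  rcases G.wr_cases z with hw | hw <;> rcases G.wr_cases z' with hw' | hw' <;> rw [hw, hw'] at h
  · have h3 : (ch z * G.s 0 - 1) * z = (ch z * G.s 0 - 1) * z' := by linear_combination h
    exact mul_left_cancel₀ k2 h3
  · exfalso
    have h3 : (ch z * G.s 0 - 1) * z = (ch z * G.s 0 + 1) * z' := by linear_combination h
    have h4 := congrArg (quadraticChar F) h3
    rw [map_mul, map_mul, hchi, k1] at h4
    have h5 := mul_right_cancel₀ hne h4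
    apply hk3
    linarith
  · exfalso
    have h3 : (ch z * G.s 0 + 1) * z = (ch z * G.s 0 - 1) * z' := by linear_combination h
    have h4 := congrArg (quadraticChar F) h3
    rw [map_mul, map_mul, hchi, k1] at h4
    have h5 := mul_right_cancel₀ hne h4
    apply hk3
    linarith
  · have h3 : (ch z * G.s 0 + 1) * z = (ch z * G.s 0 + 1) * z' := by linear_combination h
    exact mul_left_cancel₀ k3 h3

theorem o0_cross {x y x' y' : F} (hg : G.gc x y = G.gc x' y')
    (hh : x + G.o0f (y - x) = x' + G.o0f (y' - x')) : x' = x ∧ y' = y := by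
  unfold gc at hg
  by_cases hyx : y = x
  · by_cases hyx' : y' = x'
    · rw [hyx, hyx', sub_self, sub_self, G.o0_f_zero, add_zero, add_zero] at hh
      exact ⟨hh.symm, by rw [hyx, hyx', hh]⟩
    · exfalso
      rw [if_pos hyx, if_neg hyx'] at hg
      have := congrArg Prod.snd hg
      simp at this
  · by_cases hyx' : y' = x'
    · exfalso
      rw [if_neg hyx, if_pos hyx'] at hg
      have := congrArg Prod.snd hg
      simp at this
    · rw [if_neg hyx, if_neg hyx'] at hg
      obtain ⟨z, hz, hd, hdl⟩ := G.exists_dl (sub_ne_zero.2 hyx)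
      obtain ⟨z', hz', hd', hdl'⟩ := G.exists_dl (sub_ne_zero.2 hyx')
      rw [hdl, hdl'] at hg
      have hT : T z = T z' := congrArg Prod.fst hg
      have hi := Option.some.inj (congrArg Prod.snd hg)
      unfold o0f at hh
      rw [hdl, hdl'] at hh
      have hzz : z = z' := by
        apply G.o0_key hz hz' hT
        linear_combination hh - hi
      subst hzz
      have hx : x' = x := by linear_combination -hh
      refine ⟨hx, ?_⟩
      rw [hx] at hd'
      have h5 : y' - x = y - x := by rw [hd', hd]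
      exact sub_left_injective h5

theorem o0_same {u : ZMod 2} {x y x' y' : F} (hg : G.gs u x y = G.gs u x' y')
    (hh : (x + y) / 2 = (x' + y') / 2) : (x' = x ∧ y' = y) ∨ (x' = y ∧ y' = x) := by
  have h2 := two_ne G.hF
  have hs := G.s_ne u
  unfold gs at hg
  have hi := Option.some.inj (congrArg Prod.snd hg)
  rw [hh] at hi
  have hw : G.wr ((y - x) / (2 * G.s u)) = G.wr ((y' - x') / (2 * G.s u)) := by
    linear_combination -hi
  have hsum : x + y = x' + y' := by
    have := congrArg (fun t => t * 2) hh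
    simpa [div_mul_cancel₀ _ h2] using this
  rcases G.wr_eq hw with h | h
  · left
    have h3 : y' - x' = y - x := by
      rw [div_left_inj' (mul_ne_zero h2 hs)] at h
      exact h
    constructor
    · apply mul_left_cancel₀ h2
      linear_combination -hsum - h3
    · apply mul_left_cancel₀ h2
      linear_combination -hsum + h3
  · right
    have h3 : y' - x' = -(y - x) := by
      rw [← neg_div, div_left_inj' (mul_ne_zero h2 hs)] at h
      exact h
    constructor
    · apply mul_left_cancel₀ h2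
      linear_combination -hsum - h3
    · apply mul_left_cancel₀ h2
      linear_combination -hsum + h3

theorem o0_neg_wr (m : F) : G.neg.wr m = -G.wr m := by
  unfold wr neg
  by_cases h : G.W m = true <;> simp [h]

theorem o0_g_same (u : ZMod 2) (x y : F) : G.g (u, some x) (u, some y) = G.gs u x y := by
  simp only [g, if_true]

theorem o0_g_01 (x y : F) : G.g (0, some x) (1, some y) = G.gc x y := by
  have h01 : ¬ ((0 : ZMod 2) = 1) := by decide
  simp only [g, if_neg h01, if_true]

theorem o0_g_10 (x y : F) : G.g (1, some x) (0, some y) = G.gc y x := by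
  have h10 : ¬ ((1 : ZMod 2) = 0) := by decide
  simp only [g, if_neg h10]

end GData

namespace TData

variable (D : TData F)

theorem o0_hh_same (u : ZMod 2) (x y : F) : D.hh0 (u, some x) (u, some y) = (0, (x + y) / 2) := by
  simp only [hh0, if_true]

theorem o0_hh_01 (x y : F) : D.hh0 (0, some x) (1, some y) = (1, x + D.toGData.o0f (y - x)) := by
  have h01 : ¬ ((0 : ZMod 2) = 1) := by decide
  simp only [hh0, if_neg h01, if_true]
  rfl

theorem o0_hh_10 (x y : F) : D.hh0 (1, some x) (0, some y) = (1, y + D.toGData.o0f (x - y)) := by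
  have h10 : ¬ ((1 : ZMod 2) = 0) := by decide
  simp only [hh0, if_neg h10]
  rfl

theorem o0_orth (G : GData F) (hf : ∀ d, G.o0f d = D.toGData.o0f d) (u v u' v' : ZMod 2)
    (x y x' y' : F) (hs : u = v → u' = u)
    (hg : G.g (u, some x) (v, some y) = G.g (u', some x') (v', some y'))
    (hh : D.hh0 (u, some x) (v, some y) = D.hh0 (u', some x') (v', some y')) :
    SP ((u, some x) : Pt F) (v, some y) (u', some x') (v', some y') := by
  have h01 : ¬ ((0 : ZMod 2) = 1) := by decide
  have h10 : ¬ ((1 : ZMod 2) = 0) := by decide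
  by_cases huv : u = v
  · have hu' := hs huv
    subst huv
    subst hu'
    by_cases huv' : u' = v'
    · subst huv'
      rw [G.o0_g_same, G.o0_g_same] at hg
      rw [D.o0_hh_same, D.o0_hh_same] at hh
      have h3 : (x + y) / 2 = (x' + y') / 2 := congrArg Prod.snd hh
      rcases G.o0_same hg h3 with ⟨e1, e2⟩ | ⟨e1, e2⟩
      · left; rw [e1, e2]; exact ⟨rfl, rfl⟩
      · right; rw [e1, e2]; exact ⟨rfl, rfl⟩
    · exfalso
      rw [D.o0_hh_same] at hh
      rcases o0_z2 u' with h | h <;> rcases o0_z2 v' with h' | h' <;> subst h <;> subst h'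
      · exact huv' rfl
      · rw [D.o0_hh_01] at hh
        exact h01 (congrArg Prod.fst hh)
      · rw [D.o0_hh_10] at hh
        exact h01 (congrArg Prod.fst hh)
      · exact huv' rfl
  · by_cases huv' : u' = v'
    · exfalso
      subst huv'
      rw [D.o0_hh_same] at hh
      rcases o0_z2 u with h | h <;> rcases o0_z2 v with h' | h' <;> subst h <;> subst h'
      · exact huv rfl
      · rw [D.o0_hh_01] at hh
        exact h10 (congrArg Prod.fst hh)
      · rw [D.o0_hh_10] at hh
        exact h10 (congrArg Prod.fst hh)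
      · exact huv rfl
    · rcases o0_z2 u with h | h <;> rcases o0_z2 v with h' | h' <;> subst h <;> subst h'
      · exact absurd rfl huv
      · rcases o0_z2 u' with k | k <;> rcases o0_z2 v' with k' | k' <;> subst k <;> subst k'
        · exact absurd rfl huv'
        · rw [G.o0_g_01, G.o0_g_01] at hg
          rw [D.o0_hh_01, D.o0_hh_01] at hh
          have h3 : x + D.toGData.o0f (y - x) = x' + D.toGData.o0f (y' - x') :=
            congrArg Prod.snd hh
          rw [← hf, ← hf] at h3
          obtain ⟨e1, e2⟩ := G.o0_cross hg h3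
          left; rw [e1, e2]; exact ⟨rfl, rfl⟩
        · rw [G.o0_g_01, G.o0_g_10] at hg
          rw [D.o0_hh_01, D.o0_hh_10] at hh
          have h3 : x + D.toGData.o0f (y - x) = y' + D.toGData.o0f (x' - y') :=
            congrArg Prod.snd hh
          rw [← hf, ← hf] at h3
          obtain ⟨e1, e2⟩ := G.o0_cross hg h3
          right; rw [e1, e2]; exact ⟨rfl, rfl⟩
        · exact absurd rfl huv'
      · rcases o0_z2 u' with k | k <;> rcases o0_z2 v' with k' | k' <;> subst k <;> subst k'
        · exact absurd rfl huv'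
        · rw [G.o0_g_10, G.o0_g_01] at hg
          rw [D.o0_hh_10, D.o0_hh_01] at hh
          have h3 : y + D.toGData.o0f (x - y) = x' + D.toGData.o0f (y' - x') :=
            congrArg Prod.snd hh
          rw [← hf, ← hf] at h3
          obtain ⟨e1, e2⟩ := G.o0_cross hg h3
          right; rw [e1, e2]; exact ⟨rfl, rfl⟩
        · rw [G.o0_g_10, G.o0_g_10] at hg
          rw [D.o0_hh_10, D.o0_hh_10] at hh
          have h3 : y + D.toGData.o0f (x - y) = y' + D.toGData.o0f (x' - y') :=
            congrArg Prod.snd hh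
          rw [← hf, ← hf] at h3
          obtain ⟨e1, e2⟩ := G.o0_cross hg h3
          left; rw [e1, e2]; exact ⟨rfl, rfl⟩
        · exact absurd rfl huv'
      · exact absurd rfl huv

theorem o0_gg0 : D.gg 0 = D.toGData.g := by
  unfold GData.gg
  rw [if_pos rfl]

theorem o0_gg1 : D.gg 1 = D.toGData.neg.g := by
  unfold GData.gg
  rw [if_neg (by decide)]

theorem g_orth (ε u v u' v' : ZMod 2) (x y x' y' : F)
    (h1 : ((v, some y) : Pt F) ≠ (u, some x)) (h1' : ((v', some y') : Pt F) ≠ (u', some x'))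
    (hs : u = v → u' = u)
    (hg : D.gg ε (u, some x) (v, some y) = D.gg ε (u', some x') (v', some y'))
    (hh : D.hh0 (u, some x) (v, some y) = D.hh0 (u', some x') (v', some y')) :
    SP ((u, some x) : Pt F) (v, some y) (u', some x') (v', some y') := by
  rcases o0_z2 ε with h | h <;> subst h
  · rw [D.o0_gg0] at hg
    exact D.o0_orth D.toGData (fun _ => rfl) u v u' v' x y x' y' hs hg hh
  · rw [D.o0_gg1] at hg
    exact D.o0_orth D.toGData.neg (fun _ => rfl) u v u' v' x y x' y' hs hg hh

theorem o0_wr_ne_neg {m m' : F} (hm : m ≠ 0) (hm' : m' ≠ 0) :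
    D.wr m ≠ - D.wr m' := by
  intro h
  have h1 := D.W_wr hm
  rw [h, D.hW _ (D.wr_ne hm'), D.W_wr hm'] at h1
  simp at h1

theorem g_cross (ε : ZMod 2) (x y x' y' : F) (h1 : y ≠ x) (h1' : y' ≠ x')
    (hg : D.gg ε (0, some x) (0, some y) = D.gg (ε + 1) (1, some x') (1, some y')) :
    D.hh0 (0, some x) (0, some y) ≠ D.hh0 (1, some x') (1, some y') := by
  intro hh
  rw [D.o0_hh_same, D.o0_hh_same] at hh
  have h3 : (x + y) / 2 = (x' + y') / 2 := congrArg Prod.snd hh
  have h2 := two_ne D.hF
  have hm : (y - x) / (2 * D.s 0) ≠ 0 :=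
    div_ne_zero (sub_ne_zero.2 h1) (mul_ne_zero h2 (D.s_ne 0))
  have hm' : (y' - x') / (2 * D.s 1) ≠ 0 :=
    div_ne_zero (sub_ne_zero.2 h1') (mul_ne_zero h2 (D.s_ne 1))
  rcases o0_z2 ε with h | h <;> subst h
  · rw [zero_add, D.o0_gg0, D.o0_gg1, GData.o0_g_same, GData.o0_g_same] at hg
    unfold GData.gs at hg
    have hi := Option.some.inj (congrArg Prod.snd hg)
    rw [h3, D.toGData.o0_neg_wr] at hi
    apply D.o0_wr_ne_neg hm hm'
    have hi' : (x' + y') / 2 - D.wr ((y - x) / (2 * D.s 0)) =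
      (x' + y') / 2 - -D.wr ((y' - x') / (2 * D.s 1)) := hi
    linear_combination -hi'
  · have e : (1 : ZMod 2) + 1 = 0 := by decide
    rw [e, D.o0_gg0, D.o0_gg1, GData.o0_g_same, GData.o0_g_same] at hg
    unfold GData.gs at hg
    have hi := Option.some.inj (congrArg Prod.snd hg)
    rw [h3, D.toGData.o0_neg_wr] at hi
    apply D.o0_wr_ne_neg hm hm'
    have hi' : (x' + y') / 2 - -D.wr ((y - x) / (2 * D.s 0)) =
      (x' + y') / 2 - D.wr ((y' - x') / (2 * D.s 1)) := hi
    linear_combination hi'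

/-- the labels, for both half sets: `w z = D.wr z` or `w z = - D.wr z` -/
theorem o0_lab_cross (G : GData F) (ε τ : ZMod 2) (hs : G.s = D.s)
    (hf : ∀ d, G.o0f d = D.toGData.o0f d)
    (hw : ∀ m, G.wr m = sgn ε * D.wr m) (x y i : F) (hg : G.gc x y = (τ, some i)) :
    (τ = 1 → x + D.toGData.o0f (y - x) ≠ i + D.a0 ε 1) ∧
      (τ = 0 → x + D.toGData.o0f (y - x) ≠ i + D.a0 ε 0) := by
  have h10 : ¬ ((1 : ZMod 2) = 0) := by decide
  unfold GData.gc at hg
  by_cases hyx : y = x
  · exfalso
    rw [if_pos hyx] at hg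
    have := congrArg Prod.snd hg
    simp at this
  · rw [if_neg hyx] at hg
    obtain ⟨z, hz, hd, hdl⟩ := G.exists_dl (sub_ne_zero.2 hyx)
    rw [hdl] at hg
    have hT : T z = τ := congrArg Prod.fst hg
    have hi := Option.some.inj (congrArg Prod.snd hg)
    rw [hw, hs] at hi
    rw [← hf]
    unfold GData.o0f
    rw [hdl, hs]
    have hsg : sgn (F := F) ε = 1 ∨ sgn (F := F) ε = -1 := by
      unfold sgn
      split_ifs
      · exact Or.inl rfl
      · exact Or.inr rfl
    have hnegz : -z ≠ 0 := neg_ne_zero.2 hz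
    constructor
    · intro hτ hh
      rcases ch_cases hz with ⟨-, -, c3⟩ | ⟨c1, c2, -⟩
      · rw [hT, hτ] at c3
        exact h10 c3
      · have c1' : quadraticChar F (-z) = -1 := by rw [chi_neg D.hF]; exact c1
        unfold a0 at hh
        rw [if_neg h10] at hh
        rw [c2] at hh hi
        rcases hsg with hε | hε <;> rw [hε] at hh hi
        · apply D.h10 z c1
          have e : (if D.W z then z else -z) = D.wr z := rfl
          rw [e]
          linear_combination hh - hi
        · apply D.h10 (-z) c1'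
          have e : (if D.W (-z) then (-z) else -(-z)) = D.wr (-z) := rfl
          rw [e, D.wr_neg hz]
          linear_combination -hh + hi
    · intro hτ hh
      rcases ch_cases hz with ⟨c1, c2, -⟩ | ⟨-, -, c3⟩
      · have c1' : quadraticChar F (-z) = 1 := by rw [chi_neg D.hF]; exact c1
        unfold a0 at hh
        rw [if_pos rfl] at hh
        rw [c2] at hh hi
        rcases hsg with hε | hε <;> rw [hε] at hh hi
        · apply D.h00 z c1
          have e : (if D.W z then z else -z) = D.wr z := rfl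
          rw [e]
          linear_combination hh - hi
        · apply D.h00 (-z) c1'
          have e : (if D.W (-z) then (-z) else -(-z)) = D.wr (-z) := rfl
          rw [e, D.wr_neg hz]
          linear_combination -hh + hi
      · rw [hT, hτ] at c3
        exact h10 c3.symm

theorem o0_lab (G : GData F) (ε u v τ : ZMod 2) (hs : G.s = D.s)
    (hf : ∀ d, G.o0f d = D.toGData.o0f d) (hw : ∀ m, G.wr m = sgn ε * D.wr m)
    (x y i : F) (h1 : ((v, some y) : Pt F) ≠ (u, some x))
    (hg : G.g (u, some x) (v, some y) = (τ, some i)) :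
    D.hh0 (u, some x) (v, some y) ≠ (0, i) ∧
      (τ = 1 → D.hh0 (u, some x) (v, some y) ≠ (1, i + D.a0 ε 1)) ∧
      (τ = 0 → D.hh0 (u, some x) (v, some y) ≠ (1, i + D.a0 ε 0)) := by
  have h01 : ¬ ((0 : ZMod 2) = 1) := by decide
  have h10 : ¬ ((1 : ZMod 2) = 0) := by decide
  by_cases huv : u = v
  · subst huv
    have hxy : y ≠ x := fun h => h1 (by rw [h])
    rw [D.o0_hh_same]
    refine ⟨?_, fun _ h => h01 (congrArg Prod.fst h), fun _ h => h01 (congrArg Prod.fst h)⟩
    intro h
    have h3 : (x + y) / 2 = i := congrArg Prod.snd h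
    rw [G.o0_g_same] at hg
    unfold GData.gs at hg
    have hi := Option.some.inj (congrArg Prod.snd hg)
    have hm : (y - x) / (2 * G.s u) ≠ 0 :=
      div_ne_zero (sub_ne_zero.2 hxy) (mul_ne_zero (two_ne G.hF) (G.s_ne u))
    apply G.wr_ne hm
    linear_combination h3 - hi
  · rcases o0_z2 u with h | h <;> rcases o0_z2 v with h' | h' <;> subst h <;> subst h'
    · exact absurd rfl huv
    · rw [D.o0_hh_01]
      rw [G.o0_g_01] at hg
      obtain ⟨k1, k2⟩ := D.o0_lab_cross G ε τ hs hf hw x y i hg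
      exact ⟨fun h => h10 (congrArg Prod.fst h), fun ht h => k1 ht (congrArg Prod.snd h),
        fun ht h => k2 ht (congrArg Prod.snd h)⟩
    · rw [D.o0_hh_10]
      rw [G.o0_g_10] at hg
      obtain ⟨k1, k2⟩ := D.o0_lab_cross G ε τ hs hf hw y x i hg
      exact ⟨fun h => h10 (congrArg Prod.fst h), fun ht h => k1 ht (congrArg Prod.snd h),
        fun ht h => k2 ht (congrArg Prod.snd h)⟩
    · exact absurd rfl huv

theorem g_lab (ε u v τ : ZMod 2) (x y i : F) (h1 : ((v, some y) : Pt F) ≠ (u, some x))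
    (hg : D.gg ε (u, some x) (v, some y) = (τ, some i)) :
    D.hh0 (u, some x) (v, some y) ≠ (0, i) ∧
      (τ = 1 → D.hh0 (u, some x) (v, some y) ≠ (1, i + D.a0 ε 1)) ∧
      (τ = 0 → D.hh0 (u, some x) (v, some y) ≠ (1, i + D.a0 ε 0)) := by
  have h10 : ¬ ((1 : ZMod 2) = 0) := by decide
  rcases o0_z2 ε with h | h <;> subst h
  · rw [D.o0_gg0] at hg
    refine D.o0_lab D.toGData 0 u v τ rfl (fun _ => rfl) ?_ x y i h1 hg
    intro m
    unfold sgn
    rw [if_pos rfl, one_mul]
  · rw [D.o0_gg1] at hg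
    refine D.o0_lab D.toGData.neg 1 u v τ rfl (fun _ => rfl) ?_ x y i h1 hg
    intro m
    unfold sgn
    rw [if_neg h10, D.toGData.o0_neg_wr, neg_one_mul]

end TData

end Pool.Agent.Lib.MP_db622c_co.P5
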