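import Pool.Agent.Lib.MP_db622c_co.P5.Base

/-!
# P5-OFg: the classes of the boards form a one-factorization

Explicit partners `pg i j` of the point `j` in the class `i`:
* class `(1, none)`: `(u, x) ↔ (u + 1, x)` for all `x : Option F`;
* class `(τ, some a)`: `(u, none) ↔ (u + τ + 1, some a)`.  For `(u, some x)` with `x ≠ a` put
  `ω = 1` if `τ = 0`, `ω = -1` if `τ = 1`, `ε = ω * ch (x - a)` and
  `m = (x - a) / (1 - ε * s u)`.  Then `χ m = ω`: if `ε = 1`, `χ (1 - s u) = 1`, `χ (x - a) = ω`;
  if `ε = -1`, `χ (1 + s u) = -1`, `χ (x - a) = - ω`.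
  If `m ∈ W` the partner is `(u, some (a + m * (1 + ε * s u)))`, otherwise (`-m ∈ W`) it is
  `(u + 1, some (a + m * (1 + ω * ε * s (u + 1))))`.
The key fact is `pg (g j k) j = k` for `j ≠ k`; it gives `inj` at once
(`k = pg (g j k) j = pg (g j k') j = k'`).  Check of the key fact:
* same side, `x ≠ y`: with `m = wr ((y - x) / (2 * s u))`, `a = (x + y) / 2 - m`, we have
  `(y - x) / (2 * s u) = e * m`, `e = ±1`, `x = a + m * (1 - e * s u)`, `y = a + m * (1 + e * s u)`,
  `χ (x - a) = χ m * χ (1 - e * s u) = χ m * e`, so with `ω = χ m` (`τ = T m`): `ε = ω * χ (x - a) = e`,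
  `(x - a) / (1 - ε * s u) = m ∈ W`.
* cross edges `(0, x), (1, y)`, `y ≠ x`: `y - x = (s 1 + ch z * s 0) * z` (`exists_dl`),
  `a = x + ch z * s 0 * z + wr z`, class `T z`.  If `wr z = z`: `x = a - z * (1 + ch z * s 0)`,
  `y = a - z * (1 - s 1)`; if `wr z = -z`: `x = a + z * (1 - ch z * s 0)`, `y = a + z * (1 + s 1)`.
  So with `m' = wr z ∈ W` and `ω = χ z` the two ends are `a - m' * (1 - ε * s 0)` and
  `a - m' * (1 + ω * ε * s 1)` with `ε = -ω` resp. `ε = ω` (`ε = -ω` if `wr z = z`), and
  `χ (x - a) = ω * χ (1 - ε * s 0) = ω * ε`, so the `m` of the definition of `pg` is `-m'`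
  (not in `W`) for both ends.
* `ne`: the class is never `(0, none)` (clear); `symm`: clear from `wr_neg` and the definition
  (the values at `j = k` are symmetric trivially).
-/

namespace Pool.Agent.Lib.MP_db622c_co.P5

open Pool.Agent.Lib.MP_db622c_co Pool.Agent.Lib.MP_db622c_co.CB Pool.Agent.Lib.MP_db622c_co.P2
open Pool.Agent.Lib.MP_db622c_co.P2.PData (T ch)

variable {F : Type} [Field F] [Fintype F] [DecidableEq F]

namespace GData

variable (D : GData F)

private theorem z2 (u : ZMod 2) : u = 0 ∨ u = 1 := by revert u; decide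

private theorem gs_symm (u : ZMod 2) (x y : F) : D.gs u x y = D.gs u y x := by
  by_cases hxy : x = y
  · rw [hxy]
  · have h2 := two_ne D.hF
    have hs := D.s_ne u
    have hm : (y - x) / (2 * D.s u) ≠ 0 :=
      div_ne_zero (sub_ne_zero.2 (Ne.symm hxy)) (mul_ne_zero h2 hs)
    have h1 : (x - y) / (2 * D.s u) = -((y - x) / (2 * D.s u)) := by
      rw [← neg_div, neg_sub]
    unfold gs
    rw [h1, D.wr_neg hm, add_comm x y]

theorem g_symm (j k : Pt F) : D.g j k = D.g k j := by
  obtain ⟨u, x⟩ := j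
  obtain ⟨v, y⟩ := k
  rcases x with _ | x <;> rcases y with _ | y
  · rfl
  · simp only [g]
    rw [add_comm v u]
  · simp only [g]
    rw [add_comm v u]
  · simp only [g]
    by_cases huv : u = v
    · subst huv
      simp only [if_true]
      exact D.gs_symm u x y
    · have hvu : v ≠ u := fun h => huv h.symm
      simp only [if_neg huv, if_neg hvu]
      rcases z2 u with hu | hu <;> rcases z2 v with hv | hv
      · exact absurd (hu.trans hv.symm) huv
      · have h0 : ¬ ((1 : ZMod 2) = 0) := by decide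
        rw [hu, hv]
        simp only [if_true, if_neg h0]
      · have h0 : ¬ ((1 : ZMod 2) = 0) := by decide
        rw [hu, hv]
        simp only [if_true, if_neg h0]
      · exact absurd (hu.trans hv.symm) huv

/-- the partner of `(u, some x)` in the class `(τ, some a)` -/
private def pgs (τ : ZMod 2) (a : F) (u : ZMod 2) (x : F) : Pt F :=
  if x = a then (u + τ + 1, none)
  else
    if D.W ((x - a) / (1 - (if τ = 0 then (1 : F) else -1) * ch (x - a) * D.s u)) = true then
      (u, some (a + (x - a) / (1 - (if τ = 0 then (1 : F) else -1) * ch (x - a) * D.s u) *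
        (1 + (if τ = 0 then (1 : F) else -1) * ch (x - a) * D.s u)))
    else
      (u + 1, some (a + (x - a) / (1 - (if τ = 0 then (1 : F) else -1) * ch (x - a) * D.s u) *
        (1 + (if τ = 0 then (1 : F) else -1) * ((if τ = 0 then (1 : F) else -1) *
          ch (x - a)) * D.s (u + 1))))

/-- the partner of the second point in the class -/
private def pg : Pt F → Pt F → Pt F
  | (_, none), (u, x) => (u + 1, x)
  | (τ, some a), (u, none) => (u + τ + 1, some a)
  | (τ, some a), (u, some x) => D.pgs τ a u x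

private theorem pg_some (τ : ZMod 2) (a : F) (u : ZMod 2) (x : F) :
    D.pg (τ, some a) (u, some x) = D.pgs τ a u x := rfl

private theorem om (z : F) (hz : z ≠ 0) : (if T z = 0 then (1 : F) else -1) = ch z := by
  rcases ch_cases hz with ⟨-, h2, h3⟩ | ⟨-, h2, h3⟩
  · rw [h2, h3, if_pos rfl]
  · rw [h2, h3, if_neg (by decide)]

private theorem ch_sq {z : F} (hz : z ≠ 0) : ch z * ch z = 1 := by
  rcases ch_cases hz with ⟨-, h2, -⟩ | ⟨-, h2, -⟩ <;> rw [h2] <;> norm_num

private theorem ch_mul (x y : F) : ch (x * y) = ch x * ch y := by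
  unfold ch
  rw [map_mul]
  push_cast
  rfl

private theorem ch_neg (E : GData F) (x : F) : ch (-x) = ch x := by
  unfold ch
  rw [chi_neg E.hF]

private theorem ch_one_sub (u : ZMod 2) : ch (1 - D.s u) = 1 := by
  unfold ch; rw [D.h1 u]; norm_num

private theorem ch_one_add (u : ZMod 2) : ch (1 + D.s u) = -1 := by
  unfold ch; rw [D.h2 u]; norm_num

/-- the same side version of the partner -/
private theorem pg_W {τ u : ZMod 2} {a x e m : F} (hm : m ≠ 0) (he : 1 - e * D.s u ≠ 0)
    (hx : x - a = m * (1 - e * D.s u))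
    (hε : (if τ = 0 then (1 : F) else -1) * ch (x - a) = e) (hW : D.W m = true) :
    D.pg (τ, some a) (u, some x) = (u, some (a + m * (1 + e * D.s u))) := by
  have hxa : x ≠ a := by
    intro h
    rw [h, sub_self] at hx
    exact mul_ne_zero hm he hx.symm
  have hq : (x - a) / (1 - e * D.s u) = m := by
    rw [hx, mul_div_cancel_right₀ _ he]
  rw [pg_some]
  unfold pgs
  rw [if_neg hxa, hε, hq, if_pos hW]

private theorem pg_nW {τ u : ZMod 2} {a x e m o : F} (hm : m ≠ 0) (he : 1 - e * D.s u ≠ 0)
    (hx : x - a = m * (1 - e * D.s u)) (ho : (if τ = 0 then (1 : F) else -1) = o)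
    (hε : o * ch (x - a) = e) (hW : D.W m = false) :
    D.pg (τ, some a) (u, some x) = (u + 1, some (a + m * (1 + o * e * D.s (u + 1)))) := by
  have hxa : x ≠ a := by
    intro h
    rw [h, sub_self] at hx
    exact mul_ne_zero hm he hx.symm
  have hq : (x - a) / (1 - e * D.s u) = m := by
    rw [hx, mul_div_cancel_right₀ _ he]
  rw [pg_some]
  unfold pgs
  rw [if_neg hxa, ho, hε, hq, if_neg (by rw [hW]; decide)]

private theorem pg_gs (u : ZMod 2) {x y : F} (hxy : x ≠ y) :
    D.pg (D.gs u x y) (u, some x) = (u, some y) := by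
  have h2 := two_ne D.hF
  have hs := D.s_ne u
  have hm0 : (y - x) / (2 * D.s u) ≠ 0 :=
    div_ne_zero (sub_ne_zero.2 (Ne.symm hxy)) (mul_ne_zero h2 hs)
  obtain ⟨m0, hm0d⟩ : ∃ m0, m0 = (y - x) / (2 * D.s u) := ⟨_, rfl⟩
  have hyx : y - x = 2 * D.s u * m0 := by
    rw [hm0d]; field_simp
  unfold gs
  rw [← hm0d]
  rw [← hm0d] at hm0
  have hm : D.wr m0 ≠ 0 := D.wr_ne hm0
  have hWm := D.W_wr hm0
  have hy : y = x + 2 * D.s u * m0 := by rw [← hyx]; ring
  have hom := om (D.wr m0) hm
  have hsq := ch_sq hm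
  have hhalf : (x + y) / 2 = x + D.s u * m0 := by
    rw [hy]; field_simp; ring
  rcases D.wr_cases m0 with h | h
  · have hx : x - ((x + y) / 2 - D.wr m0) = D.wr m0 * (1 - 1 * D.s u) := by
      rw [hhalf, h]; ring
    have he : 1 - 1 * D.s u ≠ 0 := by rw [one_mul]; exact D.one_sub_ne u
    rw [D.pg_W hm he hx ?_ hWm]
    · congr 2
      rw [hhalf, h, hy]; ring
    · rw [hx, hom, ch_mul, one_mul, D.ch_one_sub, mul_one, hsq]
  · have hx : x - ((x + y) / 2 - D.wr m0) = D.wr m0 * (1 - (-1) * D.s u) := by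
      rw [hhalf, h]; ring
    have he : 1 - (-1) * D.s u ≠ 0 := by
      rw [neg_one_mul, sub_neg_eq_add]; exact D.one_add_ne u
    rw [D.pg_W hm he hx ?_ hWm]
    · congr 2
      rw [hhalf, h, hy]; ring
    · rw [hx, hom, ch_mul, neg_one_mul, sub_neg_eq_add, D.ch_one_add, ← mul_assoc, hsq, one_mul]

private theorem W_false {z : F} (hz : z ≠ 0) (h : D.wr z = -z) : D.W z = false := by
  by_contra hcon
  rw [Bool.not_eq_false] at hcon
  have h1 := D.wr_eq_self hcon
  rw [h] at h1
  have h2 := two_ne D.hF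
  apply hz
  have h3 : 2 * z = 0 := by
    calc 2 * z = z + z := by ring
      _ = z + -z := by rw [h1]
      _ = 0 := by ring
  rcases mul_eq_zero.1 h3 with h4 | h4
  · exact absurd h4 h2
  · exact h4

private theorem W_neg_false {z : F} (hz : z ≠ 0) (h : D.wr z = z) : D.W (-z) = false := by
  apply D.W_false (neg_ne_zero.2 hz)
  rw [D.wr_neg hz, h, neg_neg]

private theorem pg_gc {x y : F} :
    D.pg (D.gc x y) (0, some x) = (1, some y) ∧ D.pg (D.gc x y) (1, some y) = (0, some x) := by
  unfold gc
  by_cases hyx : y = x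
  · rw [if_pos hyx, hyx]
    constructor
    · rfl
    · rfl
  · rw [if_neg hyx]
    obtain ⟨z, hz, hd, hdl⟩ := D.exists_dl (sub_ne_zero.2 hyx)
    rw [hdl]
    have hy : y = x + (D.s 1 + ch z * D.s 0) * z := by rw [← hd]; ring
    have hom := om z hz
    have hsq := ch_sq hz
    have e01 : (0 : ZMod 2) + 1 = 1 := by decide
    have e11 : (1 : ZMod 2) + 1 = 0 := by decide
    have hc1 : ch (1 + ch z * D.s 0) = - ch z ∧ 1 + ch z * D.s 0 ≠ 0 := by
      rcases ch_cases hz with ⟨-, h2, -⟩ | ⟨-, h2, -⟩ <;> rw [h2]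
      · rw [one_mul]
        exact ⟨D.ch_one_add 0, D.one_add_ne 0⟩
      · rw [neg_one_mul, ← sub_eq_add_neg, neg_neg]
        exact ⟨D.ch_one_sub 0, D.one_sub_ne 0⟩
    have hc2 : ch (1 - ch z * D.s 0) = ch z ∧ 1 - ch z * D.s 0 ≠ 0 := by
      rcases ch_cases hz with ⟨-, h2, -⟩ | ⟨-, h2, -⟩ <;> rw [h2]
      · rw [one_mul]
        exact ⟨D.ch_one_sub 0, D.one_sub_ne 0⟩
      · rw [neg_one_mul, sub_neg_eq_add]
        exact ⟨D.ch_one_add 0, D.one_add_ne 0⟩
    rcases D.wr_cases z with h | h
    · rw [h]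
      have hW := D.W_neg_false hz h
      constructor
      · have hx : x - (x + ch z * D.s 0 * z + z) = (-z) * (1 - (-ch z) * D.s 0) := by ring
        have he : 1 - (-ch z) * D.s 0 ≠ 0 := by
          rw [neg_mul, sub_neg_eq_add]; exact hc1.2
        rw [D.pg_nW (neg_ne_zero.2 hz) he hx hom ?_ hW, e01]
        · congr 2
          rw [hy]
          linear_combination (-(z * D.s 1)) * (1 - hsq)
        · rw [hx, ch_mul, ch_neg D, neg_mul, sub_neg_eq_add, hc1.1]
          linear_combination (-ch z) * hsq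
      · have hx : y - (x + ch z * D.s 0 * z + z) = (-z) * (1 - 1 * D.s 1) := by rw [hy]; ring
        have he : 1 - 1 * D.s 1 ≠ 0 := by rw [one_mul]; exact D.one_sub_ne 1
        rw [D.pg_nW (neg_ne_zero.2 hz) he hx hom ?_ hW, e11]
        · congr 2
          ring
        · rw [hx, ch_mul, ch_neg D, one_mul, D.ch_one_sub, mul_one, hsq]
    · rw [h]
      have hW := D.W_false hz h
      constructor
      · have hx : x - (x + ch z * D.s 0 * z + -z) = z * (1 - ch z * D.s 0) := by ring
        rw [D.pg_nW hz hc2.2 hx hom ?_ hW, e01]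
        · congr 2
          rw [hy]
          linear_combination (z * D.s 1) * hsq
        · rw [hx, ch_mul, hc2.1]
          linear_combination (ch z) * hsq
      · have hx : y - (x + ch z * D.s 0 * z + -z) = z * (1 - (-1) * D.s 1) := by rw [hy]; ring
        have he : 1 - (-1) * D.s 1 ≠ 0 := by
          rw [neg_one_mul, sub_neg_eq_add]; exact D.one_add_ne 1
        rw [D.pg_nW hz he hx hom ?_ hW, e11]
        · congr 2
          ring
        · rw [hx, ch_mul, neg_one_mul, sub_neg_eq_add, D.ch_one_add, ← mul_assoc, hsq, one_mul]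

private theorem pg_g (j k : Pt F) (hjk : j ≠ k) : D.pg (D.g j k) j = k := by
  obtain ⟨u, x⟩ := j
  obtain ⟨v, y⟩ := k
  have hz2 : ∀ u v : ZMod 2, u + (u + v + 1) + 1 = v := by decide
  rcases x with _ | x <;> rcases y with _ | y
  · have huv : u ≠ v := fun h => hjk (by rw [h])
    have h1 : ∀ u v : ZMod 2, u ≠ v → u + 1 = v := by decide
    show ((u + 1, none) : Pt F) = (v, none)
    rw [h1 u v huv]
  · show ((u + (u + v + 1) + 1, some y) : Pt F) = (v, some y)
    rw [hz2]
  · show D.pg (u + v + 1, some x) (u, some x) = (v, none)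
    rw [pg_some]
    unfold pgs
    rw [if_pos rfl, hz2]
  · by_cases huv : u = v
    · subst huv
      have hxy : x ≠ y := fun h => hjk (by rw [h])
      have h1 : D.g (u, some x) (u, some y) = D.gs u x y := by
        simp only [g, if_true]
      rw [h1]
      exact D.pg_gs u hxy
    · have h10 : ¬ ((1 : ZMod 2) = 0) := by decide
      have h01 : ¬ ((0 : ZMod 2) = 1) := by decide
      rcases z2 u with hu | hu <;> rcases z2 v with hv | hv
      · exact absurd (hu.trans hv.symm) huv
      · subst hu; subst hv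
        have h1 : D.g (0, some x) (1, some y) = D.gc x y := by
          simp only [g, if_neg h01, if_true]
        rw [h1]
        exact D.pg_gc.1
      · subst hu; subst hv
        have h1 : D.g (1, some x) (0, some y) = D.gc y x := by
          simp only [g, if_neg h10]
        rw [h1]
        exact D.pg_gc.2
      · exact absurd (hu.trans hv.symm) huv

private theorem g_ne (j k : Pt F) : D.g j k ≠ 0 := by
  have h10 : (1 : ZMod 2) ≠ 0 := by decide
  have key : ∀ p : Pt F, (p.2 = none → p.1 = 1) → p ≠ 0 := by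
    intro p hp h
    rw [h] at hp
    exact h10 (hp rfl).symm
  obtain ⟨u, x⟩ := j
  obtain ⟨v, y⟩ := k
  apply key
  rcases x with _ | x <;> rcases y with _ | y
  · intro _; rfl
  · intro h; exact absurd h (by simp [g])
  · intro h; exact absurd h (by simp [g])
  · simp only [g]
    split_ifs with h1 h2
    · intro h; exact absurd h (by simp [gs])
    · unfold gc
      split_ifs with h3
      · intro _; rfl
      · intro h; exact absurd h (by simp)
    · unfold gc
      split_ifs with h3
      · intro _; rfl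
      · intro h; exact absurd h (by simp)

theorem isOF_g : IsOF D.g := by
  refine ⟨fun j k _ => D.g_ne j k, D.g_symm, ?_⟩
  intro j k k' hk hk' h
  have h1 := D.pg_g j k (Ne.symm hk)
  have h2 := D.pg_g j k' (Ne.symm hk')
  rw [← h1, ← h2, h]

end GData

end Pool.Agent.Lib.MP_db622c_co.P5
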