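import Pool.Agent.Lib.MP_db622c_co.P5.Lam
import Pool.Agent.Lib.MP_db622c_co.P5.HH

/-!
# P5-OL: `L` is orthogonal to `hh`

By `L_fin` the values of `L` are `0 = (0, none)` (pairs `k = sh (-d1) j`), or those of `gl`: `(1, none)`
(cross pairs with `x = y`), or `(τ, some i)`:
* same side `(u, x), (u, y)`: `m = (y - x) / (2 * s)`, `τ = u + T m`, `i = (x + y) / 2 - ur m`, so
  `hh = (0, i + ur m)`, and `x, y = i + ur m ∓ s * m` (`{x, y}` is determined by `i` and `ur m`,
  `ur m = ± m`), `U (ur m) = true`;
* cross `(0, x), (1, y)`, `e = (y - x) / (1 - ν) ≠ 0`, `hh = (1, x + γ * e)`: if `inH e`, `τ = 0`,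
  `i = x + e`, `hh = (1, i + (γ - 1) * e)`; otherwise `τ = 1`, `i = x - ν * e`,
  `hh = (1, i + (γ + ν) * e)`.

`L_orth`: equal `L`, `hh`.  Value `0`: both pairs are `(0, x), (1, x - d1)`, and `hh` determines `x`
(`hh = (1, x + γ * (-1))`); value `(1, none)`: `hh = (1, x)`.  Value `(τ, some i)`: both same side
(first component of `hh`): `ur m = ur m'`, `τ = u + T m = u' + T m'`, `T m = T (ur m)`
(`χ (-m) = χ m`), so `T m = T m'`, `u = u'`, `{x, y} = {x', y'}`.  Both cross: `τ = 0`:
`(γ - 1) * e = (γ - 1) * e'`, `τ = 1`: `(γ + ν) * e = (γ + ν) * e'`, so `e = e'`, `x = x'`, `y = y'`.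
`L_lab`: same side: `hh = (0, i + ur m) ≠ (0, i)` as `ur m ≠ 0`.  Cross: the fields `l0`, `l1`
(`al 0 = γ`, `al 1 = γ - 1 + ν`).
-/

namespace Pool.Agent.Lib.MP_db622c_co.P5

open Pool.Agent.Lib.MP_db622c_co Pool.Agent.Lib.MP_db622c_co.CB Pool.Agent.Lib.MP_db622c_co.P2
open Pool.Agent.Lib.MP_db622c_co.P2.PData (T ch)

variable {F : Type} [Field F] [Fintype F] [DecidableEq F]

namespace TData

variable (D : TData F)

theorem ol_U_neg {m : F} (hm : m ≠ 0) : D.U (-m) = !(D.U m) := by
  unfold U
  rw [chi_neg D.hF]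
  by_cases h : quadraticChar F m = 1
  · rw [if_pos h, if_pos h, D.hV m hm]
  · rw [if_neg h, if_neg h, neg_div, D.hV _ (div_ne_zero hm D.nu_ne.1)]

theorem ol_ur_cases (m : F) : D.ur m = m ∨ D.ur m = -m := by
  unfold ur
  by_cases h : D.U m <;> simp [h]

theorem ol_ur_ne {m : F} (h : m ≠ 0) : D.ur m ≠ 0 := by
  rcases D.ol_ur_cases m with h1 | h1 <;> rw [h1]
  · exact h
  · exact neg_ne_zero.2 h

/-- `ur` determines an element up to sign -/
theorem ol_ur_eq {m m' : F} (h : D.ur m = D.ur m') : m' = m ∨ m' = -m := by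
  rcases D.ol_ur_cases m with h1 | h1 <;> rcases D.ol_ur_cases m' with h2 | h2 <;> rw [h1, h2] at h
  · exact Or.inl h.symm
  · right; rw [h, neg_neg]
  · right; exact h.symm
  · left; exact (neg_injective h).symm

include D in
theorem ol_T_neg (m : F) : T (-m) = T m := by
  unfold T; rw [chi_neg D.hF]

theorem ol_L_symm (j k : Pt F) : D.L j k = D.L k j := D.isLam_L.symm j k

/-- the values at the pairs on the same side -/
theorem ol_same (u : ZMod 2) (x y : F) (hxy : y ≠ x) :
    ∃ m, m ≠ 0 ∧ y - x = 2 * D.s 0 * m ∧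
      D.L (u, some x) (u, some y) = (u + T m, some ((x + y) / 2 - D.ur m)) := by
  have h2 : (2 : F) ≠ 0 := two_ne D.hF
  have hs : D.s 0 ≠ 0 := D.s_ne 0
  have h2s : 2 * D.s 0 ≠ 0 := mul_ne_zero h2 hs
  refine ⟨(y - x) / (2 * D.s 0), div_ne_zero (sub_ne_zero.2 hxy) h2s, ?_, ?_⟩
  · rw [mul_div_cancel₀ _ h2s]
  · have hne : ((u, some y) : Pt F) ≠ (u, some x) := by
      intro h
      exact hxy (Option.some.inj (congrArg Prod.snd h))
    rcases D.L_fin (u, some x) (u, some y) hne with ⟨-, h⟩ | h
    · exfalso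
      have h1 := congrArg Prod.fst h
      rw [sh_fst] at h1
      exact shz_succ_ne u h1.symm
    · rw [h]
      simp only [gl, if_true]
      rfl

/-- the values at the pairs on different sides -/
theorem ol_cross (x y : F) :
    (D.L (0, some x) (1, some y) = (0, none) ∧ y = x - D.d1) ∨
    (D.L (0, some x) (1, some y) = (1, none) ∧ y = x) ∨
    (∃ e, e ≠ 0 ∧ y = x + (1 - D.ν) * e ∧
      ((D.inH e = true ∧ D.L (0, some x) (1, some y) = (0, some (x + e))) ∨
       (D.inH e = false ∧ D.L (0, some x) (1, some y) = (1, some (x - D.ν * e))))) := by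
  have n01 : ¬ ((0 : ZMod 2) = 1) := by decide
  have hne : ((1, some y) : Pt F) ≠ (0, some x) := by
    intro h
    exact n01 (congrArg Prod.fst h).symm
  rcases D.L_fin (0, some x) (1, some y) hne with ⟨h, h'⟩ | h
  · left
    refine ⟨h, ?_⟩
    simp only [sh, if_true] at h'
    have h1 := Option.some.inj (congrArg Prod.snd h')
    rw [h1, ← sub_eq_add_neg]
  · right
    have h1 : D.gl (0, some x) (1, some y) = D.glc x y := by
      simp only [gl, if_neg n01, if_true]
    rw [h, h1]
    unfold glc
    by_cases hxy : y = x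
    · left
      rw [if_pos hxy]
      exact ⟨rfl, hxy⟩
    · right
      rw [if_neg hxy]
      refine ⟨(y - x) / (1 - D.ν), div_ne_zero (sub_ne_zero.2 hxy) D.nu_ne.2, ?_, ?_⟩
      · rw [mul_div_cancel₀ _ D.nu_ne.2]
        ring
      · cases hH : D.inH ((y - x) / (1 - D.ν))
        · right
          exact ⟨rfl, by simp⟩
        · left
          exact ⟨rfl, by simp⟩

theorem ol_hh_same (u : ZMod 2) (x y : F) :
    D.hh (u, some x) (u, some y) = (0, (x + y) / 2) := by
  simp only [hh, if_true]

theorem ol_hh_cross (x y : F) :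
    D.hh (0, some x) (1, some y) = (1, x + D.γ * ((y - x) / (1 - D.ν))) := by
  have n01 : ¬ ((0 : ZMod 2) = 1) := by decide
  simp only [hh, if_neg n01, if_true]

theorem ol_hh_cross' (x y e : F) (hy : y = x + (1 - D.ν) * e) :
    D.hh (0, some x) (1, some y) = (1, x + D.γ * e) := by
  rw [ol_hh_cross, hy, add_sub_cancel_left, mul_div_cancel_left₀ _ D.nu_ne.2]

theorem ol_orth_same (u u' : ZMod 2) (x y x' y' : F) (h1 : y ≠ x) (h1' : y' ≠ x')
    (hL : D.L (u, some x) (u, some y) = D.L (u', some x') (u', some y'))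
    (hh : D.hh (u, some x) (u, some y) = D.hh (u', some x') (u', some y')) :
    SP ((u, some x) : Pt F) (u, some y) (u', some x') (u', some y') := by
  have h2 : (2 : F) ≠ 0 := two_ne D.hF
  obtain ⟨m, hm, hxy, hLm⟩ := D.ol_same u x y h1
  obtain ⟨m', hm', hxy', hLm'⟩ := D.ol_same u' x' y' h1'
  rw [hLm, hLm'] at hL
  rw [ol_hh_same, ol_hh_same] at hh
  have e1 : (x + y) / 2 = (x' + y') / 2 := congrArg Prod.snd hh
  have e2 : u + T m = u' + T m' := congrArg Prod.fst hL
  have e3 : (x + y) / 2 - D.ur m = (x' + y') / 2 - D.ur m' :=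
    Option.some.inj (congrArg Prod.snd hL)
  rw [e1] at e3
  have e4 : D.ur m = D.ur m' := sub_right_injective e3
  have e5 : x + y = x' + y' := by
    have := congrArg (fun t => t * 2) e1
    simpa only [div_mul_cancel₀ _ h2] using this
  rcases D.ol_ur_eq e4 with h | h
  · have e6 : y - x = y' - x' := by rw [hxy, hxy', h]
    have e7 : 2 * (y - y') = 0 := by linear_combination e5 + e6
    have e8 : y = y' := sub_eq_zero.1 ((mul_eq_zero.1 e7).resolve_left h2)
    have e9 : x = x' := by
      rw [e8] at e5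
      exact add_right_cancel e5
    have e10 : u = u' := by
      rw [h] at e2
      exact add_right_cancel e2
    left
    rw [e8, e9, e10]
    exact ⟨rfl, rfl⟩
  · have e6 : y - x = -(y' - x') := by rw [hxy, hxy', h]; ring
    have e7 : 2 * (y - x') = 0 := by linear_combination e5 + e6
    have e8 : y = x' := sub_eq_zero.1 ((mul_eq_zero.1 e7).resolve_left h2)
    have e9 : x = y' := by
      rw [e8, add_comm x' y'] at e5
      exact add_right_cancel e5
    have e10 : u = u' := by
      rw [h, ol_T_neg D] at e2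
      exact add_right_cancel e2
    right
    rw [e8, e9, e10]
    exact ⟨rfl, rfl⟩

theorem ol_orth_cross (x y x' y' : F)
    (hL : D.L (0, some x) (1, some y) = D.L (0, some x') (1, some y'))
    (hh : D.hh (0, some x) (1, some y) = D.hh (0, some x') (1, some y')) :
    x' = x ∧ y' = y := by
  have n01 : ¬ ((0 : ZMod 2) = 1) := by decide
  rcases D.ol_cross x y with ⟨h, hy⟩ | ⟨h, hy⟩ | ⟨e, he, hy, hH⟩
  · rcases D.ol_cross x' y' with ⟨h', hy'⟩ | ⟨h', hy'⟩ | ⟨e', he', hy', hH'⟩
    · have k : y = x + (1 - D.ν) * (-1) := by rw [hy]; unfold d1; ring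
      have k' : y' = x' + (1 - D.ν) * (-1) := by rw [hy']; unfold d1; ring
      rw [D.ol_hh_cross' x y _ k, D.ol_hh_cross' x' y' _ k'] at hh
      have e1 : x + D.γ * (-1) = x' + D.γ * (-1) := congrArg Prod.snd hh
      have e2 := add_right_cancel e1
      rw [hy, hy', e2]
      exact ⟨rfl, rfl⟩
    · exfalso
      rw [h, h'] at hL
      exact n01 (congrArg Prod.fst hL)
    · exfalso
      rcases hH' with ⟨-, h'⟩ | ⟨-, h'⟩ <;> rw [h, h'] at hL <;>
        exact Option.noConfusion rfl (heq_of_eq (congrArg Prod.snd hL))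
  · rcases D.ol_cross x' y' with ⟨h', hy'⟩ | ⟨h', hy'⟩ | ⟨e', he', hy', hH'⟩
    · exfalso
      rw [h, h'] at hL
      exact n01 (congrArg Prod.fst hL).symm
    · have k : y = x + (1 - D.ν) * 0 := by rw [hy]; ring
      have k' : y' = x' + (1 - D.ν) * 0 := by rw [hy']; ring
      rw [D.ol_hh_cross' x y _ k, D.ol_hh_cross' x' y' _ k'] at hh
      have e1 : x + D.γ * 0 = x' + D.γ * 0 := congrArg Prod.snd hh
      have e2 := add_right_cancel e1
      rw [hy, hy', e2]
      exact ⟨rfl, rfl⟩
    · exfalso
      rcases hH' with ⟨-, h'⟩ | ⟨-, h'⟩ <;> rw [h, h'] at hL <;>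
        exact Option.noConfusion rfl (heq_of_eq (congrArg Prod.snd hL))
  · rcases D.ol_cross x' y' with ⟨h', hy'⟩ | ⟨h', hy'⟩ | ⟨e', he', hy', hH'⟩
    · exfalso
      rcases hH with ⟨-, h⟩ | ⟨-, h⟩ <;> rw [h, h'] at hL <;>
        exact Option.noConfusion rfl (heq_of_eq (congrArg Prod.snd hL))
    · exfalso
      rcases hH with ⟨-, h⟩ | ⟨-, h⟩ <;> rw [h, h'] at hL <;>
        exact Option.noConfusion rfl (heq_of_eq (congrArg Prod.snd hL))
    · rw [D.ol_hh_cross' x y _ hy, D.ol_hh_cross' x' y' _ hy'] at hh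
      have e1 : x + D.γ * e = x' + D.γ * e' := congrArg Prod.snd hh
      rcases hH with ⟨-, h⟩ | ⟨-, h⟩
      · rcases hH' with ⟨-, h'⟩ | ⟨-, h'⟩
        · rw [h, h'] at hL
          have e2 : x + e = x' + e' := Option.some.inj (congrArg Prod.snd hL)
          have e3 : (D.γ - 1) * (e - e') = 0 := by linear_combination e1 - e2
          have e4 : e = e' := sub_eq_zero.1 ((mul_eq_zero.1 e3).resolve_left D.hγ1)
          have e5 : x = x' := by
            rw [e4] at e2
            exact add_right_cancel e2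
          rw [hy, hy', e4, e5]
          exact ⟨rfl, rfl⟩
        · exfalso
          rw [h, h'] at hL
          exact n01 (congrArg Prod.fst hL)
      · rcases hH' with ⟨-, h'⟩ | ⟨-, h'⟩
        · exfalso
          rw [h, h'] at hL
          exact n01 (congrArg Prod.fst hL).symm
        · rw [h, h'] at hL
          have e2 : x - D.ν * e = x' - D.ν * e' := Option.some.inj (congrArg Prod.snd hL)
          have e3 : (D.γ + D.ν) * (e - e') = 0 := by linear_combination e1 - e2
          have e4 : e = e' := sub_eq_zero.1 ((mul_eq_zero.1 e3).resolve_left D.hγν)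
          have e5 : x = x' := by
            rw [e4] at e2
            exact sub_left_injective e2
          rw [hy, hy', e4, e5]
          exact ⟨rfl, rfl⟩

theorem L_orth (u v u' v' : ZMod 2) (x y x' y' : F)
    (h1 : ((v, some y) : Pt F) ≠ (u, some x)) (h1' : ((v', some y') : Pt F) ≠ (u', some x'))
    (hL : D.L (u, some x) (v, some y) = D.L (u', some x') (v', some y'))
    (hh : D.hh (u, some x) (v, some y) = D.hh (u', some x') (v', some y')) :
    SP ((u, some x) : Pt F) (v, some y) (u', some x') (v', some y') := by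
  have hf : u + v = u' + v' := by
    rw [← D.hh_fst u v x y, ← D.hh_fst u' v' x' y', hh]
  by_cases huv : v = u
  · have huv' : v' = u' := by
      revert hf huv
      revert u v u' v'
      intro u v u' v' _ _ _ _ hf huv
      clear * - hf huv
      revert u v u' v'
      decide
    subst huv
    subst huv'
    refine D.ol_orth_same v v' x y x' y' ?_ ?_ hL hh
    · intro h
      exact h1 (by rw [h])
    · intro h
      exact h1' (by rw [h])
  · have huv' : v' ≠ u' := by
      clear * - hf huv
      revert u v u' v'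
      decide
    rcases shz_cases u with hu | hu <;> rcases shz_cases u' with hu' | hu'
    · have hv : v = 1 := by rw [shz_other huv, hu]; decide
      have hv' : v' = 1 := by rw [shz_other huv', hu']; decide
      subst hu hu' hv hv'
      obtain ⟨a, b⟩ := D.ol_orth_cross x y x' y' hL hh
      left
      rw [a, b]
      exact ⟨rfl, rfl⟩
    · have hv : v = 1 := by rw [shz_other huv, hu]; decide
      have hv' : v' = 0 := by rw [shz_other huv', hu']; decide
      subst hu hu' hv hv'
      rw [D.ol_L_symm (1, some x') (0, some y')] at hL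
      rw [D.hh_symm (1, some x') (0, some y')] at hh
      obtain ⟨a, b⟩ := D.ol_orth_cross x y y' x' hL hh
      right
      rw [a, b]
      exact ⟨rfl, rfl⟩
    · have hv : v = 0 := by rw [shz_other huv, hu]; decide
      have hv' : v' = 1 := by rw [shz_other huv', hu']; decide
      subst hu hu' hv hv'
      rw [D.ol_L_symm (1, some x) (0, some y)] at hL
      rw [D.hh_symm (1, some x) (0, some y)] at hh
      obtain ⟨a, b⟩ := D.ol_orth_cross y x x' y' hL hh
      right
      rw [a, b]
      exact ⟨rfl, rfl⟩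
    · have hv : v = 0 := by rw [shz_other huv, hu]; decide
      have hv' : v' = 0 := by rw [shz_other huv', hu']; decide
      subst hu hu' hv hv'
      rw [D.ol_L_symm (1, some x) (0, some y), D.ol_L_symm (1, some x') (0, some y')] at hL
      rw [D.hh_symm (1, some x) (0, some y), D.hh_symm (1, some x') (0, some y')] at hh
      obtain ⟨a, b⟩ := D.ol_orth_cross y x y' x' hL hh
      left
      rw [a, b]
      exact ⟨rfl, rfl⟩

theorem ol_lab_same (u τ : ZMod 2) (x y i : F) (h1 : y ≠ x)
    (hL : D.L (u, some x) (u, some y) = (τ, some i)) :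
    D.hh (u, some x) (u, some y) ≠ (0, i) ∧ ∀ u', D.hh (u, some x) (u, some y) ≠ (1, i + D.al u') := by
  have n01 : ¬ ((0 : ZMod 2) = 1) := by decide
  obtain ⟨m, hm, hxy, hLm⟩ := D.ol_same u x y h1
  rw [hLm] at hL
  rw [ol_hh_same]
  constructor
  · intro h
    have e1 : (x + y) / 2 = i := congrArg Prod.snd h
    have e2 : (x + y) / 2 - D.ur m = i := Option.some.inj (congrArg Prod.snd hL)
    rw [e1] at e2
    exact D.ol_ur_ne hm (sub_eq_self.1 e2)
  · intro u' h
    exact n01 (congrArg Prod.fst h)

theorem ol_lab_cross (τ : ZMod 2) (x y i : F)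
    (hL : D.L (0, some x) (1, some y) = (τ, some i)) :
    D.hh (0, some x) (1, some y) ≠ (0, i) ∧ ∀ u', D.hh (0, some x) (1, some y) ≠ (1, i + D.al u') := by
  have n01 : ¬ ((0 : ZMod 2) = 1) := by decide
  rcases D.ol_cross x y with ⟨h, hy⟩ | ⟨h, hy⟩ | ⟨e, he, hy, hH⟩
  · exfalso
    rw [h] at hL
    exact Option.noConfusion rfl (heq_of_eq (congrArg Prod.snd hL))
  · exfalso
    rw [h] at hL
    exact Option.noConfusion rfl (heq_of_eq (congrArg Prod.snd hL))
  · rw [D.ol_hh_cross' x y _ hy]
    constructor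
    · intro h
      exact n01 (congrArg Prod.fst h).symm
    · intro u' h
      have e1 : x + D.γ * e = i + D.al u' := congrArg Prod.snd h
      have hal : D.al u' = D.γ ∨ D.al u' = D.γ - 1 + D.ν := by
        unfold al
        by_cases hu : u' = 0
        · left; rw [if_pos hu]
        · right; rw [if_neg hu]
      rcases hH with ⟨hin, h'⟩ | ⟨hin, h'⟩
      · rw [h'] at hL
        have e2 : x + e = i := Option.some.inj (congrArg Prod.snd hL)
        have e3 : (D.γ - 1) * e = D.al u' := by linear_combination e1 - e2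
        obtain ⟨l1, l2⟩ := D.l0 e he hin
        rcases hal with h3 | h3 <;> rw [h3] at e3
        · exact l1 e3
        · exact l2 e3
      · rw [h'] at hL
        have e2 : x - D.ν * e = i := Option.some.inj (congrArg Prod.snd hL)
        have e3 : (D.γ + D.ν) * e = D.al u' := by linear_combination e1 - e2
        obtain ⟨l1, l2⟩ := D.l1 e he hin
        rcases hal with h3 | h3 <;> rw [h3] at e3
        · exact l1 e3
        · exact l2 e3

theorem L_lab (u v τ : ZMod 2) (x y i : F) (h1 : ((v, some y) : Pt F) ≠ (u, some x))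
    (hL : D.L (u, some x) (v, some y) = (τ, some i)) :
    D.hh (u, some x) (v, some y) ≠ (0, i) ∧ ∀ u', D.hh (u, some x) (v, some y) ≠ (1, i + D.al u') := by
  by_cases huv : v = u
  · subst huv
    refine D.ol_lab_same v τ x y i ?_ hL
    intro h
    exact h1 (by rw [h])
  · rcases shz_cases u with hu | hu
    · have hv : v = 1 := by rw [shz_other huv, hu]; decide
      subst hu hv
      exact D.ol_lab_cross τ x y i hL
    · have hv : v = 0 := by rw [shz_other huv, hu]; decide
      subst hu hv
      rw [D.ol_L_symm (1, some x) (0, some y)] at hL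
      rw [D.hh_symm (1, some x) (0, some y)]
      exact D.ol_lab_cross τ y x i hL

end TData

end Pool.Agent.Lib.MP_db622c_co.P5
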