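import Pool.Agent.Lib.MP_db622c_co.P5.ROF
import Pool.Agent.Lib.MP_db622c_co.P5.Amp
import Pool.Agent.Lib.MP_db622c_co.P5.OL
import Pool.Agent.Lib.MP_db622c_co.P5.O0

/-!
# P5-OrF: orthogonality, pairs of finite points

Write `j = (u, some a)`, `k = (v, some b)`, `j' = (u', some a')`, `k' = (v', some b')`.
If both pairs have `NBf`:
* `x = y`, `x' = y'` (the first component of the board is `0`; `amp_ne`):
  `gg (φ x) j k = gg (φ x') j' k'`, `hh0 j k = hh0 j' k'`, `x + shf u v = x' + shf u' v'`.
  `hh0_fst`: `u + v = u' + v'`.  If `u + v = 1`: `shf = 0` twice, `x = x'`, `g_orth` gives `SP`, and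
  the conclusion (`x' = x = y`).  If `u = v`, `u' = v'`: if `u = u'` again `x = x'` and `g_orth`; if
  `u ≠ u'`: `x' = x + c`, `φ x' = φ x + 1` (`φc`), contradiction by `g_cross` (with the side `0` pair
  first).
* `x ≠ y`, `x' ≠ y'`: `L j k = L j' k'`, `hh j k = hh j' k'`, `L_orth`: `SP j k j' k'`; `amp_SP`:
  `x + y = x' + y' = w`; `shf` is the same, so `x + t j k * w = x' + t j' k' * w`.  If
  `(j', k') = (j, k)`: `x = x'`, `y = y'`.  If `(j', k') = (k, j)`: `t k j = 1 + t j k`
  (`j ≠ k` by `NBf`), so `x' = x + w = y`.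
If exactly one has `NBf`: `Sum.inr ≠ Sum.inl`.  If none: `Blk` and `orth_blk` (see `P5/OrA.lean`; not
needed here: the theorem assumes the first pair has `NBf`).
-/

namespace Pool.Agent.Lib.MP_db622c_co.P5

open Pool.Agent.Lib.MP_db622c_co Pool.Agent.Lib.MP_db622c_co.CB Pool.Agent.Lib.MP_db622c_co.P2
open Pool.Agent.Lib.MP_db622c_co.P2.PData (T ch)

variable {F : Type} [Field F] [Fintype F] [DecidableEq F]

variable {K : Type} [Field K] [DecidableEq K] [CharP K 2] (D : TData F) (E : KData K)

private theorem of_xy_ne {x y : K} (h : x ≠ y) : x + y ≠ 0 := fun hc => h (eq_of_add_eq_zero hc)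

private theorem of_nsb_eq (x : K) (j k : Pt F) : nsb D E x j x k = (0, D.gg (E.φ x) j k) := by
  unfold nsb; rw [if_pos rfl]

private theorem of_nsb_neq {x y : K} (h : x ≠ y) (j k : Pt F) :
    nsb D E x j y k = (amp D E j k (x + y), D.L j k) := by
  unfold nsb; rw [if_neg h]

private theorem of_fir {t : Pt F → Pt F → K} {x y x' y' : K} {j k j' k' : Pt F}
    (hn : NBf D E x j y k) (hr : fir D E t x j y k = fir D E t x' j' y' k') :
    NBf D E x' j' y' k' ∧
      x + t j k * (x + y) + shf E j.1 k.1 = x' + t j' k' * (x' + y') + shf E j'.1 k'.1 ∧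
      (if x = y then D.hh0 j k else D.hh j k) = (if x' = y' then D.hh0 j' k' else D.hh j' k') := by
  unfold fir at hr
  rw [if_pos hn] at hr
  by_cases hn' : NBf D E x' j' y' k'
  · rw [if_pos hn'] at hr
    have h1 := Sum.inr.inj hr
    exact ⟨hn', (Prod.mk.inj h1).1, (Prod.mk.inj h1).2⟩
  · rw [if_neg hn'] at hr
    exact (Sum.inr_ne_inl hr).elim

private theorem of_zadd (a b c d : ZMod 2) (h : a + b = c + d) (h1 : a = b) : c = d := by
  revert a b c d; decide

private theorem of_zadd' (a b c d : ZMod 2) (h : a + b = c + d) (h1 : a ≠ b) : c ≠ d := by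
  revert a b c d; decide

private theorem of_shf_ne (E : KData K) (u v : ZMod 2) (h : u ≠ v) : shf E u v = 0 := by
  unfold shf
  rw [if_neg]
  rintro ⟨h1, h2⟩
  exact h (h1.trans h2.symm)

private theorem of_shf0 (E : KData K) : shf E 0 0 = 0 := by
  unfold shf
  rw [if_neg]
  rintro ⟨h1, -⟩
  exact absurd h1 (by decide)

private theorem of_shf1 (E : KData K) : shf E 1 1 = E.c := by
  unfold shf
  rw [if_pos ⟨rfl, rfl⟩]

private theorem of_z01 (u : ZMod 2) : u = 0 ∨ u = 1 := by revert u; decide

/-- the case `x = y`, `x' = y'` -/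
private theorem orth_ff_eq (x x' : K) (u v u' v' : ZMod 2) (a b a' b' : F)
    (hne : ((v, some b) : Pt F) ≠ (u, some a)) (hne' : ((v', some b') : Pt F) ≠ (u', some a'))
    (hg : D.gg (E.φ x) (u, some a) (v, some b) = D.gg (E.φ x') (u', some a') (v', some b'))
    (hx : x + shf E u v = x' + shf E u' v')
    (hh : D.hh0 (u, some a) (v, some b) = D.hh0 (u', some a') (v', some b')) :
    x' = x ∧ ((u', some a') = ((u, some a) : Pt F) ∨ (u', some a') = ((v, some b) : Pt F)) := by
  have hf : u + v = u' + v' := by
    rw [← D.hh0_fst u v a b, ← D.hh0_fst u' v' a' b', hh]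
  by_cases huv : u = v
  · have huv' : u' = v' := of_zadd _ _ _ _ hf huv
    by_cases huu : u' = u
    · have hxx : x' = x := by
        rw [← huv', huu, ← huv] at hx
        exact (add_right_cancel hx).symm
      rw [hxx] at hg
      refine ⟨hxx, ?_⟩
      rcases D.g_orth (E.φ x) u v u' v' a b a' b' hne hne' (fun _ => huu) hg hh with h | h
      · exact Or.inl h.1
      · exact Or.inr h.1
    · exfalso
      subst huv
      subst huv'
      have hφ : E.φ x' = E.φ x + 1 := by
        rcases of_z01 u with h0 | h0 <;> rcases of_z01 u' with h1 | h1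
        · exact absurd (h1.trans h0.symm) huu
        · subst h0; subst h1
          rw [of_shf0, of_shf1, add_zero] at hx
          rw [hx, map_add, E.φc]
          generalize E.φ x' = e
          revert e; decide
        · subst h0; subst h1
          rw [of_shf0, of_shf1, add_zero] at hx
          rw [← hx, map_add, E.φc]
        · exact absurd (h1.trans h0.symm) huu
      have hφ' : E.φ x = E.φ x' + 1 := by
        rw [hφ]
        generalize E.φ x = e
        revert e; decide
      have hab : b ≠ a := fun h => hne (by rw [h])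
      have hab' : b' ≠ a' := fun h => hne' (by rw [h])
      rcases of_z01 u with h0 | h0 <;> rcases of_z01 u' with h1 | h1
      · exact huu (h1.trans h0.symm)
      · subst h0; subst h1
        rw [hφ] at hg
        exact D.g_cross (E.φ x) a b a' b' hab hab' hg hh
      · subst h0; subst h1
        rw [hφ'] at hg
        exact D.g_cross (E.φ x') a' b' a b hab' hab hg.symm hh.symm
      · exact huu (h1.trans h0.symm)
  · have huv' : u' ≠ v' := of_zadd' _ _ _ _ hf huv
    have hxx : x' = x := by
      rw [of_shf_ne E u v huv, of_shf_ne E u' v' huv', add_zero, add_zero] at hx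
      exact hx.symm
    rw [hxx] at hg
    refine ⟨hxx, ?_⟩
    rcases D.g_orth (E.φ x) u v u' v' a b a' b' hne hne' (fun h => absurd h huv) hg hh with h | h
    · exact Or.inl h.1
    · exact Or.inr h.1

theorem orth_ff {t : Pt F → Pt F → K} (ta : ∀ j k, j ≠ k → t k j = 1 + t j k)
    (x y x' y' : K) (u v u' v' : ZMod 2) (a b a' b' : F)
    (hne : (x, ((u, some a) : Pt F)) ≠ (y, (v, some b)))
    (hne' : (x', ((u', some a') : Pt F)) ≠ (y', (v', some b')))
    (hn : NBf D E x (u, some a) y (v, some b))
    (hg : nsb D E x (u, some a) y (v, some b) = nsb D E x' (u', some a') y' (v', some b'))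
    (hr : fir D E t x (u, some a) y (v, some b) = fir D E t x' (u', some a') y' (v', some b')) :
    (x', ((u', some a') : Pt F)) = (x, (u, some a)) ∨
      (x', ((u', some a') : Pt F)) = (y, (v, some b)) := by
  obtain ⟨hn', hx, hh⟩ := of_fir D E hn hr
  dsimp only at hx
  by_cases hxy : x = y
  · subst hxy
    by_cases hxy' : x' = y'
    · subst hxy'
      rw [of_nsb_eq, of_nsb_eq] at hg
      rw [if_pos rfl, if_pos rfl] at hh
      rw [CB.add_self, CB.add_self, mul_zero, mul_zero, add_zero, add_zero] at hx
      have hne1 : ((v, some b) : Pt F) ≠ (u, some a) := fun h => hne (by rw [h])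
      have hne1' : ((v', some b') : Pt F) ≠ (u', some a') := fun h => hne' (by rw [h])
      obtain ⟨h1, h2⟩ := orth_ff_eq D E x x' u v u' v' a b a' b' hne1 hne1' (Prod.mk.inj hg).2 hx hh
      rcases h2 with h2 | h2
      · left; rw [h1, h2]
      · right; rw [h1, h2]
    · rw [of_nsb_eq, of_nsb_neq D E hxy'] at hg
      exact absurd (Prod.mk.inj hg).1.symm (amp_ne D E _ _ (of_xy_ne hxy'))
  · by_cases hxy' : x' = y'
    · subst hxy'
      rw [of_nsb_eq, of_nsb_neq D E hxy] at hg
      exact absurd (Prod.mk.inj hg).1 (amp_ne D E _ _ (of_xy_ne hxy))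
    · rw [of_nsb_neq D E hxy, of_nsb_neq D E hxy'] at hg
      rw [if_neg hxy, if_neg hxy'] at hh
      obtain ⟨hA, hL⟩ := Prod.mk.inj hg
      unfold NBf at hn hn'
      rw [if_neg hxy] at hn
      rw [if_neg hxy'] at hn'
      have hS := D.L_orth u v u' v' a b a' b' hn.1 hn'.1 hL hh
      have hw : x + y = x' + y' := amp_SP D E (of_xy_ne hxy) (of_xy_ne hxy') hS hA
      rw [← hw] at hx
      rcases hS with ⟨h1, h2⟩ | ⟨h1, h2⟩
      · left
        have hu : u' = u := (Prod.mk.inj h1).1
        have hv : v' = v := (Prod.mk.inj h2).1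
        rw [h1, h2, hu, hv] at hx
        have h3 : x = x' := add_right_cancel (add_right_cancel hx)
        rw [h1, h3]
      · right
        have hu : u' = v := (Prod.mk.inj h1).1
        have hv : v' = u := (Prod.mk.inj h2).1
        have hsh : shf E u' v' = shf E u v := by
          rw [hu, hv]
          unfold shf
          simp only [and_comm]
        rw [hsh, h1, h2, ta _ _ (fun h => hn.1 h.symm)] at hx
        have h3 := add_right_cancel hx
        have h4 : x' = y := by
          have h5 : x' + (1 + t (u, some a) (v, some b)) * (x + y) =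
              (x' + (x + y)) + t (u, some a) (v, some b) * (x + y) := by ring
          rw [h5] at h3
          have h6 : x = x' + (x + y) := add_right_cancel h3
          have h7 : x' = x + (x + y) := by
            conv_rhs => rw [h6]
            have : x' + (x + y) + (x' + (x + y) + y) = x' + ((x' + (x + y)) + ((x + y) + y)) := by ring
            calc x' = x' := rfl
              _ = x' + (x + y) + (x + y) := by rw [add_assoc, CB.add_self, add_zero]
              _ = x' + (x + y) + (x' + (x + y) + y) := by rw [← h6]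
          rw [h7, CB.add_add_self]
        rw [h1, h4]

end Pool.Agent.Lib.MP_db622c_co.P5
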