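import Pool.Agent.Lib.MP_db622c_co.P5.ROF
import Pool.Agent.Lib.MP_db622c_co.P5.Amp
import Pool.Agent.Lib.MP_db622c_co.P5.OL
import Pool.Agent.Lib.MP_db622c_co.P5.O0

/-!
# P5-OrS: orthogonality, pairs with an infinite point

`orth_ss`: `spb` equal: `i = i'` and `bK (X + Y) = bK (X' + Y')`, so `X + Y = X' + Y' = z`
(`bK_inj`).  `spr` equal: the second component of `X + Λ z` is `0` iff that of `X' + Λ z` is (first
entry of the last component), and the first components agree, so `X = X'`, hence `Y = Y'`.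

`orth_sf`: suppose the board of the special pair, `(κ, (τ, some i))`, `(κ, τ) = bK z`,
`z = (x, u) + (y, v)`, is that of the finite pair `(x', j'), (y', k')`, `NBf`, and that the rounds
agree.
* `κ = 0`, i.e. `x' = y'` (`amp_ne`): by `bK_zero` `z = 0`, `τ = 1` or `z = (1, 1)`, `τ = 0`.
  `z = 0`: `X + Λ z = X` (`Λ_zero`), so the round is `(x, (0, i))` (`u = 0`) or
  `(x, (1, i + a0 (φ x) 1))` (`u = 1`).  `z = (1, 1)`: `X + Λ z = (x, u + 1)` (`Λ_one`), so the round is
  `(x, (0, i))` (`u = 1`) or `(x, (1, i + a0 (φ x) 0))` (`u = 0`).  The finite pair has round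
  `(x' + 0 + shf, hh0 j' k')` and `gg (φ x') j' k' = (τ, some i)`.  By `g_lab` the `(0, i)` is
  impossible; for `(1, _)`: the sides of `j'`, `k'` are different (`hh0_fst`), `shf = 0`, `x' = x`,
  and `g_lab` again.
* `κ ≠ 0`, `x' ≠ y'`: `L j' k' = (τ, some i)`; `z ≠ 0`, `z ≠ (1, 1)` (their `bK` has first component
  `0`), so `(Λ z).1 ≠ 0` (`Λ_fst`), the first component of `X + Λ z` is not `x`, and the round is
  `(ρ, (0, i))` or `(ρ, (1, i + al u))`: impossible by `L_lab` (`k' ≠ j'` by `NBf`).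
-/

namespace Pool.Agent.Lib.MP_db622c_co.P5

open Pool.Agent.Lib.MP_db622c_co Pool.Agent.Lib.MP_db622c_co.CB Pool.Agent.Lib.MP_db622c_co.P2
open Pool.Agent.Lib.MP_db622c_co.P2.PData (T ch)

variable {F : Type} [Field F] [Fintype F] [DecidableEq F]

variable {K : Type} [Field K] [DecidableEq K] [CharP K 2] (D : TData F) (E : KData K)

private theorem z2c (u : ZMod 2) : u = 0 ∨ u = 1 := by
  fin_cases u
  · left; rfl
  · right; rfl

private theorem spr_cases (x y : K) (u v : ZMod 2) (i : F) (W : K × ZMod 2)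
    (hW : (x, u) + E.Λ ((x, u) + (y, v)) = W) :
    (W.2 = 0 ∧ spr D E x u y v i = Sum.inr (W.1, (0, i))) ∨
      (W.2 = 1 ∧ spr D E x u y v i =
        Sum.inr (W.1, (1, i + (if W.1 = x then D.a0 (E.φ x) u else D.al u)))) := by
  rcases z2c W.2 with h | h
  · left
    refine ⟨h, ?_⟩
    unfold spr
    rw [hW, if_pos h]
  · right
    refine ⟨h, ?_⟩
    unfold spr
    rw [hW, if_neg (by rw [h]; decide)]

theorem orth_ss (x y x' y' : K) (u v u' v' : ZMod 2) (i i' : F)
    (hg : spb x u y v i = spb x' u' y' v' i') (hr : spr D E x u y v i = spr D E x' u' y' v' i') :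
    x' = x ∧ u' = u ∧ y' = y ∧ v' = v ∧ i' = i := by
  unfold spb at hg
  rw [Prod.mk.injEq, Prod.mk.injEq, Option.some.injEq] at hg
  obtain ⟨hg1, hg2, hi⟩ := hg
  have hz : ((x, u) : K × ZMod 2) + (y, v) = (x', u') + (y', v') :=
    bK_inj (Prod.ext hg1 hg2)
  have hW : (((x, u) : K × ZMod 2) + E.Λ ((x, u) + (y, v))) =
      (x', u') + E.Λ ((x', u') + (y', v')) := by
    rcases spr_cases D E x y u v i _ rfl with ⟨h1, h2⟩ | ⟨h1, h2⟩ <;>
      rcases spr_cases D E x' y' u' v' i' _ rfl with ⟨h3, h4⟩ | ⟨h3, h4⟩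
    · rw [h2, h4, Sum.inr.injEq, Prod.mk.injEq] at hr
      exact Prod.ext hr.1 (h1.trans h3.symm)
    · rw [h2, h4, Sum.inr.injEq, Prod.mk.injEq, Prod.mk.injEq] at hr
      exact absurd hr.2.1 (by decide)
    · rw [h2, h4, Sum.inr.injEq, Prod.mk.injEq, Prod.mk.injEq] at hr
      exact absurd hr.2.1 (by decide)
    · rw [h2, h4, Sum.inr.injEq, Prod.mk.injEq] at hr
      exact Prod.ext hr.1 (h1.trans h3.symm)
  rw [← hz] at hW
  have hX : ((x, u) : K × ZMod 2) = (x', u') := add_right_cancel hW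
  rw [hX] at hz
  have hY : ((y, v) : K × ZMod 2) = (y', v') := add_left_cancel hz
  rw [Prod.mk.injEq] at hX hY
  exact ⟨hX.1.symm, hX.2.symm, hY.1.symm, hY.2.symm, hi.symm⟩

theorem orth_sf (t : Pt F → Pt F → K) (x y x' y' : K) (u v u' v' : ZMod 2) (i a b : F)
    (hne : (x', ((u', some a) : Pt F)) ≠ (y', (v', some b)))
    (hg : spb x u y v i = nsb D E x' (u', some a) y' (v', some b)) :
    spr D E x u y v i ≠ fir D E t x' (u', some a) y' (v', some b) := by
  intro hr
  have hNB : NBf D E x' ((u', some a) : Pt F) y' (v', some b) := by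
    by_contra hcon
    have h1 : fir D E t x' ((u', some a) : Pt F) y' (v', some b) =
        Sum.inl (E.rK (x', u') (y', v')) := by
      unfold fir
      rw [if_neg hcon]
    rw [h1] at hr
    rcases spr_cases D E x y u v i _ rfl with ⟨_, h2⟩ | ⟨_, h2⟩
    · rw [h2] at hr
      exact absurd hr (by simp)
    · rw [h2] at hr
      exact absurd hr (by simp)
  have hfir : fir D E t x' ((u', some a) : Pt F) y' (v', some b) =
      Sum.inr (x' + t (u', some a) (v', some b) * (x' + y') + shf E u' v',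
        if x' = y' then D.hh0 (u', some a) (v', some b) else D.hh (u', some a) (v', some b)) := by
    unfold fir
    rw [if_pos hNB]
  rw [hfir] at hr
  obtain ⟨z, hz⟩ : ∃ z : K × ZMod 2, (x, u) + (y, v) = z := ⟨_, rfl⟩
  unfold spb nsb at hg
  rw [hz] at hg
  by_cases hxy : x' = y'
  · subst hxy
    have h1 : ((v', some b) : Pt F) ≠ (u', some a) := by
      intro h
      exact hne (by rw [h])
    rw [if_pos rfl, Prod.mk.injEq] at hg
    obtain ⟨hg1, hg2⟩ := hg
    obtain ⟨l1, l2, l3⟩ := D.g_lab (E.φ x') u' v' (bK z).2 a b i h1 hg2.symm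
    rw [if_pos rfl] at hr
    have key : ∀ e : F, x = x' + t (u', some a) (v', some b) * (x' + x') + shf E u' v' →
        ((1 : ZMod 2), e) = D.hh0 (u', some a) (v', some b) → x = x' := by
      intro e h2 h3
      have h4 := D.hh0_fst u' v' a b
      rw [← h3] at h4
      have h5 : shf E u' v' = 0 := by
        unfold shf
        rw [if_neg]
        rintro ⟨h6, h7⟩
        rw [h6, h7] at h4
        have h8 : (1 : ZMod 2) = 1 + 1 := h4
        exact absurd h8 (by decide)
      rw [h5, CharTwo.add_self_eq_zero, mul_zero, add_zero, add_zero] at h2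
      exact h2
    rcases bK_zero hg1 with ⟨hz0, hτ⟩ | ⟨hz1, hτ⟩
    · have hW : ((x, u) : K × ZMod 2) + E.Λ ((x, u) + (y, v)) = (x, u) := by
        rw [hz, hz0, Λ_zero E, add_zero]
      rcases spr_cases D E x y u v i _ hW with ⟨_, h2⟩ | ⟨h1, h2⟩
      · rw [h2, Sum.inr.injEq, Prod.mk.injEq] at hr
        exact l1 hr.2.symm
      · rw [h2, if_pos rfl, Sum.inr.injEq, Prod.mk.injEq] at hr
        have hx := key _ hr.1 hr.2
        have hu : u = 1 := h1
        rw [hx, hu] at hr
        exact l2 hτ hr.2.symm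
    · have hW : ((x, u) : K × ZMod 2) + E.Λ ((x, u) + (y, v)) = (x, u + 1) := by
        rw [hz, hz1, E.Λ_one, Prod.mk_add_mk, add_zero]
      rcases spr_cases D E x y u v i _ hW with ⟨_, h2⟩ | ⟨h1, h2⟩
      · rw [h2, Sum.inr.injEq, Prod.mk.injEq] at hr
        exact l1 hr.2.symm
      · rw [h2, if_pos rfl, Sum.inr.injEq, Prod.mk.injEq] at hr
        have hx := key _ hr.1 hr.2
        have hu : u = 0 := by
          have h3 : u + 1 = 1 := h1
          simpa using h3
        rw [hx, hu] at hr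
        exact l3 hτ hr.2.symm
  · rw [if_neg hxy, Prod.mk.injEq] at hg
    obtain ⟨hg1, hg2⟩ := hg
    rw [if_neg hxy] at hr
    have hk : ((v', some b) : Pt F) ≠ (u', some a) := by
      unfold NBf at hNB
      rw [if_neg hxy] at hNB
      exact hNB.1
    obtain ⟨l1, l2⟩ := D.L_lab u' v' (bK z).2 a b i hk hg2.symm
    have hw : x' + y' ≠ 0 := by
      intro h
      exact hxy (CharTwo.add_eq_zero.1 h)
    have hb : (bK z).1 ≠ 0 := by
      rw [hg1]
      exact amp_ne D E _ _ hw
    have hΛ : (E.Λ z).1 ≠ 0 := by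
      intro h
      rcases Λ_fst E h with h0 | h0
      · apply hb
        rw [h0]
        unfold bK
        simp
      · apply hb
        rw [h0]
        unfold bK
        simp
    have hWx : (((x, u) : K × ZMod 2) + E.Λ ((x, u) + (y, v))).1 ≠ x := by
      rw [hz]
      show x + (E.Λ z).1 ≠ x
      intro h
      exact hΛ (by simpa using h)
    rcases spr_cases D E x y u v i _ rfl with ⟨_, h2⟩ | ⟨_, h2⟩
    · rw [h2, Sum.inr.injEq, Prod.mk.injEq] at hr
      exact l1 hr.2.symm
    · rw [h2, if_neg hWx, Sum.inr.injEq, Prod.mk.injEq] at hr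
      exact l2 u hr.2.symm

end Pool.Agent.Lib.MP_db622c_co.P5
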