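import Pool.Agent.Lib.MP_db622c_co.P5.OrA
import Pool.Agent.Lib.MP_db622c_co.P5.OrS
import Pool.Agent.Lib.MP_db622c_co.P5.OrF
import Pool.Agent.Lib.MP_db622c_co.P5.GOF

/-!
# P5-Or: the boards and the rounds are orthogonal

Case analysis on the four points `P, Q, P', Q'` (finite or infinite).  The pair `P, Q` is special
(one finite, one infinite point; board `spb`, round `spr`, an `Sum.inr`), or both points are finite
or both infinite (board `nsb`, round `fir` resp. `Sum.inl (rK ..)`).
* both special: `orth_ss` (after exchanging the two points of a pair: `G`, `R` have the same value);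
* one special, the other finite: `orth_sf`; one special, the other infinite: `Sum.inr ≠ Sum.inl`
  (`spr` is always an `Sum.inr`);
* both not special: if one of them is finite with `NBf`: `orth_ff` if both are finite (if only the
  second has `NBf`, then `fir` of the first is `Sum.inl`, contradiction; likewise if the other is
  infinite); otherwise both are `Blk` (`Blk_of_not_NBf`, `Blk_none`), `orth_blk`.
-/

namespace Pool.Agent.Lib.MP_db622c_co.P5

open Pool.Agent.Lib.MP_db622c_co Pool.Agent.Lib.MP_db622c_co.CB Pool.Agent.Lib.MP_db622c_co.P2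
open Pool.Agent.Lib.MP_db622c_co.P2.PData (T ch)

variable {F : Type} [Field F] [Fintype F] [DecidableEq F]

variable {K : Type} [Field K] [DecidableEq K] [CharP K 2] (D : TData F) (E : KData K)

private theorem or_spr_ne_inl (x : K) (u : ZMod 2) (y : K) (v : ZMod 2) (i : F)
    (c : K × ZMod 2) : spr D E x u y v i ≠ Sum.inl c := by
  unfold spr
  split_ifs <;> exact Sum.inr_ne_inl

private theorem fir_pos {t : Pt F → Pt F → K} {x y : K} {j k : Pt F} (h : NBf D E x j y k) :
    ∃ c, fir D E t x j y k = Sum.inr c := by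
  unfold fir
  rw [if_pos h]
  exact ⟨_, rfl⟩

private theorem fir_neg {t : Pt F → Pt F → K} {x y : K} {j k : Pt F} (h : ¬ NBf D E x j y k) :
    fir D E t x j y k = Sum.inl (E.rK (x, j.1) (y, k.1)) := by
  unfold fir
  rw [if_neg h]

/-- infinite pair against finite pair -/
private theorem orth_nf (t : Pt F → Pt F → K) (x y x' y' : K) (u v u' v' : ZMod 2) (a' b' : F)
    (hne : (x, ((u, none) : Pt F)) ≠ (y, (v, none)))
    (hr : (Sum.inl (E.rK (x, u) (y, v)) : (K × ZMod 2) ⊕ (K × (ZMod 2 × F))) =
      fir D E t x' (u', some a') y' (v', some b')) :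
    Blk D E x (u, none) y (v, none) ∧ Blk D E x' (u', some a') y' (v', some b') ∧
      E.rK (x, u) (y, v) = E.rK (x', u') (y', v') := by
  have hb : Blk D E x (u, none) y (v, none) := Blk_none D E x y u v hne
  by_cases hn : NBf D E x' (u', some a') y' (v', some b')
  · obtain ⟨c, hc⟩ := fir_pos D E (t := t) hn
    rw [hc] at hr
    exact (Sum.inl_ne_inr hr).elim
  · rw [fir_neg D E hn] at hr
    exact ⟨hb, Blk_of_not_NBf D E x' y' _ _ hn, Sum.inl.inj hr⟩

theorem isOrth_GR {t : Pt F → Pt F → K} (ta : ∀ j k, j ≠ k → t k j = 1 + t j k) :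
    IsOrth (G D E) (R D E t) := by
  rintro ⟨x, u, s⟩ ⟨y, v, q⟩ ⟨x', u', s'⟩ ⟨y', v', q'⟩ hne hne' hg hr
  rcases s with _ | a <;> rcases q with _ | b <;> rcases s' with _ | a' <;> rcases q' with _ | b'
  -- infinite, infinite
  · exact orth_blk D E x y x' y' (u, none) (v, none) (u', none) (v', none) hne hne'
      (Blk_none D E x y u v hne) (Blk_none D E x' y' u' v' hne') hg (Sum.inl.inj hr)
  · exact absurd (Eq.symm hr) (or_spr_ne_inl D E y' v' x' u' b' _)
  · exact absurd (Eq.symm hr) (or_spr_ne_inl D E x' u' y' v' a' _)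
  · obtain ⟨h1, h2, h3⟩ := orth_nf D E t x y x' y' u v u' v' a' b' hne hr
    exact orth_blk D E x y x' y' (u, none) (v, none) (u', some a') (v', some b') hne hne'
      h1 h2 hg h3
  -- infinite, finite
  · exact absurd hr (or_spr_ne_inl D E y v x u b _)
  · obtain ⟨h1, h2, h3, h4, h5⟩ := orth_ss D E y x y' x' v u v' u' b b' hg hr
    left
    rw [h3, h4]
  · obtain ⟨h1, h2, h3, h4, h5⟩ := orth_ss D E y x x' y' v u u' v' b a' hg hr
    right
    rw [h1, h2, h5]
  · exact absurd hr (orth_sf D E t y x x' y' v u u' v' b a' b' hne' hg)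
  -- finite, infinite
  · exact absurd hr (or_spr_ne_inl D E x u y v a _)
  · obtain ⟨h1, h2, h3, h4, h5⟩ := orth_ss D E x y y' x' u v v' u' a b' hg hr
    right
    rw [h3, h4]
  · obtain ⟨h1, h2, h3, h4, h5⟩ := orth_ss D E x y x' y' u v u' v' a a' hg hr
    left
    rw [h1, h2, h5]
  · exact absurd hr (orth_sf D E t x y x' y' u v u' v' a a' b' hne' hg)
  -- finite, finite
  · obtain ⟨h1, h2, h3⟩ := orth_nf D E t x' y' x y u' v' u v a b hne' hr.symm
    exact orth_blk D E x y x' y' (u, some a) (v, some b) (u', none) (v', none) hne hne'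
      h2 h1 hg h3.symm
  · exact absurd hr.symm (orth_sf D E t y' x' x y v' u' u v b' a b hne hg.symm)
  · exact absurd hr.symm (orth_sf D E t x' y' x y u' v' u v a' a b hne hg.symm)
  · by_cases hn : NBf D E x (u, some a) y (v, some b)
    · exact orth_ff D E ta x y x' y' u v u' v' a b a' b' hne hne' hn hg hr
    · by_cases hn' : NBf D E x' (u', some a') y' (v', some b')
      · have hr' : fir D E t x (u, some a) y (v, some b) =
            fir D E t x' (u', some a') y' (v', some b') := hr
        obtain ⟨c, hc⟩ := fir_pos D E (t := t) hn'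
        rw [hc, fir_neg D E hn] at hr'
        exact (Sum.inl_ne_inr hr').elim
      · have hr' : fir D E t x (u, some a) y (v, some b) =
            fir D E t x' (u', some a') y' (v', some b') := hr
        rw [fir_neg D E hn, fir_neg D E hn'] at hr'
        exact orth_blk D E x y x' y' (u, some a) (v, some b) (u', some a') (v', some b') hne hne'
          (Blk_of_not_NBf D E x y _ _ hn) (Blk_of_not_NBf D E x' y' _ _ hn') hg (Sum.inl.inj hr')

end Pool.Agent.Lib.MP_db622c_co.P5
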