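import Pool.Agent.Lib.MP_db622c_co.P5.ROF
import Pool.Agent.Lib.MP_db622c_co.P5.Amp

/-!
# P5-OrA: orthogonality inside the blocks

`Blk` as in `P5/ROF.lean`.  Write `X = (x, j.1)`, `Y = (y, k.1)`, `X' = ..`, `Y' = ..`; `b = X + Y`.
First, both `x = y` and `x' = y'` or both not: the first component of `nsb` is `0` iff `x = y`
(`amp_ne`).
* `x = y`, `x' = y'`: `k = sh (d0 (φ x)) j`, so `b = (0, 1) = X' + Y'` (`sh_fst`).  By `rm`
  (`Y = X + b`, `Y' = X' + b`), `X' = X` or `X' = X + b`; in both cases `x' = x`.  So
  `gg ε j (sh _ j) = gg ε j' (sh _ j')` with the same `ε`, `isRB_gg`: `j' = j` or `j' = sh _ j = k`.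
* `x ≠ y`, `x' ≠ y'`: as in the second half of `isOrth_rd1` in `CB/Prod.lean`, with `hL = isLam_L`,
  `μ = sh d1`, `side = Prod.fst`: `k ∈ {j, sh d1 j}`, `k' ∈ {j', sh d1 j'}`, `L j k = L j' k'`,
  `amp j k (x + y) = amp j' k' (x' + y')`.  `l3` excludes the mixed cases.  `k = j`, `k' = j'`:
  `amp_diag`, so `x + y = x' + y'`, `b` is the same, `j' = j` or the side of `j'` is the other one
  (`l1`); `rm` gives `X' = X` or `X' = Y`.  `k = sh d1 j`, `k' = sh d1 j'`: `l2`: `j' = j` or
  `j' = sh d1 j`, so `SP j k j' k'`, `amp_SP`: `x + y = x' + y'`; `rm`.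
-/

namespace Pool.Agent.Lib.MP_db622c_co.P5

open Pool.Agent.Lib.MP_db622c_co Pool.Agent.Lib.MP_db622c_co.CB Pool.Agent.Lib.MP_db622c_co.P2
open Pool.Agent.Lib.MP_db622c_co.P2.PData (T ch)

variable {F : Type} [Field F] [Fintype F] [DecidableEq F]

variable {K : Type} [Field K] [DecidableEq K] [CharP K 2] (D : TData F) (E : KData K)

private theorem xy_ne {x y : K} (h : x ≠ y) : x + y ≠ 0 := fun hc => h (eq_of_add_eq_zero hc)

private theorem nsb_eq (x : K) (j k : Pt F) : nsb D E x j x k = (0, D.gg (E.φ x) j k) := by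
  unfold nsb; rw [if_pos rfl]

private theorem nsb_neq {x y : K} (h : x ≠ y) (j k : Pt F) :
    nsb D E x j y k = (amp D E j k (x + y), D.L j k) := by
  unfold nsb; rw [if_neg h]

private theorem key (x y x' y' : K) (u v u' v' e : ZMod 2) (he : v = u + e) (he' : v' = u' + e)
    (hw : x + y = x' + y') (hne : (x, u) ≠ (y, v)) (hr : E.rK (x, u) (y, v) = E.rK (x', u') (y', v')) :
    (x', u') = (x, u) ∨ (x', u') = (y, v) := by
  have h4 : (y, v) = (x, u) + (x + y, e) := by
    refine Prod.ext ?_ he
    show y = x + (x + y)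
    rw [CB.add_add_self]
  have h5 : (y', v') = (x', u') + (x + y, e) := by
    refine Prod.ext ?_ he'
    show y' = x' + (x + y)
    rw [hw, CB.add_add_self]
  have hb : (x + y, e) ≠ (0 : K × ZMod 2) := by
    intro hc
    rw [hc, add_zero] at h4
    exact hne h4.symm
  rw [h4, h5] at hr
  rw [h4]
  exact E.rm _ hb _ _ hr

theorem orth_blk (x y x' y' : K) (j k j' k' : Pt F) (hne : (x, j) ≠ (y, k))
    (hne' : (x', j') ≠ (y', k')) (hb : Blk D E x j y k) (hb' : Blk D E x' j' y' k')
    (hg : nsb D E x j y k = nsb D E x' j' y' k')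
    (hr : E.rK (x, j.1) (y, k.1) = E.rK (x', j'.1) (y', k'.1)) :
    (x', j') = (x, j) ∨ (x', j') = (y, k) := by
  have hs := shz_succ_ne
  by_cases hxy : x = y
  · subst hxy
    by_cases hxy' : x' = y'
    · subst hxy'
      unfold Blk at hb hb'
      rw [if_pos rfl] at hb hb'
      rw [nsb_eq, nsb_eq] at hg
      have hg2 := (Prod.mk.inj hg).2
      have hk1 : k.1 = j.1 + 1 := by rw [hb, sh_fst]
      have hk1' : k'.1 = j'.1 + 1 := by rw [hb', sh_fst]
      have hx : x' = x := by
        rcases key E x x x' x' j.1 k.1 j'.1 k'.1 1 hk1 hk1' (by rw [CB.add_self, CB.add_self])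
          (by
            intro hc
            have h1 := (Prod.mk.inj hc).2
            rw [hk1] at h1
            exact hs _ h1.symm) hr with h | h
        · exact (Prod.mk.inj h).1
        · exact (Prod.mk.inj h).1
      subst hx
      rw [hb, hb'] at hg2
      rcases (D.isRB_gg (E.φ x')).rb j j' hg2 with h | h
      · left; rw [h]
      · right; rw [h, hb]
    · rw [nsb_eq, nsb_neq D E hxy'] at hg
      exact absurd (Prod.mk.inj hg).1.symm (amp_ne D E j' k' (xy_ne hxy'))
  · by_cases hxy' : x' = y'
    · subst hxy'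
      rw [nsb_eq, nsb_neq D E hxy] at hg
      exact absurd (Prod.mk.inj hg).1 (amp_ne D E j k (xy_ne hxy))
    · unfold Blk at hb hb'
      rw [if_neg hxy] at hb
      rw [if_neg hxy'] at hb'
      rw [nsb_neq D E hxy, nsb_neq D E hxy'] at hg
      obtain ⟨ha, hl⟩ := Prod.mk.inj hg
      have hL := D.isLam_L
      rcases hb with hb | hb <;> rcases hb' with hb' | hb'
      · subst hb; subst hb'
        rw [amp_diag, amp_diag, div_eq_div_iff (xy_ne hxy) (xy_ne hxy')] at ha
        have hw : x + y = x' + y' := (mul_left_cancel₀ E.hc0 ha).symm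
        have hj : k' = k ∨ k'.1 = k.1 + 1 := by
          by_cases h : k' = k
          · exact Or.inl h
          · exact Or.inr (hL.l1 _ _ hl (fun hh => h hh.symm))
        have hk := key E x y x' y' k.1 k.1 k'.1 k'.1 0 (by rw [add_zero]) (by rw [add_zero]) hw
          (by intro hc; exact hxy (Prod.mk.inj hc).1) hr
        rcases hj with hj | hj
        · subst hj
          rcases hk with hk | hk
          · left; rw [(Prod.mk.inj hk).1]
          · right; rw [(Prod.mk.inj hk).1]
        · exfalso
          rcases hk with hk | hk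
          · have h1 := (Prod.mk.inj hk).2
            rw [hj] at h1
            exact hs _ h1
          · have h1 := (Prod.mk.inj hk).2
            rw [hj] at h1
            exact hs _ h1
      · subst hb; subst hb'
        exact absurd hl (hL.l3 _ _)
      · subst hb; subst hb'
        exact absurd hl.symm (hL.l3 _ _)
      · have hk1 : k.1 = j.1 + 1 := by rw [hb, sh_fst]
        have hk1' : k'.1 = j'.1 + 1 := by rw [hb', sh_fst]
        have hj : j' = j ∨ j' = sh D.d1 j := by
          rw [hb, hb'] at hl
          exact hL.l2 _ _ hl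
        have hsp : SP j k j' k' := by
          rcases hj with hj | hj
          · left; exact ⟨hj, by rw [hb', hb, hj]⟩
          · right; exact ⟨by rw [hj, hb], by rw [hb', hj, sh_inv]⟩
        have hw : x + y = x' + y' := amp_SP D E (xy_ne hxy) (xy_ne hxy') hsp ha
        have hk := key E x y x' y' j.1 k.1 j'.1 k'.1 1 hk1 hk1' hw
          (by intro hc; exact hxy (Prod.mk.inj hc).1) hr
        rcases hj with hj | hj
        · rcases hk with hk | hk
          · left; rw [(Prod.mk.inj hk).1, hj]
          · exfalso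
            have h1 := (Prod.mk.inj hk).2
            rw [hj, hk1] at h1
            exact hs _ h1.symm
        · have hjk : j' = k := by rw [hj, hb]
          rcases hk with hk | hk
          · exfalso
            have h1 := (Prod.mk.inj hk).2
            rw [hjk, hk1] at h1
            exact hs _ h1
          · right; rw [(Prod.mk.inj hk).1, hjk]

end Pool.Agent.Lib.MP_db622c_co.P5
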