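import Pool.Agent.Lib.MP_db622c_co.P5.HH
import Pool.Agent.Lib.MP_db622c_co.P5.KL
import Pool.Agent.Lib.MP_db622c_co.P5.Sh

/-!
# P5-ROF: the rounds form a one-factorization

The zero is `Sum.inl 0` (`zM1`).  Hypotheses on `t`: `t k j = 1 + t j k` for `j ≠ k`, `t j k ≠ 0`.
* `ne`: `Sum.inr` values are nonzero; `Sum.inl (rK (x, u) (y, v))`: `r0` and `(x, u) ≠ (y, v)`:
  infinite points: clear; finite points with `¬ NBf`: `x = y`: `k = sh _ j` has the other side
  (`sh_fst`); `x ≠ y`: clear.
* `symm`: `spr` is used with the finite point first; `rs`; `fir`: `NBf` is symmetric (`sh_inv`,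
  characteristic two is not needed), and `x + t j k * (x + y) = y + t k j * (y + x)`:
  for `j ≠ k` `label_symm`; for `j = k` we have `x = y` (as `NBf`), and `t * (x + y) = 0`.
  `shf`, `hh0`, `hh` symmetric.
* `inj`: fix `P = (x, j)`, `Q = (y, k)`, `Q' = (y', k')`, both `≠ P`.
  - both `Sum.inl`: `ri`, giving `y = y'` and the same side; the points are determined by `P`, `y` and
    the side: infinite points clear; finite points with `¬ NBf`: `x = y`: `k = sh (d0 (φ x)) j`;
    `x ≠ y`: `k = j` (same side as `j`) or `k = sh d1 j` (the other side).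
  - `Sum.inr`, `P` finite, `j = (u, some i)`: `Q`, `Q'` finite with `NBf`: first the second components:
    `hh0_fst`, `hh_fst` give the same side of `k`, `k'`, so `shf` is the same.  `x = y` iff
    `x + t j k * (x + y) = x` (`t ≠ 0`), so `x = y` iff `x = y'`.  If `x = y = y'`: `hh0_inj`.
    Otherwise `hh_inj` gives `k = k'` and then `t j k * (x + y) = t j k * (x + y')`, `y = y'`.
    `Q` finite, `Q'` infinite: the round of `Q'` is `(ρ, (0, i))` or `(ρ, (1, i + lab))` with
    `lab = a0 (φ x) u` if `ρ = x`, `al u` otherwise.  `hh_lab`, `hh0_lab` exclude this: if `x = y` and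
    the round of `Q` has first part `ρ = x + 0 + shf`; for the case `(1, _)` we have `shf = 0` (the
    sides are different, `hh0_fst`), so `ρ = x` and `hh0_lab` (`NBf` says `k ≠ sh (d0 (φ x)) j`);
    if `x ≠ y`: `ρ = x + t * (x + y) ≠ x`, `hh_lab`.
    `Q`, `Q'` infinite: both have the same `(X + Λ (X + Y))` (the second component is `0` iff the
    first entry of the last component is `0`; else `1`), `Λ_inj₁`.
  - `P` infinite, `Q`, `Q'` finite: `X + Λ (X + Y) = X' + Λ (X' + Y)`, `Λ_inj₂`, so `X = X'`; then the
    labels agree and `i = i'`.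
  - `P` infinite, `Q` infinite (`inl`), `Q'` finite (`inr`): different.
-/

namespace Pool.Agent.Lib.MP_db622c_co.P5

open Pool.Agent.Lib.MP_db622c_co Pool.Agent.Lib.MP_db622c_co.CB Pool.Agent.Lib.MP_db622c_co.P2
open Pool.Agent.Lib.MP_db622c_co.P2.PData (T ch)

variable {F : Type} [Field F] [Fintype F] [DecidableEq F]

variable {K : Type} [Field K] [DecidableEq K] [CharP K 2] (D : TData F) (E : KData K)

theorem NBf_symm (x y : K) (j k : Pt F) (h : NBf D E x j y k) : NBf D E y k x j := by
  unfold NBf at h ⊢
  by_cases hxy : x = y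
  · subst hxy
    rw [if_pos rfl] at h ⊢
    intro h1
    apply h
    rw [h1, sh_inv]
  · rw [if_neg hxy] at h
    rw [if_neg (Ne.symm hxy)]
    refine ⟨h.1.symm, fun h1 => h.2 ?_⟩
    rw [h1, sh_inv]

private theorem shf_comm' (u v : ZMod 2) : shf E u v = shf E v u := by
  unfold shf
  by_cases h : u = 1 ∧ v = 1
  · rw [if_pos h, if_pos h.symm]
  · rw [if_neg h, if_neg (fun h1 => h h1.symm)]

private theorem fir_pos {t : Pt F → Pt F → K} {x : K} {j : Pt F} {y : K} {k : Pt F}
    (h : NBf D E x j y k) : fir D E t x j y k =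
      Sum.inr (x + t j k * (x + y) + shf E j.1 k.1, if x = y then D.hh0 j k else D.hh j k) := by
  unfold fir
  rw [if_pos h]

private theorem fir_neg {t : Pt F → Pt F → K} {x : K} {j : Pt F} {y : K} {k : Pt F}
    (h : ¬ NBf D E x j y k) : fir D E t x j y k = Sum.inl (E.rK (x, j.1) (y, k.1)) := by
  unfold fir
  rw [if_neg h]

theorem fir_symm {t : Pt F → Pt F → K} (ta : ∀ j k, j ≠ k → t k j = 1 + t j k) (x y : K)
    (j k : Pt F) (h : (x, j) ≠ (y, k)) : fir D E t x j y k = fir D E t y k x j := by
  by_cases hn : NBf D E x j y k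
  · rw [fir_pos D E hn, fir_pos D E (NBf_symm D E x y j k hn), shf_comm' E k.1 j.1]
    by_cases hxy : x = y
    · subst hxy
      rw [if_pos rfl, if_pos rfl, D.hh0_symm j k, CharTwo.add_self_eq_zero, mul_zero, mul_zero]
    · rw [if_neg hxy, if_neg (Ne.symm hxy), D.hh_symm j k]
      have hjk : j ≠ k := by
        unfold NBf at hn
        rw [if_neg hxy] at hn
        exact hn.1.symm
      have h1 : x + t j k * (x + y) = y + t k j * (y + x) := by
        rw [ta j k hjk]
        have h2 : y + y = 0 := CharTwo.add_self_eq_zero y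
        linear_combination (-1 : K) * h2
      rw [h1]
  · have hn' : ¬ NBf D E y k x j := fun h1 => hn (NBf_symm D E y x k j h1)
    rw [fir_neg D E hn, fir_neg D E hn', E.rs]

/-- the pair of points is in a block -/
def Blk (x : K) (j : Pt F) (y : K) (k : Pt F) : Prop :=
  if x = y then k = sh (D.d0 (E.φ x)) j else k = j ∨ k = sh D.d1 j

theorem Blk_of_not_NBf (x y : K) (j k : Pt F) (h : ¬ NBf D E x j y k) : Blk D E x j y k := by
  unfold NBf at h
  unfold Blk
  by_cases hxy : x = y
  · rw [if_pos hxy] at h ⊢
    exact not_not.1 h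
  · rw [if_neg hxy] at h ⊢
    by_cases h1 : k = j
    · exact Or.inl h1
    · right
      by_contra h2
      exact h ⟨h1, h2⟩

theorem Blk_none (x y : K) (u v : ZMod 2) (h : (x, ((u, none) : Pt F)) ≠ (y, (v, none))) :
    Blk D E x (u, none) y (v, none) := by
  unfold Blk
  by_cases hxy : x = y
  · rw [if_pos hxy]
    have huv : v ≠ u := by
      intro h1
      apply h
      rw [hxy, h1]
    rw [shz_other huv]
    rfl
  · rw [if_neg hxy]
    by_cases huv : v = u
    · left; rw [huv]
    · right
      rw [shz_other huv]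
      rfl

/-- a block pair has different sides at the same level -/
private theorem Blk_ne {x y : K} {j k : Pt F} (h : Blk D E x j y k) : (y, k.1) ≠ (x, j.1) := by
  intro h1
  have h2 : y = x := congrArg Prod.fst h1
  have h3 : k.1 = j.1 := congrArg Prod.snd h1
  unfold Blk at h
  rw [if_pos h2.symm] at h
  rw [h, sh_fst] at h3
  exact shz_succ_ne _ h3

/-- in a block a point is determined by its level and its side -/
private theorem Blk_eq {x y : K} {j k k' : Pt F} (h : Blk D E x j y k) (h' : Blk D E x j y k')
    (hk : k.1 = k'.1) : k = k' := by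
  unfold Blk at h h'
  by_cases hxy : x = y
  · rw [if_pos hxy] at h h'
    rw [h, h']
  · rw [if_neg hxy] at h h'
    rcases h with h | h <;> rcases h' with h' | h'
    · rw [h, h']
    · exfalso
      rw [h, h', sh_fst] at hk
      exact shz_succ_ne _ hk.symm
    · exfalso
      rw [h, h', sh_fst] at hk
      exact shz_succ_ne _ hk
    · rw [h, h']

private theorem spr_ne_inl (x : K) (u : ZMod 2) (y : K) (v : ZMod 2) (i : F) (c : K × ZMod 2) :
    spr D E x u y v i ≠ Sum.inl c := by
  unfold spr
  split_ifs <;> simp

/-- a round of the first kind -/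
private theorem R_inl {t : Pt F → Pt F → K} {x : K} {j : Pt F} {y : K} {k : Pt F} {c : K × ZMod 2}
    (hne : (x, j) ≠ (y, k)) (h : R D E t (x, j) (y, k) = Sum.inl c) :
    c = E.rK (x, j.1) (y, k.1) ∧ Blk D E x j y k := by
  obtain ⟨u, o⟩ := j
  obtain ⟨v, o'⟩ := k
  cases o with
  | none =>
    cases o' with
    | none =>
      have h1 : Sum.inl (E.rK (x, u) (y, v)) = (Sum.inl c : (K × ZMod 2) ⊕ (K × (ZMod 2 × F))) := h
      exact ⟨(Sum.inl.inj h1).symm, Blk_none D E x y u v hne⟩
    | some i =>
      exact absurd h (spr_ne_inl D E y v x u i c)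
  | some i =>
    cases o' with
    | none => exact absurd h (spr_ne_inl D E x u y v i c)
    | some i' =>
      have h1 : fir D E t x (u, some i) y (v, some i') = Sum.inl c := h
      by_cases hn : NBf D E x (u, some i) y (v, some i')
      · rw [fir_pos D E hn] at h1
        exact absurd h1 (by simp)
      · rw [fir_neg D E hn] at h1
        exact ⟨(Sum.inl.inj h1).symm, Blk_of_not_NBf D E x y _ _ hn⟩

/-- the round of a mixed pair: its first component and the type -/
private theorem spr_eq {x : K} {u : ZMod 2} {y : K} {v : ZMod 2} {i : F} {ρ : K} {τ : ZMod 2} {m : F}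
    (h : spr D E x u y v i = Sum.inr (ρ, (τ, m))) :
    (x, u) + E.Λ ((x, u) + (y, v)) = (ρ, τ) ∧
      (τ = 0 → m = i) ∧ (τ = 1 → m = i + (if ρ = x then D.a0 (E.φ x) u else D.al u)) := by
  have n10 : ¬ ((1 : ZMod 2) = 0) := by decide
  unfold spr at h
  by_cases hz : ((x, u) + E.Λ ((x, u) + (y, v))).2 = 0
  · rw [if_pos hz] at h
    have h1 := Sum.inr.inj h
    have h2 : ((x, u) + E.Λ ((x, u) + (y, v))).1 = ρ := congrArg Prod.fst h1
    have h3 : (0 : ZMod 2) = τ := congrArg (fun p => p.2.1) h1
    have h4 : i = m := congrArg (fun p => p.2.2) h1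
    refine ⟨Prod.ext h2 (hz.trans h3), fun _ => h4.symm, fun h5 => ?_⟩
    rw [h5] at h3
    exact absurd h3.symm n10
  · rw [if_neg hz] at h
    have h1 := Sum.inr.inj h
    have h2 : ((x, u) + E.Λ ((x, u) + (y, v))).1 = ρ := congrArg Prod.fst h1
    have h3 : (1 : ZMod 2) = τ := congrArg (fun p => p.2.1) h1
    have h4 := congrArg (fun p => p.2.2) h1
    simp only at h4
    rw [h2] at h4
    have h5 : ((x, u) + E.Λ ((x, u) + (y, v))).2 = 1 := by
      rcases shz_cases ((x, u) + E.Λ ((x, u) + (y, v))).2 with h6 | h6
      · exact absurd h6 hz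
      · exact h6
    refine ⟨Prod.ext h2 (h5.trans h3), fun h6 => ?_, fun _ => h4.symm⟩
    rw [h6] at h3
    exact absurd h3 n10

private theorem add_ne_zero' {x y : K} (h : x ≠ y) : x + y ≠ 0 := by
  intro h1
  exact h (CharTwo.add_eq_zero.1 h1)

private theorem shf_of_add {u v : ZMod 2} (h : u + v = 1) : shf E u v = 0 := by
  unfold shf
  rw [if_neg]
  rintro ⟨h1, h2⟩
  rw [h1, h2] at h
  revert h; decide

/-- a finite and an infinite point have different rounds with a finite point -/
private theorem fir_ne_spr {t : Pt F → Pt F → K} (tn : ∀ j k, t j k ≠ 0) {x : K} {u : ZMod 2} {i : F}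
    {y : K} {v : ZMod 2} {a : F} {y' : K} {v' : ZMod 2}
    (hne : (y, ((v, some a) : Pt F)) ≠ (x, (u, some i))) :
    fir D E t x (u, some i) y (v, some a) ≠ spr D E x u y' v' i := by
  intro h
  by_cases hn : NBf D E x (u, some i) y (v, some a)
  · rw [fir_pos D E hn] at h
    by_cases hxy : x = y
    · subst hxy
      rw [if_pos rfl] at h
      have h1 : ((v, some a) : Pt F) ≠ (u, some i) := fun h2 => hne (by rw [h2])
      have h2 : ((v, some a) : Pt F) ≠ sh (D.d0 (E.φ x)) (u, some i) := by
        unfold NBf at hn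
        rw [if_pos rfl] at hn
        exact hn
      obtain ⟨l1, l2⟩ := D.hh0_lab (E.φ x) u v i a h1 h2
      have l3 := D.hh0_fst u v i a
      obtain ⟨w, hw⟩ : ∃ w, w = D.hh0 (u, some i) (v, some a) := ⟨_, rfl⟩
      rw [← hw] at h l1 l2 l3
      obtain ⟨τ, m⟩ := w
      obtain ⟨s1, s2, s3⟩ := spr_eq D E h.symm
      rcases shz_cases τ with h3 | h3
      · exact l1 (Prod.ext h3 (s2 h3))
      · apply l2
        refine Prod.ext h3 ?_
        have h4 : shf E u v = 0 := shf_of_add E (by rw [← l3]; exact h3)
        rw [s3 h3, if_pos]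
        show x + t (u, some i) (v, some a) * (x + x) + shf E u v = x
        rw [h4, CharTwo.add_self_eq_zero, mul_zero, add_zero, add_zero]
    · rw [if_neg hxy] at h
      have hn1 := hn
      unfold NBf at hn1
      rw [if_neg hxy] at hn1
      obtain ⟨l1, l2⟩ := D.hh_lab u v i a hn1.1 hn1.2
      have l3 := D.hh_fst u v i a
      obtain ⟨w, hw⟩ : ∃ w, w = D.hh (u, some i) (v, some a) := ⟨_, rfl⟩
      rw [← hw] at h l1 l2 l3
      obtain ⟨τ, m⟩ := w
      obtain ⟨s1, s2, s3⟩ := spr_eq D E h.symm
      rcases shz_cases τ with h3 | h3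
      · exact l1 (Prod.ext h3 (s2 h3))
      · apply l2
        refine Prod.ext h3 ?_
        have h4 : shf E u v = 0 := shf_of_add E (by rw [← l3]; exact h3)
        rw [s3 h3, if_neg]
        show ¬ (x + t (u, some i) (v, some a) * (x + y) + shf E u v = x)
        rw [h4, add_zero]
        intro h5
        have h6 : t (u, some i) (v, some a) * (x + y) = 0 := by
          simpa using h5
        rcases mul_eq_zero.1 h6 with h7 | h7
        · exact tn _ _ h7
        · exact add_ne_zero' hxy h7
  · rw [fir_neg D E hn] at h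
    exact spr_ne_inl D E x u y' v' i _ h.symm

/-- two finite points with the same round of the second kind -/
private theorem fir_inj {t : Pt F → Pt F → K} (tn : ∀ j k, t j k ≠ 0) {x : K} {u : ZMod 2} {i : F}
    {y : K} {v : ZMod 2} {a : F} {y' : K} {v' : ZMod 2} {a' : F}
    (hn : NBf D E x (u, some i) y (v, some a)) (hn' : NBf D E x (u, some i) y' (v', some a'))
    (h : fir D E t x (u, some i) y (v, some a) = fir D E t x (u, some i) y' (v', some a')) :
    (y, ((v, some a) : Pt F)) = (y', (v', some a')) := by
  rw [fir_pos D E hn, fir_pos D E hn'] at h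
  have h1 := Sum.inr.inj h
  have h2 : x + t (u, some i) (v, some a) * (x + y) + shf E u v =
      x + t (u, some i) (v', some a') * (x + y') + shf E u v' := congrArg Prod.fst h1
  have h3 : (if x = y then D.hh0 (u, some i) (v, some a) else D.hh (u, some i) (v, some a)) =
      (if x = y' then D.hh0 (u, some i) (v', some a') else D.hh (u, some i) (v', some a')) :=
    congrArg Prod.snd h1
  have e1 : (if x = y then D.hh0 (u, some i) (v, some a) else D.hh (u, some i) (v, some a)).1 =
      u + v := by
    split_ifs
    · exact D.hh0_fst u v i a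
    · exact D.hh_fst u v i a
  have e2 : (if x = y' then D.hh0 (u, some i) (v', some a') else
      D.hh (u, some i) (v', some a')).1 = u + v' := by
    split_ifs
    · exact D.hh0_fst u v' i a'
    · exact D.hh_fst u v' i a'
  have hv : v = v' := by
    have h4 : u + v = u + v' := by rw [← e1, ← e2, h3]
    exact add_left_cancel h4
  subst hv
  have h5 : t (u, some i) (v, some a) * (x + y) = t (u, some i) (v, some a') * (x + y') := by
    have h6 := add_right_cancel h2
    exact add_left_cancel h6
  by_cases hxy : x = y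
  · have h6 : x = y' := by
      rw [← hxy, CharTwo.add_self_eq_zero, mul_zero] at h5
      rcases mul_eq_zero.1 h5.symm with h7 | h7
      · exact absurd h7 (tn _ _)
      · exact CharTwo.add_eq_zero.1 h7
    rw [if_pos hxy, if_pos h6] at h3
    obtain ⟨-, h7⟩ := D.hh0_inj u v v i a a' h3
    rw [← hxy, ← h6, h7]
  · have h6 : x ≠ y' := by
      intro h7
      rw [← h7, CharTwo.add_self_eq_zero, mul_zero] at h5
      rcases mul_eq_zero.1 h5 with h8 | h8
      · exact tn _ _ h8
      · exact add_ne_zero' hxy h8
    rw [if_neg hxy, if_neg h6] at h3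
    obtain ⟨-, h7⟩ := D.hh_inj u v v i a a' h3
    subst h7
    have h8 : x + y = x + y' := mul_left_cancel₀ (tn _ _) h5
    rw [add_left_cancel h8]

theorem isOF_R {t : Pt F → Pt F → K} (ta : ∀ j k, j ≠ k → t k j = 1 + t j k)
    (tn : ∀ j k, t j k ≠ 0) :
    @IsOF ((K × ZMod 2) ⊕ (K × (ZMod 2 × F))) (K × Pt F) ⟨Sum.inl 0⟩ (R D E t) := by
  refine @IsOF.mk _ _ ⟨Sum.inl 0⟩ _ ?_ ?_ ?_
  · rintro ⟨x, j⟩ ⟨y, k⟩ hne h
    have h0 : R D E t (x, j) (y, k) = Sum.inl 0 := h
    obtain ⟨h1, h2⟩ := R_inl D E hne h0
    exact E.r0 _ _ (Ne.symm (Blk_ne D E h2)) h1.symm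
  · rintro ⟨x, ⟨u, o⟩⟩ ⟨y, ⟨v, o'⟩⟩
    cases o with
    | none =>
      cases o' with
      | none =>
        show Sum.inl (E.rK (x, u) (y, v)) = Sum.inl (E.rK (y, v) (x, u))
        rw [E.rs]
      | some i => rfl
    | some i =>
      cases o' with
      | none => rfl
      | some i' =>
        by_cases hne : (x, ((u, some i) : Pt F)) = (y, (v, some i'))
        · rw [hne]
        · exact fir_symm D E ta x y _ _ hne
  · rintro ⟨x, j⟩ ⟨y, k⟩ ⟨y', k'⟩ hk hk' h
    rcases hR : R D E t (x, j) (y, k) with c | c
    · have hR' : R D E t (x, j) (y', k') = Sum.inl c := by rw [← h, hR]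
      obtain ⟨h1, h2⟩ := R_inl D E (Ne.symm hk) hR
      obtain ⟨h3, h4⟩ := R_inl D E (Ne.symm hk') hR'
      have h5 : ((y, k.1) : K × ZMod 2) = (y', k'.1) :=
        E.ri _ _ _ (Blk_ne D E h2) (Blk_ne D E h4) (h1.symm.trans h3)
      have h6 : y = y' := congrArg Prod.fst h5
      have h7 : k.1 = k'.1 := congrArg Prod.snd h5
      subst h6
      rw [Blk_eq D E h2 h4 h7]
    · have hR' : R D E t (x, j) (y', k') = Sum.inr c := by rw [← h, hR]
      obtain ⟨u, o⟩ := j
      obtain ⟨v, p⟩ := k
      obtain ⟨v', p'⟩ := k'
      obtain ⟨ρ, τ, m⟩ := c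
      cases o with
      | none =>
        cases p with
        | none =>
          have h1 : Sum.inl (E.rK (x, u) (y, v)) =
            (Sum.inr (ρ, (τ, m)) : (K × ZMod 2) ⊕ (K × (ZMod 2 × F))) := hR
          exact absurd h1 (by simp)
        | some i =>
          cases p' with
          | none =>
            have h1 : Sum.inl (E.rK (x, u) (y', v')) =
              (Sum.inr (ρ, (τ, m)) : (K × ZMod 2) ⊕ (K × (ZMod 2 × F))) := hR'
            exact absurd h1 (by simp)
          | some i' =>
            obtain ⟨a1, a2, a3⟩ := spr_eq D E (show spr D E y v x u i = _ from hR)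
            obtain ⟨b1, b2, b3⟩ := spr_eq D E (show spr D E y' v' x u i' = _ from hR')
            have h1 : ((y, v) : K × ZMod 2) = (y', v') := Λ_inj₂ E (a1.trans b1.symm)
            have h2 : y = y' := congrArg Prod.fst h1
            have h3 : v = v' := congrArg Prod.snd h1
            subst h2 h3
            have h4 : i = i' := by
              rcases shz_cases τ with ht | ht
              · rw [← a2 ht, ← b2 ht]
              · have h5 := (a3 ht).symm.trans (b3 ht)
                exact add_right_cancel h5
            rw [h4]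
      | some i =>
        cases p with
        | none =>
          cases p' with
          | none =>
            obtain ⟨a1, -, -⟩ := spr_eq D E (show spr D E x u y v i = _ from hR)
            obtain ⟨b1, -, -⟩ := spr_eq D E (show spr D E x u y' v' i = _ from hR')
            have h1 : ((y, v) : K × ZMod 2) = (y', v') := Λ_inj₁ E (a1.trans b1.symm)
            have h2 : y = y' := congrArg Prod.fst h1
            have h3 : v = v' := congrArg Prod.snd h1
            rw [h2, h3]
          | some a' =>
            exact absurd (show fir D E t x (u, some i) y' (v', some a') = spr D E x u y v i from h.symm)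
              (fir_ne_spr D E tn hk')
        | some a =>
          cases p' with
          | none =>
            exact absurd (show fir D E t x (u, some i) y (v, some a) = spr D E x u y' v' i from h)
              (fir_ne_spr D E tn hk)
          | some a' =>
            have hn : NBf D E x (u, some i) y (v, some a) := by
              by_contra hn
              have h1 : fir D E t x (u, some i) y (v, some a) = Sum.inr (ρ, (τ, m)) := hR
              rw [fir_neg D E hn] at h1
              exact absurd h1 (by simp)
            have hn' : NBf D E x (u, some i) y' (v', some a') := by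
              by_contra hn'
              have h1 : fir D E t x (u, some i) y' (v', some a') = Sum.inr (ρ, (τ, m)) := hR'
              rw [fir_neg D E hn'] at h1
              exact absurd h1 (by simp)
            exact fir_inj D E tn hn hn' h

end Pool.Agent.Lib.MP_db622c_co.P5
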