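import Pool.Agent.Lib.MP_db622c_co.P5.Half
import Pool.Agent.Lib.MP_db622c_co.P5.Gam

/-!
# P5-VEx: the half set `V`

For `e ≠ 0` let `ω e = e / (1 - s)` if `χ e = 1`, `ω e = e / (1 + s)` if `χ e = -1`, so
`inHf s V e = V (ω e)` and `ω e ≠ 0`.  Take `γ` from `exists_gamma` and put
`e₁ = γ / (γ - 1)`, `e₂ = (γ - 1 + ν) / (γ - 1)`, `e₃ = -(γ / (γ + ν))`,
`e₄ = -((γ - 1 + ν) / (γ + ν))`, `R = {ω e₁, ω e₂, ω e₃, ω e₄}`.  `ω e + ω e' ≠ 0` for all
`e, e' ∈ {e₁, .., e₄}`: for `e = e'` since `2 * ω e ≠ 0`; otherwise `ω e = e / b`, `ω e' = e' / a`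
with `a, b ∈ {1 + s, 1 - s}`, and `e / b + e' / a = 0` gives `e * a + e' * b = 0`; multiplying by the
denominators this contradicts the claims of `exists_gamma`:
`(e₁, e₂)`: `γ * a + (γ - 1 + ν) * b`; `(e₃, e₄)`: the same up to sign;
`(e₁, e₃)`: `γ * ((γ + ν) * a - (γ - 1) * b)`; `(e₂, e₄)`: `(γ - 1 + ν) * (..)`;
`(e₁, e₄)`: `γ * (γ + ν) * a - (γ - 1 + ν) * (γ - 1) * b`;
`(e₂, e₃)`: `(γ - 1 + ν) * (γ + ν) * a - γ * (γ - 1) * b`; the other orders by symmetry.
So `exists_half` gives `V` with `V = false` on `R`.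
* If `inHf e = true` and `(γ - 1) * e = γ` then `e = e₁`, `inHf e = V (ω e₁) = false`;
  `(γ - 1) * e = γ - 1 + ν`: `e = e₂`.
* If `inHf e = false` and `(γ + ν) * e = γ` then `-e = e₃`, `inHf (-e) = false`, but
  `inHf (-e) = !(inHf e)` for `e ≠ 0` (`ω (-e) = - ω e`); `(γ + ν) * e = γ - 1 + ν`: `-e = e₄`.
-/

namespace Pool.Agent.Lib.MP_db622c_co.P5

open Pool.Agent.Lib.MP_db622c_co Pool.Agent.Lib.MP_db622c_co.CB Pool.Agent.Lib.MP_db622c_co.P2
open Pool.Agent.Lib.MP_db622c_co.P2.PData (T ch)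

variable {F : Type} [Field F] [Fintype F] [DecidableEq F]

/-- the representative whose value of `V` decides `inHf` -/
private def om (s e : F) : F := if quadraticChar F e = 1 then e / (1 - s) else e / (1 + s)

private theorem inHf_om (s : F) (V : F → Bool) (e : F) : inHf s V e = V (om s e) := by
  unfold inHf om
  split_ifs <;> rfl

private theorem om_neg (hF : Fintype.card F % 4 = 1) (s e : F) : om s (-e) = -om s e := by
  unfold om
  rw [chi_neg hF]
  split_ifs <;> ring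

private theorem om_form (s e : F) : ∃ b : F, (b = 1 + s ∨ b = 1 - s) ∧ om s e = e / b := by
  unfold om
  split_ifs
  · exact ⟨1 - s, Or.inr rfl, rfl⟩
  · exact ⟨1 + s, Or.inl rfl, rfl⟩

private theorem om_ne {s : F} (h1 : 1 - s ≠ 0) (h2 : 1 + s ≠ 0) {e : F} (he : e ≠ 0) :
    om s e ≠ 0 := by
  unfold om
  split_ifs
  · exact div_ne_zero he h1
  · exact div_ne_zero he h2

private theorem om_sum {s : F} (h1 : 1 - s ≠ 0) (h2 : 1 + s ≠ 0) {e e' : F}
    (h : ∀ a b : F, (a = 1 + s ∨ a = 1 - s) → (b = 1 + s ∨ b = 1 - s) → e * a + e' * b ≠ 0) :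
    om s e' ≠ -om s e ∧ om s e ≠ -om s e' := by
  obtain ⟨b, hb, hb'⟩ := om_form s e
  obtain ⟨a, ha, ha'⟩ := om_form s e'
  have hb0 : b ≠ 0 := by
    rcases hb with rfl | rfl
    · exact h2
    · exact h1
  have ha0 : a ≠ 0 := by
    rcases ha with rfl | rfl
    · exact h2
    · exact h1
  have key : e / b + e' / a ≠ 0 := by
    intro h0
    apply h a b ha hb
    field_simp at h0
    linear_combination h0
  rw [hb', ha']
  constructor
  · intro h0
    apply key
    rw [h0]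
    ring
  · intro h0
    apply key
    rw [h0]
    ring

theorem exists_V (hF : Fintype.card F % 4 = 1) (h17 : 17 < Fintype.card F) (s ν : F)
    (h1 : quadraticChar F (1 - s) = 1) (h2 : quadraticChar F (1 + s) = -1)
    (hν : quadraticChar F ν = -1) :
    ∃ (γ : F) (V : F → Bool), γ ≠ 0 ∧ γ - 1 ≠ 0 ∧ γ + ν ≠ 0 ∧ γ - 1 + ν ≠ 0 ∧
      (∀ m, m ≠ 0 → V (-m) = !(V m)) ∧
      (∀ e, e ≠ 0 → inHf s V e = true → (γ - 1) * e ≠ γ ∧ (γ - 1) * e ≠ γ - 1 + ν) ∧
      (∀ e, e ≠ 0 → inHf s V e = false → (γ + ν) * e ≠ γ ∧ (γ + ν) * e ≠ γ - 1 + ν) := by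
  obtain ⟨γ, g0, g1, g2, g3, hg⟩ := exists_gamma hF h17 s ν h1 h2 hν
  have k1 : (1 : F) - s ≠ 0 := chi_ne_zero (Or.inl h1)
  have k2 : (1 : F) + s ≠ 0 := chi_ne_zero (Or.inr h2)
  have h20 : (2 : F) ≠ 0 := two_ne hF
  obtain ⟨e₁, he₁⟩ : ∃ e₁ : F, e₁ = γ / (γ - 1) := ⟨_, rfl⟩
  obtain ⟨e₂, he₂⟩ : ∃ e₂ : F, e₂ = (γ - 1 + ν) / (γ - 1) := ⟨_, rfl⟩
  obtain ⟨e₃, he₃⟩ : ∃ e₃ : F, e₃ = -(γ / (γ + ν)) := ⟨_, rfl⟩
  obtain ⟨e₄, he₄⟩ : ∃ e₄ : F, e₄ = -((γ - 1 + ν) / (γ + ν)) := ⟨_, rfl⟩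
  have n1 : e₁ ≠ 0 := by
    rw [he₁]
    exact div_ne_zero g0 g1
  have n2 : e₂ ≠ 0 := by
    rw [he₂]
    exact div_ne_zero g3 g1
  have n3 : e₃ ≠ 0 := by
    rw [he₃]
    exact neg_ne_zero.2 (div_ne_zero g0 g2)
  have n4 : e₄ ≠ 0 := by
    rw [he₄]
    exact neg_ne_zero.2 (div_ne_zero g3 g2)
  have p12 := om_sum (e := e₁) (e' := e₂) k1 k2 (by
    intro a b ha hb h0
    apply (hg a b ha hb).1
    have e0 : γ * a + (γ - 1 + ν) * b = (γ - 1) * (e₁ * a + e₂ * b) := by
      rw [he₁, he₂]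
      field_simp
    rw [e0, h0, mul_zero])
  have p34 := om_sum (e := e₃) (e' := e₄) k1 k2 (by
    intro a b ha hb h0
    apply (hg a b ha hb).1
    have e0 : γ * a + (γ - 1 + ν) * b = -(γ + ν) * (e₃ * a + e₄ * b) := by
      rw [he₃, he₄]
      field_simp
      try ring
    rw [e0, h0, mul_zero])
  have p13 := om_sum (e := e₁) (e' := e₃) k1 k2 (by
    intro a b ha hb h0
    apply (mul_ne_zero g0 (hg a b ha hb).2.1)
    have e0 : γ * ((γ + ν) * a - (γ - 1) * b) = (γ - 1) * (γ + ν) * (e₁ * a + e₃ * b) := by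
      rw [he₁, he₃]
      field_simp
      try ring
    rw [e0, h0, mul_zero])
  have p24 := om_sum (e := e₂) (e' := e₄) k1 k2 (by
    intro a b ha hb h0
    apply (mul_ne_zero g3 (hg a b ha hb).2.1)
    have e0 : (γ - 1 + ν) * ((γ + ν) * a - (γ - 1) * b) =
        (γ - 1) * (γ + ν) * (e₂ * a + e₄ * b) := by
      rw [he₂, he₄]
      field_simp
      try ring
    rw [e0, h0, mul_zero])
  have p14 := om_sum (e := e₁) (e' := e₄) k1 k2 (by
    intro a b ha hb h0
    apply (hg a b ha hb).2.2.1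
    have e0 : γ * (γ + ν) * a - (γ - 1 + ν) * (γ - 1) * b =
        (γ - 1) * (γ + ν) * (e₁ * a + e₄ * b) := by
      rw [he₁, he₄]
      field_simp
      try ring
    rw [e0, h0, mul_zero])
  have p23 := om_sum (e := e₂) (e' := e₃) k1 k2 (by
    intro a b ha hb h0
    apply (hg a b ha hb).2.2.2
    have e0 : (γ - 1 + ν) * (γ + ν) * a - γ * (γ - 1) * b =
        (γ - 1) * (γ + ν) * (e₂ * a + e₃ * b) := by
      rw [he₂, he₃]
      field_simp
      try ring
    rw [e0, h0, mul_zero])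
  have pself : ∀ e : F, e ≠ 0 → om s e ≠ -om s e := by
    intro e he h0
    have h3 : 2 * om s e = 0 := by linear_combination h0
    exact mul_ne_zero h20 (om_ne k1 k2 he) h3
  obtain ⟨V, hV, hR⟩ := exists_half hF {om s e₁, om s e₂, om s e₃, om s e₄} (by
    intro r hr
    simp only [Finset.mem_insert, Finset.mem_singleton] at hr
    rcases hr with rfl | rfl | rfl | rfl
    · exact om_ne k1 k2 n1
    · exact om_ne k1 k2 n2
    · exact om_ne k1 k2 n3
    · exact om_ne k1 k2 n4) (by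
    intro r hr r' hr'
    simp only [Finset.mem_insert, Finset.mem_singleton] at hr hr'
    rcases hr with rfl | rfl | rfl | rfl <;> rcases hr' with rfl | rfl | rfl | rfl
    · exact pself _ n1
    · exact p12.1
    · exact p13.1
    · exact p14.1
    · exact p12.2
    · exact pself _ n2
    · exact p23.1
    · exact p24.1
    · exact p13.2
    · exact p23.2
    · exact pself _ n3
    · exact p34.1
    · exact p14.2
    · exact p24.2
    · exact p34.2
    · exact pself _ n4)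
  have v1 : V (om s e₁) = false := hR _ (by simp)
  have v2 : V (om s e₂) = false := hR _ (by simp)
  have v3 : V (om s e₃) = false := hR _ (by simp)
  have v4 : V (om s e₄) = false := hR _ (by simp)
  refine ⟨γ, V, g0, g1, g2, g3, hV, ?_, ?_⟩
  · intro e he hin
    rw [inHf_om] at hin
    constructor
    · intro h0
      have h3 : e = e₁ := by
        rw [he₁, eq_div_iff g1]
        linear_combination h0
      rw [h3, v1] at hin
      exact absurd hin (by simp)
    · intro h0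
      have h3 : e = e₂ := by
        rw [he₂, eq_div_iff g1]
        linear_combination h0
      rw [h3, v2] at hin
      exact absurd hin (by simp)
  · intro e he hin
    rw [inHf_om] at hin
    have hneg : V (om s (-e)) = true := by
      rw [om_neg hF, hV _ (om_ne k1 k2 he), hin]
      rfl
    constructor
    · intro h0
      have h3 : -e = e₃ := by
        rw [he₃, neg_inj, eq_div_iff g2]
        linear_combination h0
      rw [h3, v3] at hneg
      exact absurd hneg (by simp)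
    · intro h0
      have h3 : -e = e₄ := by
        rw [he₄, neg_inj, eq_div_iff g2]
        linear_combination h0
      rw [h3, v4] at hneg
      exact absurd hneg (by simp)

end Pool.Agent.Lib.MP_db622c_co.P5
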